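import Pool.Agent.CCurve.Ore

/-!
# The annihilator of the cyclotomic function
-/

namespace Pool.Agent.CCurve

open Polynomial Finset

/-- `q^{4 + 2 i} Q^2` -/
noncomputable def dl (i : ℕ) : ℤ[X][X] := C X ^ (4 + 2 * i) * X ^ 2

noncomputable def al : ℤ[X][X] := 1 + C X - C X ^ 2 * X + C X ^ 4 * X ^ 2

noncomputable def be : ℤ[X][X] := C X - C X ^ 2 * X

noncomputable def al' : ℤ[X][X] := C X ^ 4 * X ^ 2 + C X ^ 3 * X ^ 2 - C X ^ 2 * X + 1

noncomputable def be' : ℤ[X][X] := C X ^ 3 * X ^ 2 - C X ^ 2 * X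

/-- the companion matrix -/
noncomputable def MM : Matrix (Fin 4) (Fin 4) ℤ[X][X] :=
  !![0, 0, 0, dl 0; 0, 0, -(dl 0 * be), dl 0 * al; 0, -be', 0, al';
    be * be', -(al * be'), -(be * al'), al * al']

noncomputable def sn (n : ℕ) : 𝕂 := sk aVar n

noncomputable def tn (n : ℕ) : 𝕂 := sk aVar⁻¹ n

theorem tau_dl (i : ℕ) : tau (dl i) = dl (i + 1) := by
  unfold dl
  simp only [map_mul, map_pow, tau_C, tau_X]
  ring

theorem sp_dl (i : ℕ) : sp (dl i) = X ^ 2 := by
  unfold dl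
  simp only [map_mul, map_pow, sp_CX, sp_X]
  ring

theorem dl_ne_zero (i : ℕ) : dl i ≠ 0 := by
  intro h
  have h1 := congrArg sp h
  rw [sp_dl, map_zero] at h1
  exact pow_ne_zero 2 X_ne_zero h1

theorem rec_s (n : ℕ) : sn (n + 2) = evH n al * sn (n + 1) - evH n be * sn n := by
  unfold sn
  rw [sk_rec generic_aVar]
  unfold al be
  simp only [map_mul, map_pow, map_add, map_sub, map_one, evH_CX, evH_X, qVar]
  ring

theorem rec_t (n : ℕ) :
    evH n (dl 0) * tn (n + 2) = evH n al' * tn (n + 1) - evH n be' * tn n := by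
  unfold tn
  rw [sk_rec generic_aVar.inv]
  unfold dl al' be'
  simp only [map_mul, map_pow, map_add, map_sub, map_one, evH_CX, evH_X, qVar]
  have ha : aVar ≠ 0 := generic_aVar.ne_zero
  generalize sk aVar⁻¹ (n + 1) = x
  generalize sk aVar⁻¹ n = y
  have e1 : aVar⁻¹ ^ (4 * (n + 2)) = (aVar ^ (4 * n) * aVar ^ 8)⁻¹ := by
    rw [← pow_add, inv_pow]; congr 2
  have e2 : aVar⁻¹ ^ (4 * (2 * n + 4)) = (aVar ^ (4 * n) * aVar ^ (4 * n) * aVar ^ 16)⁻¹ := by
    rw [← pow_add, ← pow_add, inv_pow]; congr 2; ring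
  have e3 : aVar⁻¹ ^ (4 * (n + 1)) = (aVar ^ (4 * n) * aVar ^ 4)⁻¹ := by
    rw [← pow_add, inv_pow]; congr 2
  have e4 : (aVar ^ 4) ^ n = aVar ^ (4 * n) := by rw [← pow_mul]
  rw [e1, e2, e3, e4]
  have hb : aVar ^ (4 * n) ≠ 0 := pow_ne_zero _ ha
  generalize aVar ^ (4 * n) = b at *
  field_simp
  ring

/-- the vector `y_n` -/
noncomputable def yv (n : ℕ) : Fin 4 → 𝕂 :=
  ![sn n * tn n, sn (n + 1) * tn n, sn n * tn (n + 1), sn (n + 1) * tn (n + 1)]

/-- evaluation of a covector -/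
noncomputable def vy (v : Fin 4 → ℤ[X][X]) (n : ℕ) : 𝕂 := ∑ i, evH n (v i) * yv n i

theorem shift_y (n : ℕ) (k : Fin 4) :
    ∑ i, evH n (MM k i) * yv n i = evH n (dl 0) * yv (n + 1) k := by
  have hs := rec_s n
  have ht := rec_t n
  fin_cases k
  · simp [Fin.sum_univ_succ, MM, yv]
  · simp [Fin.sum_univ_succ, MM, yv]
    rw [show n + 1 + 1 = n + 2 from rfl, hs]
    ring
  · simp [Fin.sum_univ_succ, MM, yv]
    rw [show n + 1 + 1 = n + 2 from rfl]
    linear_combination (-sn (n + 1)) * ht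
  · simp [Fin.sum_univ_succ, MM, yv]
    rw [show n + 1 + 1 = n + 2 from rfl, hs]
    linear_combination (-(evH n al * sn (n + 1) - evH n be * sn n)) * ht

/-- the next covector -/
noncomputable def nxt (v : Fin 4 → ℤ[X][X]) : Fin 4 → ℤ[X][X] :=
  fun i => ∑ k, tau (v k) * MM k i

theorem vy_nxt (v : Fin 4 → ℤ[X][X]) (n : ℕ) :
    vy (nxt v) n = evH n (dl 0) * vy v (n + 1) := by
  unfold vy nxt
  simp only [map_sum, map_mul, evH_tau]
  calc ∑ i, (∑ k, evH (n + 1) (v k) * evH n (MM k i)) * yv n i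
      = ∑ k, evH (n + 1) (v k) * ∑ i, evH n (MM k i) * yv n i := by
        simp only [Finset.sum_mul, Finset.mul_sum]
        rw [Finset.sum_comm]
        simp only [mul_assoc]
    _ = _ := by
        simp only [shift_y, Finset.mul_sum]
        apply Finset.sum_congr rfl
        intro k _
        ring

theorem vy_smul (g : ℤ[X][X]) (v : Fin 4 → ℤ[X][X]) (n : ℕ) :
    vy (fun i => g * v i) n = evH n g * vy v n := by
  unfold vy
  simp only [map_mul, Finset.mul_sum]
  apply Finset.sum_congr rfl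
  intro k _
  ring

theorem vy_sum {ι : Type*} (S : Finset ι) (v : ι → Fin 4 → ℤ[X][X]) (n : ℕ) :
    vy (fun i => ∑ j ∈ S, v j i) n = ∑ j ∈ S, vy (v j) n := by
  unfold vy
  simp only [map_sum, Finset.sum_mul]
  rw [Finset.sum_comm]

theorem sn_zero : sn 0 = 1 := by simp [sn, sk]

theorem tn_zero : tn 0 = 1 := by simp [tn, sk]

theorem sn_pair (n : ℕ) : sn n ≠ 0 ∨ sn (n + 1) ≠ 0 := by
  induction n with
  | zero => left; rw [sn_zero]; exact one_ne_zero
  | succ n ih =>
    by_contra hcon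
    push Not at hcon
    obtain ⟨h1, h2⟩ := hcon
    have h3 := sk_rec generic_aVar n
    change sn (n + 2) = _ * sn (n + 1) - _ * sn n at h3
    rw [h1, show sn (n + 2) = 0 from h2, mul_zero, zero_sub, zero_eq_neg] at h3
    have h4 : aVar ^ 4 * (1 - aVar ^ (4 * (n + 1))) ≠ 0 := by
      apply mul_ne_zero (pow_ne_zero _ generic_aVar.ne_zero)
      intro h
      exact generic_aVar.pow_ne_one (4 * (n + 1)) (by omega) (sub_eq_zero.mp h).symm
    have h5 : sn n = 0 := by
      rcases mul_eq_zero.mp h3 with h | h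
      · exact absurd h h4
      · exact h
    rcases ih with h | h
    · exact h h5
    · exact h h1

theorem tn_pair (n : ℕ) : tn n ≠ 0 ∨ tn (n + 1) ≠ 0 := by
  induction n with
  | zero => left; rw [tn_zero]; exact one_ne_zero
  | succ n ih =>
    by_contra hcon
    push Not at hcon
    obtain ⟨h1, h2⟩ := hcon
    have h3 := sk_rec generic_aVar.inv n
    change tn (n + 2) = _ * tn (n + 1) - _ * tn n at h3
    rw [h1, show tn (n + 2) = 0 from h2, mul_zero, zero_sub, zero_eq_neg] at h3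
    have h4 : aVar⁻¹ ^ 4 * (1 - aVar⁻¹ ^ (4 * (n + 1))) ≠ 0 := by
      apply mul_ne_zero (pow_ne_zero _ generic_aVar.inv.ne_zero)
      intro h
      exact generic_aVar.inv.pow_ne_one (4 * (n + 1)) (by omega) (sub_eq_zero.mp h).symm
    have h5 : tn n = 0 := by
      rcases mul_eq_zero.mp h3 with h | h
      · exact absurd h h4
      · exact h
    rcases ih with h | h
    · exact h h5
    · exact h h1

theorem yv_ne_zero (n : ℕ) : yv n ≠ 0 := by
  intro h
  have h0 := congrFun h 0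
  have h1 := congrFun h 1
  have h2 := congrFun h 2
  have h3 := congrFun h 3
  simp only [yv, Matrix.cons_val, Pi.zero_apply] at h0 h1 h2 h3
  rcases sn_pair n with hs | hs <;> rcases tn_pair n with ht | ht
  · exact mul_ne_zero hs ht h0
  · exact mul_ne_zero hs ht h2
  · exact mul_ne_zero hs ht h1
  · exact mul_ne_zero hs ht h3

/-- `v` is a relation between the entries of `y_n` -/
def Rel (v : Fin 4 → ℤ[X][X]) : Prop := ∀ᶠ n in Filter.atTop, vy v n = 0

theorem Rel.nxt {v : Fin 4 → ℤ[X][X]} (h : Rel v) : Rel (nxt v) := by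
  unfold Rel at *
  have h1 := (Filter.tendsto_add_atTop_nat 1).eventually h
  filter_upwards [h1] with n hn
  rw [vy_nxt, hn, mul_zero]

theorem Rel.div {v : Fin 4 → ℤ[X][X]} {g : ℤ[X][X]} (hg : g ≠ 0)
    (h : Rel (fun i => g * v i)) : Rel v := by
  unfold Rel at *
  filter_upwards [h, eventually_ne_zero hg] with n hn hn2
  rw [vy_smul] at hn
  exact (mul_eq_zero.mp hn).resolve_left hn2

theorem Rel.det {W : Matrix (Fin 4) (Fin 4) ℤ[X][X]} (h : ∀ j, Rel (W j)) : W.det = 0 := by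
  by_contra hdet
  have h1 : ∀ᶠ n in Filter.atTop, ∀ j, vy (W j) n = 0 := by
    rw [Filter.eventually_all]
    exact h
  obtain ⟨n, hn1, hn2⟩ := (h1.and (eventually_ne_zero hdet)).exists
  apply hn2
  rw [RingHom.map_det]
  rw [← Matrix.exists_mulVec_eq_zero_iff]
  refine ⟨yv n, yv_ne_zero n, ?_⟩
  funext j
  rw [Matrix.mulVec, dotProduct]
  simp only [RingHom.mapMatrix_apply, Matrix.map_apply, Pi.zero_apply]
  exact hn1 j

end Pool.Agent.CCurve
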