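import Pool.Agent.CCurve.Defs

/-!
# Basic identities for `br` and `gb`
-/

namespace Pool.Agent.CCurve

variable {K : Type*} [Field K]

/-- `a` is non-zero and not a root of unity. -/
structure Generic (a : K) : Prop where
  ne_zero : a ≠ 0
  pow_ne_one : ∀ m : ℕ, 0 < m → a ^ m ≠ 1

variable {a : K}

theorem br_eq (a : K) (m : ℤ) : br a m = (a ^ 2) ^ m - ((a ^ 2) ^ m)⁻¹ := by
  unfold br
  rw [← zpow_natCast a 2, ← zpow_mul, zpow_neg]
  norm_num

@[simp] theorem br_zero (a : K) : br a 0 = 0 := by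
  simp [br]

theorem br_neg (a : K) (m : ℤ) : br a (-m) = - br a m := by
  unfold br
  rw [show 2 * -m = -(2 * m) by ring, neg_neg]
  ring

theorem Generic.zpow_ne_one (h : Generic a) {m : ℤ} (hm : m ≠ 0) : a ^ m ≠ 1 := by
  intro h1
  rcases Int.natAbs_eq m with h2 | h2
  · apply h.pow_ne_one m.natAbs (Int.natAbs_pos.mpr hm)
    rw [← zpow_natCast, ← h2, h1]
  · apply h.pow_ne_one m.natAbs (Int.natAbs_pos.mpr hm)
    rw [← zpow_natCast, show ((m.natAbs : ℕ) : ℤ) = -m by omega, zpow_neg, h1, inv_one]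

theorem Generic.br_ne_zero (h : Generic a) {m : ℤ} (hm : m ≠ 0) : br a m ≠ 0 := by
  intro h1
  unfold br at h1
  rw [sub_eq_zero] at h1
  have h2 : a ^ (4 * m) = 1 := by
    rw [show 4 * m = 2 * m + 2 * m by ring, zpow_add₀ h.ne_zero]
    nth_rewrite 1 [h1]
    rw [← zpow_add₀ h.ne_zero]
    simp
  exact h.zpow_ne_one (by omega) h2

@[simp] theorem gb_zero_right (a : K) (m : ℕ) : gb a m 0 = 1 := by
  simp [gb]

theorem gb_succ (a : K) (m j : ℕ) :
    gb a m (j + 1) = gb a m j * (br a ((m : ℤ) - j) / br a ((j : ℤ) + 1)) := by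
  unfold gb
  rw [Finset.prod_range_succ]

theorem gb_eq_zero (a : K) {m j : ℕ} (h : m < j) : gb a m j = 0 := by
  unfold gb
  apply Finset.prod_eq_zero (Finset.mem_range.mpr h)
  simp

/-- `gb (m+1) (j+1) = gb m j * {m+1}/{j+1}` -/
theorem gb_succ_succ (a : K) (m j : ℕ) :
    gb a (m + 1) (j + 1) = gb a m j * (br a ((m : ℤ) + 1) / br a ((j : ℤ) + 1)) := by
  unfold gb
  rw [Finset.prod_div_distrib, Finset.prod_div_distrib]
  rw [Finset.prod_range_succ' (fun t : ℕ => br a (((m + 1 : ℕ) : ℤ) - t))]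
  rw [Finset.prod_range_succ (fun t : ℕ => br a ((t : ℤ) + 1))]
  have : ∀ t : ℕ, br a (((m + 1 : ℕ) : ℤ) - (t + 1 : ℕ)) = br a ((m : ℤ) - t) := by
    intro t; congr 1; push_cast; ring
  simp only [this]
  push_cast
  rw [sub_zero, mul_div_mul_comm]

/-- product `∏_{t<n} {c + t}` -/
def pr (a : K) (c : ℤ) (n : ℕ) : K := ∏ t ∈ Finset.range n, br a (c + t)

@[simp] theorem pr_zero (a : K) (c : ℤ) : pr a c 0 = 1 := by simp [pr]

theorem pr_succ (a : K) (c : ℤ) (n : ℕ) : pr a c (n + 1) = pr a c n * br a (c + n) := by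
  simp [pr, Finset.prod_range_succ]

theorem pr_succ' (a : K) (c : ℤ) (n : ℕ) : pr a c (n + 1) = br a c * pr a (c + 1) n := by
  unfold pr
  rw [Finset.prod_range_succ']
  have : ∀ t : ℕ, br a (c + (t + 1 : ℕ)) = br a (c + 1 + t) := by
    intro t; congr 1; push_cast; ring
  simp only [this]
  push_cast
  rw [add_zero, mul_comm]

theorem pr_add (a : K) (c : ℤ) (n m : ℕ) : pr a c (n + m) = pr a c n * pr a (c + n) m := by
  induction m with
  | zero => simp
  | succ m ih =>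
    rw [← add_assoc, pr_succ, ih, pr_succ, mul_assoc]
    congr 3
    push_cast; ring

end Pool.Agent.CCurve
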