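import Mathlib

/-!
# The biquadratic extension `ℂ(Q)(√D₁, √D₂)`
-/

namespace Pool.Agent.CCurve

open Polynomial

/-- `D₁ = Q² - 2 Q + 5` -/
noncomputable def D1 : ℂ[X] := X ^ 2 - 2 * X + 5

/-- `D₂ = 5 Q² - 2 Q + 1` -/
noncomputable def D2 : ℂ[X] := 5 * X ^ 2 - 2 * X + 1

theorem nonsq {D E : ℂ[X]} {r : ℂ} (hD : D = (X - C r) * E) (hE : E.eval r ≠ 0)
    {x y : ℂ[X]} (hx : x ≠ 0) (h : x ^ 2 * D = y ^ 2) : False := by
  have hE0 : E ≠ 0 := by
    rintro rfl
    simp at hE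
  have hD0 : D ≠ 0 := by
    rw [hD]
    exact mul_ne_zero (X_sub_C_ne_zero r) hE0
  have hy : y ≠ 0 := by
    rintro rfl
    rw [zero_pow two_ne_zero] at h
    exact mul_ne_zero (pow_ne_zero 2 hx) hD0 h
  have h1 := congrArg (Polynomial.rootMultiplicity r) h
  rw [pow_two, pow_two, Polynomial.rootMultiplicity_mul (mul_ne_zero (mul_ne_zero hx hx) hD0),
    Polynomial.rootMultiplicity_mul (mul_ne_zero hx hx),
    Polynomial.rootMultiplicity_mul (mul_ne_zero hy hy), hD,
    Polynomial.rootMultiplicity_mul (hD ▸ hD0), Polynomial.rootMultiplicity_X_sub_C_self,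
    Polynomial.rootMultiplicity_eq_zero (p := E) (x := r) hE] at h1
  omega

theorem D1_eq : D1 = (X - C (1 + 2 * Complex.I)) * (X - C (1 - 2 * Complex.I)) := by
  unfold D1
  have h1 : (C (1 + 2 * Complex.I) : ℂ[X]) = 1 + 2 * C Complex.I := by
    simp [map_add, map_mul, map_ofNat C 2]
  have h2 : (C (1 - 2 * Complex.I) : ℂ[X]) = 1 - 2 * C Complex.I := by
    simp [map_sub, map_mul, map_ofNat C 2]
  have h3 : (C Complex.I : ℂ[X]) ^ 2 = -1 := by
    rw [← map_pow, Complex.I_sq]; simp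
  rw [h1, h2]
  linear_combination (4 : ℂ[X]) * h3

theorem D2_eq : D2 = (X - C ((1 + 2 * Complex.I) / 5)) * (5 * X - C (1 - 2 * Complex.I)) := by
  unfold D2
  have h1 : (C ((1 + 2 * Complex.I) / 5) : ℂ[X]) * 5 = 1 + 2 * C Complex.I := by
    rw [← map_ofNat C 5, ← map_mul, div_mul_cancel₀ _ (by norm_num)]
    simp [map_add, map_mul, map_ofNat C 2]
  have h2 : (C (1 - 2 * Complex.I) : ℂ[X]) = 1 - 2 * C Complex.I := by
    simp [map_sub, map_mul, map_ofNat C 2]
  have h3 : (C Complex.I : ℂ[X]) ^ 2 = -1 := by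
    rw [← map_pow, Complex.I_sq]; simp
  have h4 : (5 : ℂ[X]) ≠ 0 := by
    rw [← map_ofNat C 5]
    intro h
    rw [C_eq_zero] at h
    norm_num at h
  apply mul_left_cancel₀ h4
  rw [h2]
  linear_combination (5 * X - 1 + 2 * C Complex.I) * h1 + (4 : ℂ[X]) * h3

theorem im_ne {z : ℂ} (h : z.im ≠ 0) : z ≠ 0 := by
  rintro rfl
  simp at h

theorem D1_nonsq {x y : ℂ[X]} (hx : x ≠ 0) (h : x ^ 2 * D1 = y ^ 2) : False := by
  apply nonsq D1_eq _ hx h
  rw [eval_sub, eval_X, eval_C]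
  apply im_ne
  norm_num

theorem D2_nonsq {x y : ℂ[X]} (hx : x ≠ 0) (h : x ^ 2 * D2 = y ^ 2) : False := by
  apply nonsq D2_eq _ hx h
  simp only [eval_sub, eval_mul, eval_X, eval_C, eval_ofNat]
  apply im_ne
  norm_num

theorem D12_nonsq {x y : ℂ[X]} (hx : x ≠ 0) (h : x ^ 2 * (D1 * D2) = y ^ 2) : False := by
  have h1 : D1 * D2 = (X - C (1 + 2 * Complex.I)) * ((X - C (1 - 2 * Complex.I)) * D2) := by
    rw [← mul_assoc, ← D1_eq]
  apply nonsq h1 _ hx h
  unfold D2
  simp only [eval_sub, eval_mul, eval_X, eval_C, eval_ofNat, eval_add, eval_pow, eval_one]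
  apply mul_ne_zero
  · apply im_ne
    norm_num
  · apply im_ne
    norm_num [pow_two]

/-- `W` contains `ℂ(Q)` and square roots `u`, `v` of `D₁`, `D₂` -/
structure Biquad {W : Type*} [Field W] (φ : ℂ[X] →+* W) (u v : W) : Prop where
  inj : Function.Injective φ
  hu : u ^ 2 = φ D1
  hv : v ^ 2 = φ D2

variable {W : Type*} [Field W] {φ : ℂ[X] →+* W} {u v : W}

namespace Biquad

theorem indep2 (h : Biquad φ u v) {x y : ℂ[X]} (e : φ x + φ y * u = 0) : x = 0 ∧ y = 0 := by
  have hy : y = 0 := by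
    by_contra hy
    apply D1_nonsq hy (y := x)
    apply h.inj
    rw [map_mul, map_pow, map_pow, ← h.hu]
    linear_combination (φ y * u - φ x) * e
  refine ⟨?_, hy⟩
  rw [hy, map_zero, zero_mul, add_zero] at e
  exact h.inj (by rw [e, map_zero])

theorem indep (h : Biquad φ u v) {x y z w : ℂ[X]}
    (e : φ x + φ y * u + φ z * v + φ w * (u * v) = 0) : x = 0 ∧ y = 0 ∧ z = 0 ∧ w = 0 := by
  -- norm of z + w u
  set N : ℂ[X] := z ^ 2 - w ^ 2 * D1 with hN
  have hNφ : φ N = φ z ^ 2 - φ w ^ 2 * u ^ 2 := by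
    rw [hN, map_sub, map_mul, map_pow, map_pow, h.hu]
  by_cases hN0 : N = 0
  · have hw : w = 0 := by
      by_contra hw
      exact D1_nonsq hw (y := z) (by rw [hN, sub_eq_zero] at hN0; exact hN0.symm)
    have hz : z = 0 := by
      rw [hN, hw] at hN0
      simpa using hN0
    rw [hw, hz, map_zero, zero_mul, zero_mul, add_zero, add_zero] at e
    have := h.indep2 e
    exact ⟨this.1, this.2, hz, hw⟩
  · exfalso
    set X0 : ℂ[X] := x * z - y * w * D1 with hX0
    set Y0 : ℂ[X] := y * z - x * w with hY0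
    have e1 : φ N * v = -(φ X0 + φ Y0 * u) := by
      rw [hNφ, hX0, hY0]
      simp only [map_sub, map_mul, ← h.hu]
      linear_combination (φ z - φ w * u) * e
    have e2 : φ (X0 ^ 2 + Y0 ^ 2 * D1 - N ^ 2 * D2) + φ (2 * X0 * Y0) * u = 0 := by
      simp only [map_sub, map_mul, map_add, map_pow, map_ofNat, ← h.hu, ← h.hv]
      linear_combination (-(φ N * v) + (φ X0 + φ Y0 * u)) * e1
    obtain ⟨e3, e4⟩ := h.indep2 e2
    have e5 : X0 = 0 ∨ Y0 = 0 := by
      rcases mul_eq_zero.mp e4 with h1 | h1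
      · rcases mul_eq_zero.mp h1 with h2 | h2
        · exfalso
          rw [← map_ofNat C 2, C_eq_zero] at h2
          norm_num at h2
        · left; exact h2
      · right; exact h1
    rcases e5 with e5 | e5
    · apply D12_nonsq hN0 (y := Y0 * D1)
      rw [e5] at e3
      linear_combination (-D1) * e3
    · apply D2_nonsq hN0 (y := X0)
      rw [e5] at e3
      linear_combination -e3

end Biquad

end Pool.Agent.CCurve
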