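import Pool.Agent.CCurve.RelZero

/-!
# The C-polynomial
-/

namespace Pool.Agent.CCurve

open Polynomial

variable {W : Type*} [Field W] {φ : ℂ[X] →+* W} {u v : W}

/-- the cyclotomic function of `8_3` -/
noncomputable def ff (k : ℕ) : 𝕂 := sk aVar k * sk aVar⁻¹ k

/-- the first covector -/
noncomputable def e0 : Fin 4 → ℤ[X][X] := ![1, 0, 0, 0]

theorem vy_e0 (n : ℕ) : vy e0 n = ff n := by
  simp [vy, e0, Fin.sum_univ_succ, yv, ff, sn, tn]

theorem evH_dl_succ (n i : ℕ) : evH (n + 1) (dl i) = evH n (dl (i + 1)) := by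
  rw [← evH_tau, tau_dl]

theorem vy_iter (j n : ℕ) :
    vy (nxt^[j] e0) n = evH n (∏ i ∈ Finset.range j, dl i) * ff (n + j) := by
  induction j generalizing n with
  | zero => simp [vy_e0]
  | succ j ih =>
    rw [Function.iterate_succ_apply', vy_nxt, ih, Finset.prod_range_succ']
    simp only [map_mul, map_prod, evH_dl_succ]
    rw [show n + 1 + j = n + (j + 1) by ring]
    ring

theorem applyOp_eq (P : ℤ[X][X][X]) (f : ℕ → 𝕂) (n : ℕ) :
    applyOp P f n = ∑ j ∈ Finset.range (P.natDegree + 1), evH n (P.coeff j) * f (n + j) := by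
  unfold applyOp
  rw [Polynomial.sum_over_range]
  · simp only [evalAt_eq]
  · intro j
    rw [evalAt_eq, map_zero, zero_mul]

/-- the relation of an operator -/
noncomputable def vec (m : ℕ) (p : ℕ → ℤ[X][X]) : Fin 4 → ℤ[X][X] :=
  fun i => ∑ j ∈ Finset.range (m + 1), (p j * ∏ l ∈ Finset.Ico j m, dl l) * (nxt^[j] e0) i

theorem vy_vec (m : ℕ) (p : ℕ → ℤ[X][X]) (n : ℕ) :
    vy (vec m p) n = evH n (∏ i ∈ Finset.range m, dl i) *
      ∑ j ∈ Finset.range (m + 1), evH n (p j) * ff (n + j) := by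
  unfold vec
  rw [vy_sum (Finset.range (m + 1))
    (fun j i => (p j * ∏ l ∈ Finset.Ico j m, dl l) * (nxt^[j] e0) i) n, Finset.mul_sum]
  apply Finset.sum_congr rfl
  intro j hj
  have hj' : j ≤ m := Nat.lt_succ_iff.mp (Finset.mem_range.mp hj)
  rw [vy_smul, vy_iter, ← Finset.prod_range_mul_prod_Ico _ hj', map_mul, map_mul]
  ring

theorem sp_vec (h : Biquad φ u v) {ε : W} (hε : φ (4 * X ^ 2) * ε = gp φ u * gr φ v)
    {m : ℕ} {p : ℕ → ℤ[X][X]} (h0 : vec m p = 0) :
    ∑ j ∈ Finset.range (m + 1), φ (sp (p j)) * ε ^ j = 0 := by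
  have hp0 : pair φ u v (fun i => sp (e0 i)) = φ (4 * X ^ 2) := by
    simp [pair, e0, Fin.sum_univ_succ, eta, map_ofNat φ]
  have h4 : φ (4 * X ^ 2) ≠ 0 := by
    intro h1
    have h2 : (4 * X ^ 2 : ℂ[X]) = 0 := h.inj (by rw [h1, map_zero])
    have h4' : (4 : ℂ[X]) ≠ 0 := by exact_mod_cast (four_ne_zero : (4 : ℕ) ≠ 0)
    exact mul_ne_zero h4' (pow_ne_zero 2 X_ne_zero) h2
  have e1 : ∑ j ∈ Finset.range (m + 1), φ (sp (p j) * (X ^ 2) ^ (m - j)) *
      pair φ u v (fun i => sp (nxt^[j] e0 i)) = 0 := by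
    unfold pair
    simp only [Finset.mul_sum]
    rw [Finset.sum_comm]
    apply Finset.sum_eq_zero
    intro i _
    have e2 := congrArg (fun x => φ (sp x) * eta φ u v i) (congrFun h0 i)
    simp only [vec, map_sum, map_mul, map_prod, sp_dl, Pi.zero_apply, map_zero, zero_mul,
      Finset.sum_mul, Finset.prod_const, Nat.card_Ico] at e2
    rw [← e2]
    apply Finset.sum_congr rfl
    intro j _
    rw [map_mul]
    ring
  have e3 : φ (4 * X ^ 2) ^ (m + 1) * ∑ j ∈ Finset.range (m + 1), φ (sp (p j)) * ε ^ j = 0 := by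
    have e4 : (4 : W) ^ m * ∑ j ∈ Finset.range (m + 1), φ (sp (p j) * (X ^ 2) ^ (m - j)) *
      pair φ u v (fun i => sp (nxt^[j] e0 i)) = 0 := by rw [e1, mul_zero]
    rw [← e4, Finset.mul_sum, Finset.mul_sum]
    apply Finset.sum_congr rfl
    intro j hj
    have hj' : j ≤ m := Nat.lt_succ_iff.mp (Finset.mem_range.mp hj)
    have e5 := h.pair_iter e0 j
    rw [hp0, ← hε, mul_pow] at e5
    have e6 : (4 : W) ^ m = 4 ^ (m - j) * 4 ^ j := by
      rw [← pow_add, Nat.sub_add_cancel hj']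
    have e7 : φ (4 * X ^ 2) ^ (m + 1) = φ (4 * X ^ 2) ^ (m - j) * φ (4 * X ^ 2) ^ j *
        φ (4 * X ^ 2) := by
      rw [← pow_add, Nat.sub_add_cancel hj', pow_succ]
    rw [e6, e7, map_mul φ (sp (p j))]
    calc φ (4 * X ^ 2) ^ (m - j) * φ (4 * X ^ 2) ^ j * φ (4 * X ^ 2) * (φ (sp (p j)) * ε ^ j)
        = φ (sp (p j)) * φ (4 * X ^ 2) ^ (m - j) *
          (φ (4 * X ^ 2) ^ j * ε ^ j * φ (4 * X ^ 2)) := by ring
      _ = φ (sp (p j)) * (4 ^ (m - j) * φ ((X ^ 2) ^ (m - j))) *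
          (4 ^ j * pair φ u v (fun i => sp (nxt^[j] e0 i))) := by
          rw [← e5]
          simp only [map_mul, map_pow, mul_pow, map_ofNat]
      _ = _ := by ring
  exact (mul_eq_zero.mp e3).resolve_left (pow_ne_zero _ h4)

theorem atOne_eq (P : ℤ[X][X][X]) : atOne P = P.map sp := rfl

/-- every operator annihilating the cyclotomic function vanishes at `(ε, Q)` if `q = 1` -/
theorem atOne_root (h : Biquad φ u v) {ε : W} (hε : φ (4 * X ^ 2) * ε = gp φ u * gr φ v)
    {P : ℤ[X][X][X]} (hP : Annihilates P ff) : (atOne P).eval₂ φ ε = 0 := by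
  have h1 : Rel (vec P.natDegree P.coeff) := by
    unfold Rel
    filter_upwards [hP] with n hn
    rw [vy_vec, ← applyOp_eq, hn, mul_zero]
  have h2 := sp_vec h hε (h.rel_zero h1)
  rw [atOne_eq, Polynomial.eval₂_map, Polynomial.eval₂_eq_sum_range]
  exact h2

theorem exists_annih : ∃ P : ℤ[X][X][X], P ≠ 0 ∧ Annihilates P ff := by
  -- five vectors in a free module of rank four
  let N : Matrix (Fin 5) (Fin 5) ℤ[X][X] := Matrix.of fun j =>
    ![(∏ l ∈ Finset.Ico (j : ℕ) 4, dl l) * (nxt^[(j : ℕ)] e0) 0,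
      (∏ l ∈ Finset.Ico (j : ℕ) 4, dl l) * (nxt^[(j : ℕ)] e0) 1,
      (∏ l ∈ Finset.Ico (j : ℕ) 4, dl l) * (nxt^[(j : ℕ)] e0) 2,
      (∏ l ∈ Finset.Ico (j : ℕ) 4, dl l) * (nxt^[(j : ℕ)] e0) 3, 0]
  have hdet : N.det = 0 := by
    apply Matrix.det_eq_zero_of_column_eq_zero 4
    intro i
    rfl
  obtain ⟨c, hc, hcN⟩ := Matrix.exists_vecMul_eq_zero_iff.mpr hdet
  let p : ℕ → ℤ[X][X] := fun j => if hj : j < 5 then c ⟨j, hj⟩ else 0
  have hpc : ∀ j : Fin 5, p j = c j := by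
    intro j
    simp [p, j.2]
  have hvec : vec 4 p = 0 := by
    funext i
    have h1 : ∀ j : Fin 5, N j (Fin.castSucc i) =
        (∏ l ∈ Finset.Ico (j : ℕ) 4, dl l) * (nxt^[(j : ℕ)] e0) i := by
      intro j
      fin_cases i <;> rfl
    have h2 := congrFun hcN (Fin.castSucc i)
    rw [Matrix.vecMul, dotProduct] at h2
    simp only [vec]
    rw [Finset.sum_range (fun j => p j * (∏ l ∈ Finset.Ico j 4, dl l) * (nxt^[j] e0) i)]
    simp only [Pi.zero_apply] at h2 ⊢
    rw [← h2]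
    apply Finset.sum_congr rfl
    intro j _
    rw [hpc j, h1 j, mul_assoc]
  refine ⟨∑ j ∈ Finset.range 5, C (p j) * X ^ j, ?_, ?_⟩
  · intro h0
    apply hc
    funext j
    have h1 := congrArg (fun P => Polynomial.coeff P (j : ℕ)) h0
    simp only [Polynomial.finsetSum_coeff, Polynomial.coeff_C_mul, Polynomial.coeff_X_pow,
      Polynomial.coeff_zero] at h1
    rw [Finset.sum_eq_single (j : ℕ)] at h1
    · rw [if_pos rfl, mul_one, hpc] at h1
      exact h1
    · intro b _ hb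
      rw [if_neg (Ne.symm hb), mul_zero]
    · intro hj
      exact absurd (Finset.mem_range.mpr j.2) hj
  · unfold Annihilates
    have hD : (∏ i ∈ Finset.range 4, dl i) ≠ 0 := Finset.prod_ne_zero_iff.mpr fun i _ => dl_ne_zero i
    filter_upwards [eventually_ne_zero hD] with n hn
    have h1 := vy_vec 4 p n
    rw [hvec] at h1
    have h2 : vy (0 : Fin 4 → ℤ[X][X]) n = 0 := by simp [vy]
    rw [h2] at h1
    have h3 := (mul_eq_zero.mp h1.symm).resolve_left hn
    rw [← h3]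
    unfold applyOp
    have hdeg : (∑ j ∈ Finset.range 5, C (p j) * X ^ j : ℤ[X][X][X]).natDegree < 5 := by
      apply Nat.lt_succ_iff.mpr
      apply Polynomial.natDegree_sum_le_of_forall_le
      intro j hj
      apply (Polynomial.natDegree_C_mul_X_pow_le _ _).trans
      have := Finset.mem_range.mp hj
      omega
    rw [Polynomial.sum_over_range' _ _ 5 hdeg]
    · have hco : ∀ j ∈ Finset.range 5,
          (∑ j ∈ Finset.range 5, C (p j) * X ^ j : ℤ[X][X][X]).coeff j = p j := by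
        intro j hj
        simp only [Polynomial.finsetSum_coeff, Polynomial.coeff_C_mul, Polynomial.coeff_X_pow]
        rw [Finset.sum_eq_single j]
        · rw [if_pos rfl, mul_one]
        · intro b _ hb
          rw [if_neg (Ne.symm hb), mul_zero]
        · intro hj'
          exact absurd hj hj'
      apply Finset.sum_congr rfl
      intro j hj
      rw [evalAt_eq, hco j hj]
    · intro j
      rw [evalAt_eq, map_zero, zero_mul]

theorem applyOp_C_mul (c : ℤ[X][X]) (P : ℤ[X][X][X]) (f : ℕ → 𝕂) (n : ℕ) :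
    applyOp (C c * P) f n = evH n c * applyOp P f n := by
  by_cases hc : c = 0
  · rw [hc, C_0, zero_mul, map_zero, zero_mul]
    simp [applyOp]
  · rw [applyOp_eq, applyOp_eq, Polynomial.natDegree_C_mul hc, Finset.mul_sum]
    apply Finset.sum_congr rfl
    intro j _
    rw [Polynomial.coeff_C_mul, map_mul, mul_assoc]

theorem exists_cpoly : ∃ P : ℤ[X][X][X], IsCPolynomial ff P := by
  classical
  have hex : ∃ d : ℕ, ∃ P : ℤ[X][X][X], P ≠ 0 ∧ Annihilates P ff ∧ P.natDegree = d := by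
    obtain ⟨P, h1, h2⟩ := exists_annih
    exact ⟨_, P, h1, h2, rfl⟩
  obtain ⟨P, hP0, hP1, hP2⟩ := Nat.find_spec hex
  let _ : NormalizedGCDMonoid ℤ[X][X] := Classical.choice inferInstance
  have hprim := P.isPrimitive_primPart
  have hdec := P.eq_C_content_mul_primPart
  have hcont : P.content ≠ 0 := by
    intro h
    exact hP0 (Polynomial.content_eq_zero_iff.mp h)
  refine ⟨P.primPart, ?_, ?_, ?_, ?_⟩
  · exact hprim.ne_zero
  · unfold Annihilates at *
    filter_upwards [hP1, eventually_ne_zero hcont] with n hn1 hn2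
    rw [hdec, applyOp_C_mul] at hn1
    exact (mul_eq_zero.mp hn1).resolve_left hn2
  · intro P' hP'0 hP'
    rw [Polynomial.natDegree_primPart, hP2]
    exact Nat.find_min' hex ⟨P', hP'0, hP', rfl⟩
  · intro c hc
    exact hprim c (Polynomial.C_dvd_iff_dvd_coeff _ _ |>.mpr hc)

theorem IsCPolynomial.atOne_ne_zero {f : ℕ → 𝕂} {P : ℤ[X][X][X]} (h : IsCPolynomial f P) :
    atOne P ≠ 0 := by
  intro h0
  apply piv_not_isUnit
  apply h.primitive
  intro j
  apply sp_eq_zero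
  have h1 := congrArg (fun R => Polynomial.coeff R j) h0
  simpa [atOne_eq] using h1

theorem exists_factor (G : ℂ[X][X]) (hG : G ≠ 0) (φ : ℂ[X] →+* W) (ε : W)
    (h : G.eval₂ φ ε = 0) : ∃ F : ℂ[X][X], Irreducible F ∧ F ∣ G ∧ F.eval₂ φ ε = 0 := by
  obtain ⟨S, hS1, hS2⟩ := WfDvdMonoid.exists_factors G hG
  obtain ⟨U, hU⟩ := hS2
  have h1 : (S.prod.eval₂ φ ε) = 0 := by
    have h2 : (S.prod * (U : ℂ[X][X])).eval₂ φ ε = 0 := by rw [hU, h]
    rw [Polynomial.eval₂_mul] at h2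
    have h3 : IsUnit ((U : ℂ[X][X]).eval₂ φ ε) := U.isUnit.map (Polynomial.eval₂RingHom φ ε)
    exact (mul_eq_zero.mp h2).resolve_right h3.ne_zero
  have h4 : (S.map (fun F => F.eval₂ φ ε)).prod = 0 := by
    rw [← h1]
    exact (map_multiset_prod (Polynomial.eval₂RingHom φ ε) S).symm
  rw [Multiset.prod_eq_zero_iff, Multiset.mem_map] at h4
  obtain ⟨F, hF1, hF2⟩ := h4
  refine ⟨F, hS1 F hF1, ?_, hF2⟩
  exact (Multiset.dvd_prod hF1).trans ⟨U, hU.symm⟩

end Pool.Agent.CCurve
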