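import Pool.Agent.CCurve.Expand2

/-!
# The Casimir operator on the tensor square
-/

namespace Pool.Agent.CCurve

open Finset

variable {K : Type*} [Field K] {a : K}

/-- multiplication of `e_x ⊗ e_y` by a function of the total weight -/
noncomputable def wt2 (f : ℤ → K) (N : ℕ) : V2 K →ₗ[K] V2 K :=
  lin (fun x y => f (hw N x + hw N y) • e2 x y)

theorem wt2_F2 (f : ℤ → K) (N : ℕ) (v : V2 K) :
    wt2 f N (F2 a N v) = F2 a N (wt2 (fun w => f (w - 2)) N v) := by
  have : (wt2 f N) ∘ₗ (F2 a N) = (F2 a N) ∘ₗ (wt2 (fun w => f (w - 2)) N) := by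
    apply ext2
    intro x y
    simp only [LinearMap.comp_apply, wt2, F2, lin_e2, map_add, map_smul, smul_add, smul_smul]
    congr 2
    · congr 1; unfold hw; push_cast; ring
    · rw [mul_comm]; congr 2; unfold hw; push_cast; ring
  exact LinearMap.congr_fun this v

theorem wt2_E2 (f : ℤ → K) (N : ℕ) (v : V2 K) :
    wt2 f N (E2 a N v) = E2 a N (wt2 (fun w => f (w + 2)) N v) := by
  have : (wt2 f N) ∘ₗ (E2 a N) = (E2 a N) ∘ₗ (wt2 (fun w => f (w + 2)) N) := by
    apply ext2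
    intro x y
    simp only [LinearMap.comp_apply, wt2, E2, lin_e2, map_add, map_smul, smul_add, smul_smul]
    congr 1
    · rcases x with _ | x
      · simp
      · rw [mul_comm]; congr 2; congr 1; unfold hw; push_cast; ring
    · rcases y with _ | y
      · simp
      · rw [mul_comm]; congr 2; congr 1; unfold hw; push_cast; ring
  exact LinearMap.congr_fun this v

theorem wt2_Rp (f : ℤ → K) (N : ℕ) (v : V2 K) : wt2 f N (Rp a N v) = Rp a N (wt2 f N v) := by
  have : (wt2 f N) ∘ₗ (Rp a N) = (Rp a N) ∘ₗ (wt2 f N) := by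
    apply ext2
    intro x y
    simp only [LinearMap.comp_apply, wt2, Rp, lin_e2, map_sum, map_smul, Finset.smul_sum, smul_smul]
    apply Finset.sum_congr rfl
    intro n hn
    rw [Finset.mem_range] at hn
    rw [mul_comm]
    congr 3
    unfold hw
    rw [Nat.cast_sub (by omega : n ≤ x)]
    push_cast
    ring
  exact LinearMap.congr_fun this v

theorem wt2_Rn (f : ℤ → K) (N : ℕ) (v : V2 K) : wt2 f N (Rn a N v) = Rn a N (wt2 f N v) := by
  have : (wt2 f N) ∘ₗ (Rn a N) = (Rn a N) ∘ₗ (wt2 f N) := by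
    apply ext2
    intro x y
    simp only [LinearMap.comp_apply, wt2, Rn, lin_e2, map_sum, map_smul, Finset.smul_sum, smul_smul]
    apply Finset.sum_congr rfl
    intro n hn
    rw [Finset.mem_range] at hn
    rw [mul_comm]
    congr 3
    unfold hw
    rw [Nat.cast_sub (by omega : n ≤ y)]
    push_cast
    ring
  exact LinearMap.congr_fun this v

/-- `v K + v⁻¹ K⁻¹` -/
noncomputable def fw (a : K) (w : ℤ) : K := a ^ (2 * (w + 1)) + a ^ (-(2 * (w + 1)))

/-- the Casimir operator -/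
noncomputable def C2 (a : K) (N : ℕ) : V2 K →ₗ[K] V2 K :=
  (F2 a N) ∘ₗ (E2 a N) + wt2 (fw a) N

theorem C2_eq' (h : Generic a) (N : ℕ) :
    C2 a N = (E2 a N) ∘ₗ (F2 a N) + wt2 (fun w => fw a (w - 2)) N := by
  have ha := h.ne_zero
  apply ext2
  intro x y
  have key : br a x * br a ((N : ℤ) - x) * a ^ (2 * hw N y) +
      br a y * br a ((N : ℤ) - y) * a ^ (-(2 * hw N x)) +
      fw a (hw N x + hw N y) =
      br a ((x + 1 : ℕ) : ℤ) * br a ((N : ℤ) - ((x + 1 : ℕ) : ℤ)) * a ^ (2 * hw N y) +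
      a ^ (-(2 * hw N x)) * (br a ((y + 1 : ℕ) : ℤ) * br a ((N : ℤ) - ((y + 1 : ℕ) : ℤ))) +
      fw a (hw N x + hw N y - 2) := by
    unfold br fw hw
    push_cast
    simp only [mul_sub, mul_add, sub_mul, ← zpow_add₀ ha]
    ring_nf
  have hx : ∀ c d : K, (br a x * c * d) • e2 (K := K) (x - 1 + 1) y = (br a x * c * d) • e2 x y := by
    intro c d
    rcases x with _ | x
    · simp
    · rfl
  have hy : ∀ c d : K, (br a y * c * d) • e2 (K := K) x (y - 1 + 1) = (br a y * c * d) • e2 x y := by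
    intro c d
    rcases y with _ | y
    · simp
    · rfl
  have hx' : ∀ c : K, br a x * c * a ^ (-(2 * hw N (x - 1))) = br a x * c * a ^ (-(2 * hw N x) - 4) := by
    intro c
    rcases x with _ | x
    · simp
    · congr 2
      unfold hw
      push_cast
      ring_nf
  unfold C2
  simp only [LinearMap.add_apply, LinearMap.comp_apply, E2, F2, wt2, lin_e2, map_add, map_smul,
    Nat.add_sub_cancel, smul_add, smul_smul]
  have e1 : br a x * br a ((N : ℤ) - x) * a ^ (2 * hw N y) * a ^ (-(2 * hw N (x - 1))) =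
      a ^ (-(2 * hw N x)) * (br a x * br a ((N : ℤ) - x) * a ^ (2 * hw N (y + 1))) := by
    have e3 : a ^ (2 * hw N y) * a ^ (-(2 * hw N x) - 4) = a ^ (-(2 * hw N x)) * a ^ (2 * hw N (y + 1)) := by
      rw [← zpow_add₀ ha, ← zpow_add₀ ha]
      congr 1
      unfold hw
      push_cast
      ring
    rw [mul_assoc (br a x), hx']
    calc _ = br a x * br a ((N : ℤ) - x) * (a ^ (2 * hw N y) * a ^ (-(2 * hw N x) - 4)) := by ring
      _ = _ := by rw [e3]; ring
  rw [e1, hx, hy, ← sub_eq_zero]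
  have e2' : ∀ (p q r s t u w z : V2 K) (c d e f g k : K), c + d + e = f + g + k →
      (c • p + q + (r + d • p)) + e • p - ((f • p + r) + (q + g • p) + k • p) = 0 := by
    intro p q r s t u w z c d e f g k hh
    have : e = f + g + k - c - d := by rw [← hh]; ring
    rw [this]
    module
  apply e2' (e2 x y) _ _ 0 0 0 0 0
  rw [← key]

theorem C2_F2 (h : Generic a) (N : ℕ) (v : V2 K) : C2 a N (F2 a N v) = F2 a N (C2 a N v) := by
  conv_rhs => rw [C2_eq' h]
  unfold C2
  simp only [LinearMap.add_apply, LinearMap.comp_apply, map_add, wt2_F2]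

theorem C2_E2 (h : Generic a) (N : ℕ) (v : V2 K) : C2 a N (E2 a N v) = E2 a N (C2 a N v) := by
  conv_lhs => rw [C2_eq' h]
  unfold C2
  simp only [LinearMap.add_apply, LinearMap.comp_apply, map_add, wt2_E2]
  simp

theorem C2_Rp (h : Generic a) (N : ℕ) (v : V2 K) : C2 a N (Rp a N v) = Rp a N (C2 a N v) := by
  unfold C2
  simp only [LinearMap.add_apply, LinearMap.comp_apply, map_add, wt2_Rp, Rp_F2 h, Rp_E2 h]

theorem C2_Rn (h : Generic a) (N : ℕ) (v : V2 K) : C2 a N (Rn a N v) = Rn a N (C2 a N v) := by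
  unfold C2
  simp only [LinearMap.add_apply, LinearMap.comp_apply, map_add, wt2_Rn, Rn_F2 h, Rn_E2 h]

theorem wt2_C2 (f : ℤ → K) (N : ℕ) (v : V2 K) : wt2 f N (C2 a N v) = C2 a N (wt2 f N v) := by
  unfold C2
  simp only [LinearMap.add_apply, LinearMap.comp_apply, map_add, wt2_F2, wt2_E2]
  congr 1
  · simp
  · have : (wt2 f N) ∘ₗ (wt2 (fw a) N) = (wt2 (fw a) N) ∘ₗ (wt2 f N) := by
      apply ext2
      intro x y
      simp only [LinearMap.comp_apply, wt2, lin_e2, map_smul, smul_smul]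
      rw [mul_comm]
    exact LinearMap.congr_fun this v

/-- eigenvalues of the Casimir operator -/
noncomputable def lam (a : K) (j : ℕ) : K := a ^ (2 * (2 * (j : ℤ) + 1)) + a ^ (-(2 * (2 * (j : ℤ) + 1)))

/-- `∏_{j<k} (T - λ_j)` -/
noncomputable def Rk {M : Type*} [AddCommGroup M] [Module K M] (a : K) (T : M →ₗ[K] M) : ℕ → M →ₗ[K] M
  | 0 => LinearMap.id
  | k + 1 => (T - lam a k • LinearMap.id) ∘ₗ (Rk a T k)

@[simp] theorem Rk_zero {M : Type*} [AddCommGroup M] [Module K M] (a : K) (T : M →ₗ[K] M) (v : M) :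
    Rk a T 0 v = v := rfl

theorem Rk_succ {M : Type*} [AddCommGroup M] [Module K M] (a : K) (T : M →ₗ[K] M) (k : ℕ) (v : M) :
    Rk a T (k + 1) v = T (Rk a T k v) - lam a k • Rk a T k v := rfl

/-- operators commuting with `T` commute with `Rk` -/
theorem Rk_comm {M M' : Type*} [AddCommGroup M] [Module K M] [AddCommGroup M'] [Module K M'] (a : K)
    (T : M →ₗ[K] M) (T' : M' →ₗ[K] M') (S : M →ₗ[K] M') (hS : ∀ v, S (T v) = T' (S v)) (k : ℕ) (v : M) :
    S (Rk a T k v) = Rk a T' k (S v) := by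
  induction k with
  | zero => rfl
  | succ k ih => rw [Rk_succ, Rk_succ, map_sub, map_smul, hS, ih]

theorem Rk_T {M : Type*} [AddCommGroup M] [Module K M] (a : K)
    (T : M →ₗ[K] M) (k : ℕ) (v : M) :
    T (Rk a T k v) = Rk a T k (T v) := Rk_comm a T T T (fun _ => rfl) k v

/-- `Rk (k+1) v = Rk k ((T - λ_k) v)` -/
theorem Rk_succ' {M : Type*} [AddCommGroup M] [Module K M] (a : K) (T : M →ₗ[K] M) (k : ℕ) (v : M) :
    Rk a T (k + 1) v = Rk a T k (T v) - lam a k • Rk a T k v := by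
  rw [Rk_succ, Rk_T]

/-- `v` has total weight `2 k` -/
def HasWt (N : ℕ) (w : ℤ) (v : V2 K) : Prop := ∀ f : ℤ → K, wt2 f N v = f w • v

theorem hasWt_E2 {N : ℕ} {w : ℤ} {v : V2 K} (hv : HasWt N w v) : HasWt N (w + 2) (E2 a N v) := by
  intro f
  rw [wt2_E2, hv, map_smul]

theorem hasWt_E2_pow {N : ℕ} {w : ℤ} {v : V2 K} (hv : HasWt N w v) (k : ℕ) :
    HasWt N (w + 2 * k) (((E2 a N) ^ k) v) := by
  induction k with
  | zero => simpa using hv
  | succ k ih =>
    rw [pow_succ', Module.End.mul_apply]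
    have := hasWt_E2 (a := a) ih
    rw [show w + 2 * ((k + 1 : ℕ) : ℤ) = w + 2 * k + 2 by push_cast; ring]
    exact this

theorem C2_pow_F2 (h : Generic a) (N j : ℕ) (v : V2 K) :
    C2 a N (((F2 a N) ^ j) v) = ((F2 a N) ^ j) (C2 a N v) := by
  induction j generalizing v with
  | zero => rfl
  | succ j ih => rw [pow_succ, Module.End.mul_apply, Module.End.mul_apply, ih, C2_F2 h]

/-- on the zero weight space `R_k(C) = F^k E^k` -/
theorem Rk_zero_wt (h : Generic a) (N k : ℕ) {v : V2 K} (hv : HasWt N 0 v) :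
    Rk a (C2 a N) k v = ((F2 a N) ^ k) (((E2 a N) ^ k) v) := by
  induction k with
  | zero => rfl
  | succ k ih =>
    rw [Rk_succ, ih, C2_pow_F2 h, ← map_smul, ← map_sub, pow_succ (F2 a N), pow_succ' (E2 a N),
      Module.End.mul_apply, Module.End.mul_apply]
    congr 1
    have h1 := hasWt_E2_pow (a := a) hv k
    rw [zero_add] at h1
    unfold C2
    rw [LinearMap.add_apply, LinearMap.comp_apply, h1]
    have : fw a (2 * k) = lam a k := rfl
    rw [this, add_sub_cancel_right]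

theorem hasWt_e2 (N : ℕ) (x y : ℕ) : HasWt N (hw N x + hw N y) (e2 x y : V2 K) := by
  intro f
  simp [wt2]

theorem hasWt_zero_e2 (m x y : ℕ) (hxy : x + y = m) : HasWt (m + 1) 0 (e2 x y : V2 K) := by
  have := hasWt_e2 (K := K) (m + 1) x y
  have h0 : hw (m + 1) x + hw (m + 1) y = 0 := by
    unfold hw; push_cast; omega
  rwa [h0] at this

theorem E2_pow_e2 (h : Generic a) (m k : ℕ) (hk : k ≤ m) :
    ((E2 a (m + 1)) ^ k) (e2 m 0) =
      (a ^ (2 * (m : ℤ) * k) * (∏ t ∈ range k, br a ((m : ℤ) - t)) * pr a 1 k) • e2 (K := K) (m - k) 0 := by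
  induction k with
  | zero => simp
  | succ k ih =>
    rw [pow_succ', Module.End.mul_apply, ih (by omega), map_smul]
    simp only [E2, lin_e2, Nat.cast_zero, br_zero, zero_mul, zero_smul, add_zero, smul_smul]
    rw [Finset.prod_range_succ, pr_succ, show m - (k + 1) = m - k - 1 by omega]
    congr 1
    have e1 : a ^ (2 * (m : ℤ) * ((k + 1 : ℕ) : ℤ)) = a ^ (2 * (m : ℤ) * k) * a ^ (2 * hw (m + 1) 0) := by
      rw [← zpow_add₀ h.ne_zero]
      congr 1
      unfold hw
      push_cast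
      ring
    rw [e1, Nat.cast_sub (by omega : k ≤ m), show ((m + 1 : ℕ) : ℤ) - ((m : ℤ) - k) = 1 + k by push_cast; ring]
    ring

/-- `R_k(C) (e_m ⊗ e_0)` -/
theorem Rk_xi (h : Generic a) (m k : ℕ) (hk : k ≤ m) :
    Rk a (C2 a (m + 1)) k (e2 m 0) = wc a (m + 1) k • ((F2 a (m + 1)) ^ k) (e2 (K := K) (m - k) 0) := by
  rw [Rk_zero_wt h _ _ (hasWt_zero_e2 m m 0 (by omega)), E2_pow_e2 h m k hk, map_smul]
  congr 1
  unfold wc
  push_cast
  simp only [add_sub_cancel_right]

theorem wc_ne_zero (h : Generic a) (m k : ℕ) (hk : k ≤ m) : wc a (m + 1) k ≠ 0 := by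
  unfold wc
  refine mul_ne_zero (mul_ne_zero (zpow_ne_zero _ h.ne_zero) ?_) (pr_one_ne_zero h k)
  rw [Finset.prod_ne_zero_iff]
  intro t ht
  rw [Finset.mem_range] at ht
  apply h.br_ne_zero
  push_cast
  omega

/-- the vectors `e_x ⊗ e_{m-x}` are in the span of the `R_k(C) (e_m ⊗ e_0)`: a linear map commuting
with `C` and killing `e_m ⊗ e_0` kills them. -/
theorem kill (h : Generic a) (m : ℕ) (D : V2 K →ₗ[K] V2 K)
    (hD : ∀ v, D (C2 a (m + 1) v) = C2 a (m + 1) (D v)) (h0 : D (e2 m 0) = 0) (k : ℕ) (hk : k ≤ m) :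
    D (e2 (m - k) k) = 0 := by
  induction k using Nat.strong_induction_on with
  | _ k ih =>
    have h1 : D (((F2 a (m + 1)) ^ k) (e2 (m - k) 0)) = 0 := by
      have h2 : D (Rk a (C2 a (m + 1)) k (e2 m 0)) = 0 := by
        rw [Rk_comm a (C2 a (m + 1)) (C2 a (m + 1)) D hD, h0, map_zero]
      rw [Rk_xi h m k hk, map_smul, smul_eq_zero] at h2
      exact h2.resolve_left (wc_ne_zero h m k hk)
    rw [F2_pow h, map_sum, Finset.sum_range_succ'] at h1
    have h3 : ∑ i ∈ range k, D (fc a (m + 1) (m - k) k (i + 1) •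
        e2 (K := K) (m - k + (i + 1)) (0 + k - (i + 1))) = 0 := by
      apply Finset.sum_eq_zero
      intro i hi
      rw [Finset.mem_range] at hi
      have := ih (k - (i + 1)) (by omega) (by omega)
      rw [map_smul, show m - k + (i + 1) = m - (k - (i + 1)) by omega,
        show 0 + k - (i + 1) = k - (i + 1) by omega, this, smul_zero]
    rw [h3, zero_add, map_smul, smul_eq_zero] at h1
    have h4 : fc a (m + 1) (m - k) k 0 ≠ 0 := by
      unfold fc
      rw [gb_zero_right, mul_one]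
      exact zpow_ne_zero _ h.ne_zero
    simpa using h1.resolve_left h4

/-- `Rp⁴` on the zero weight space -/
theorem Rp4_zero (h : Generic a) (m x y : ℕ) (hxy : x + y = m) :
    Rp a (m + 1) (Rp a (m + 1) (Rp a (m + 1) (Rp a (m + 1) (e2 x y)))) =
      ∑ k ∈ range (m + 1), Cp a (m + 1) k • Rk a (C2 a (m + 1)) k (e2 (K := K) x y) := by
  set R := Rp a (m + 1) with hR
  set D : V2 K →ₗ[K] V2 K := R ∘ₗ R ∘ₗ R ∘ₗ R -
    ∑ k ∈ range (m + 1), Cp a (m + 1) k • Rk a (C2 a (m + 1)) k with hD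
  have hDv : ∀ v, D v = R (R (R (R v))) - ∑ k ∈ range (m + 1), Cp a (m + 1) k • Rk a (C2 a (m + 1)) k v := by
    intro v
    simp [hD, LinearMap.sum_apply]
  have h1 : D (e2 (m - y) y) = 0 := by
    apply kill h m D _ _ y (by omega)
    · intro v
      rw [hDv, hDv, map_sub, map_sum]
      simp only [map_smul, hR, C2_Rp h, Rk_T]
    · rw [hDv, hR, Rp4 h, sub_eq_zero]
      apply Finset.sum_congr rfl
      intro k hk
      rw [Finset.mem_range] at hk
      rw [bet_sum h m k (by omega), Rk_xi h m k (by omega), smul_smul]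
  rw [hDv, sub_eq_zero, show m - y = x by omega] at h1
  exact h1

/-- `Rn⁴` on the zero weight space -/
theorem Rn4_zero (h : Generic a) (m x y : ℕ) (hxy : x + y = m) :
    Rn a (m + 1) (Rn a (m + 1) (Rn a (m + 1) (Rn a (m + 1) (e2 x y)))) =
      ∑ k ∈ range (m + 1), Cn a (m + 1) k • Rk a (C2 a (m + 1)) k (e2 (K := K) x y) := by
  set R := Rn a (m + 1) with hR
  set D : V2 K →ₗ[K] V2 K := R ∘ₗ R ∘ₗ R ∘ₗ R -
    ∑ k ∈ range (m + 1), Cn a (m + 1) k • Rk a (C2 a (m + 1)) k with hD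
  have hDv : ∀ v, D v = R (R (R (R v))) - ∑ k ∈ range (m + 1), Cn a (m + 1) k • Rk a (C2 a (m + 1)) k v := by
    intro v
    simp [hD, LinearMap.sum_apply]
  have h1 : D (e2 (m - y) y) = 0 := by
    apply kill h m D _ _ y (by omega)
    · intro v
      rw [hDv, hDv, map_sub, map_sum]
      simp only [map_smul, hR, C2_Rn h, Rk_T]
    · rw [hDv, hR, Rn4 h, sub_eq_zero]
      apply Finset.sum_congr rfl
      intro k hk
      rw [Finset.mem_range] at hk
      rw [bet'_sum h m k (by omega), Rk_xi h m k (by omega), smul_smul]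
  rw [hDv, sub_eq_zero, show m - y = x by omega] at h1
  exact h1

end Pool.Agent.CCurve
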