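import Mathlib

/-!
# Coloured Jones function, cyclotomic function and C-curve of a knot: definitions
-/

namespace Pool.Agent.CCurve

open Polynomial

/-! ## Sliced diagrams of knots -/

/-- The elementary pieces of a sliced (Morse) diagram of an unoriented link, read from bottom to top.
The strands on each level are numbered `0, 1, 2, …` from left to right.
* `cup i`: a local minimum, whose two ends become the strands `i` and `i + 1` of the level above;
* `cap i`: a local maximum, which joins the strands `i` and `i + 1` of the level below;
* `pos i`: a crossing of the strands `i` and `i + 1` in which the strand going from bottom left to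
  top right passes over (a positive crossing if both strands are oriented upwards);
* `neg i`: the opposite crossing of the strands `i` and `i + 1`. -/
inductive Piece
  | cup (i : ℕ)
  | cap (i : ℕ)
  | pos (i : ℕ)
  | neg (i : ℕ)

/-- A sliced diagram: the list of its pieces, from bottom to top. -/
abbrev Diagram := List Piece

/-- The possible ways to continue an orientation through a piece. A state `(o, w)` consists of the
orientations `o` of the strands of a level (`true` is upwards, `false` is downwards) and of the sum
`w` of the signs of the crossings below that level. The two ends of a `cup` or of a `cap` must have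
opposite directions. A crossing `pos i` has sign `+1` if its two strands are parallel (both up or
both down) and `-1` otherwise, and a crossing `neg i` has the opposite sign. A piece whose position
is out of range admits no orientation. -/
def orientStep : Piece → List Bool × ℤ → List (List Bool × ℤ)
  | .cup i, (o, w) =>
      if i ≤ o.length then
        [(o.take i ++ true :: false :: o.drop i, w), (o.take i ++ false :: true :: o.drop i, w)]
      else []
  | .cap i, (o, w) =>
      match o.drop i with
      | b :: c :: t => if b = c then [] else [(o.take i ++ t, w)]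
      | _ => []
  | .pos i, (o, w) =>
      match o.drop i with
      | b :: c :: t => [(o.take i ++ c :: b :: t, if b = c then w + 1 else w - 1)]
      | _ => []
  | .neg i, (o, w) =>
      match o.drop i with
      | b :: c :: t => [(o.take i ++ c :: b :: t, if b = c then w - 1 else w + 1)]
      | _ => []

/-- The list of all orientations of a closed diagram (no strands below, no strands above), each one
recorded by its final state `([], w)`, where `w` is the writhe. It has `2 ^ c` entries if the
diagram is a diagram of a link with `c` components, and it is empty if the list of pieces is not a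
closed diagram. -/
def orientations (D : Diagram) : List (List Bool × ℤ) :=
  (D.foldl (fun L p => L.flatMap (orientStep p)) [([], 0)]).filter (fun s => s.1 = [])

/-- `D` is a diagram of a knot (a link with one component), and its writhe is `w`: the diagram has
exactly two orientations, both of writhe `w`. -/
def IsKnotDiagram (D : Diagram) (w : ℤ) : Prop := orientations D = [([], w), ([], w)]

/-! ## The `sl₂` state sum with the `N`-dimensional colour

Everything is a function of `a = q^{1/4}`. The `N`-dimensional irreducible representation `V_N` of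
`U_q(sl₂)` has basis `e_0, …, e_{N-1}`, where `e_x` has weight `N - 1 - 2 x`, `F e_x = e_{x+1}` and
`E e_x = [x] [N - x] e_{x-1}`. -/

section StateSum

variable {K : Type*} [Field K]

/-- `{m} = q^{m/2} - q^{-m/2}`, where `q = a ^ 4`. -/
def br (a : K) (m : ℤ) : K := a ^ (2 * m) - a ^ (-(2 * m))

/-- The symmetric Gaussian binomial coefficient `∏_{t < j} {m - t} / {t + 1}`. -/
def gb (a : K) (m j : ℕ) : K :=
  ∏ t ∈ Finset.range j, br a ((m : ℤ) - t) / br a ((t : ℤ) + 1)

/-- The weight `N - 1 - 2 x` of the basis vector `e_x` of `V_N`. -/
def hw (N x : ℕ) : ℤ := (N : ℤ) - 1 - 2 * x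

/-- Matrix entry of the positive crossing `V_N ⊗ V_N → V_N ⊗ V_N`, the flip composed with the
R-matrix `q^{H ⊗ H / 4} ∑_n q^{n (n - 1) / 4} ({1}^n / [n]!) E^n ⊗ F^n`: the coefficient of
`e_z ⊗ e_w` in the image of `e_x ⊗ e_y`. -/
def posW (a : K) (N z w x y : ℕ) : K :=
  if z + w = x + y ∧ y ≤ z then
    a ^ (hw N z * hw N w + ((z - y : ℕ) : ℤ) * ((z - y : ℕ) - 1)) * gb a x (z - y) *
      ∏ t ∈ Finset.range (z - y), br a ((N : ℤ) - x + t)
  else 0

/-- Matrix entry of the negative crossing, the inverse of the positive crossing: the coefficient
of `e_z ⊗ e_w` in the image of `e_x ⊗ e_y`. -/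
def negW (a : K) (N z w x y : ℕ) : K :=
  if z + w = x + y ∧ z ≤ y then
    (-1) ^ (y - z) * a ^ (-(hw N x * hw N y) - ((y - z : ℕ) : ℤ) * ((y - z : ℕ) - 1)) *
      gb a y (y - z) * ∏ t ∈ Finset.range (y - z), br a ((N : ℤ) - y + t)
  else 0

/-- The coefficient of `e_x ⊗ e_y` in the invariant vector of `V_N ⊗ V_N` attached to a cup. -/
def cupW (a : K) (N x y : ℕ) : K :=
  if x + y + 1 = N then (-1) ^ x * a ^ (2 * (x : ℤ) * ((N : ℤ) - 2 - x)) else 0

/-- The value on `e_x ⊗ e_y` of the invariant form on `V_N ⊗ V_N` attached to a cap. It is
normalised so that straightening a zigzag of a cup and a cap gives the identity. -/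
def capW (a : K) (N x y : ℕ) : K :=
  if x + y + 1 = N then ((-1) ^ y * a ^ (2 * (y : ℤ) * ((N : ℤ) - 2 - y)))⁻¹ else 0

/-- The linear map attached to a piece. A vector of `V_N^{⊗ m}` is given by its coefficients
`ψ [x_1, …, x_m]` with respect to the basis vectors `e_{x_1} ⊗ ⋯ ⊗ e_{x_m}`. -/
def act (a : K) (N : ℕ) : Piece → (List ℕ → K) → List ℕ → K
  | .cup i, ψ => fun s =>
      match s.drop i with
      | x :: y :: t => cupW a N x y * ψ (s.take i ++ t)
      | _ => 0
  | .cap i, ψ => fun s =>
      ∑ x ∈ Finset.range N, ∑ y ∈ Finset.range N,
        capW a N x y * ψ (s.take i ++ x :: y :: s.drop i)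
  | .pos i, ψ => fun s =>
      match s.drop i with
      | z :: w :: t =>
          ∑ x ∈ Finset.range N, ∑ y ∈ Finset.range N,
            posW a N z w x y * ψ (s.take i ++ x :: y :: t)
      | _ => 0
  | .neg i, ψ => fun s =>
      match s.drop i with
      | z :: w :: t =>
          ∑ x ∈ Finset.range N, ∑ y ∈ Finset.range N,
            negW a N z w x y * ψ (s.take i ++ x :: y :: t)
      | _ => 0

/-- The value of a closed diagram whose components are all coloured by `V_N`: the composite of the
maps attached to its pieces, a linear map from the ground field `V_N^{⊗ 0}` to itself. -/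
def bracket (a : K) (N : ℕ) (D : Diagram) : K :=
  D.foldl (fun ψ p => act a N p ψ) (fun s => if s = [] then 1 else 0) []

/-- The coloured Jones polynomial at the `N`-dimensional colour (`N ≥ 1`) of the knot with diagram
`D` of writhe `w`, equal to `1` for the unknot: the value of the diagram, corrected for the framing
(a positive kink multiplies the value by `(-1)^{N-1} q^{(N^2-1)/4}`) and divided by the value of the
round circle. -/
def coloredJones (a : K) (D : Diagram) (w : ℤ) (N : ℕ) : K :=
  ((-1) ^ (N - 1) * a ^ ((N : ℤ) ^ 2 - 1)) ^ (-w) * bracket a N D /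
    bracket a N [Piece.cup 0, Piece.cap 0]

/-- `C(n, k) = {n - k} ⋯ {n - 1} {n + 1} ⋯ {n + k}`; it vanishes if `k ≥ n ≥ 1`. -/
def cyc (a : K) (n k : ℕ) : K :=
  ∏ i ∈ Finset.range k, br a ((n : ℤ) - (i + 1)) * br a ((n : ℤ) + (i + 1))

end StateSum

/-! ## The cyclotomic function and the C-polynomial -/

/-- The ground field `ℚ(a)`. It contains `ℚ(q)`, where `q = a ^ 4`. -/
abbrev 𝕂 := RatFunc ℚ

/-- The variable `a = q^{1/4}`. -/
noncomputable def aVar : 𝕂 := RatFunc.X

/-- The variable `q = a ^ 4`. -/
noncomputable def qVar : 𝕂 := aVar ^ 4

/-- `f` is the cyclotomic function of the knot with diagram `D` of writhe `w`. The sum over all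
`k ≥ 0` reduces to `k < n` because `C(n, k) = 0` for `k ≥ n`. -/
def IsCyclotomicFunction (D : Diagram) (w : ℤ) (f : ℕ → 𝕂) : Prop :=
  ∀ n : ℕ, 1 ≤ n → coloredJones aVar D w n = ∑ k ∈ Finset.range n, cyc aVar n k * f k

/-- The value at `Q = q ^ n` of a polynomial in `ℤ[q][Q]`. -/
noncomputable def evalAt (n : ℕ) (c : ℤ[X][X]) : 𝕂 :=
  c.eval₂ (Polynomial.eval₂RingHom (Int.castRingHom 𝕂) qVar) (qVar ^ n)

/-- A polynomial `P = ∑ c_j(Q, q) E ^ j` in `ℤ[q][Q][E]` applied to `f`: the operator `E` shifts,
`(E f)(n) = f (n + 1)`, and `Q` multiplies by `q ^ n`. -/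
noncomputable def applyOp (P : ℤ[X][X][X]) (f : ℕ → 𝕂) (n : ℕ) : 𝕂 :=
  P.sum (fun j c => evalAt n c * f (n + j))

/-- `P` annihilates `f`. As usual for operators with coefficients in the field `ℚ(q, Q)`, whose
denominators may vanish at finitely many `Q = q ^ n`, functions are considered up to finitely many
values. -/
def Annihilates (P : ℤ[X][X][X]) (f : ℕ → 𝕂) : Prop :=
  ∀ᶠ n in Filter.atTop, applyOp P f n = 0

/-- `P` is the non-commutative C-polynomial `P_f(E, Q, q)` of `f` (unique up to sign): a generator of
the left ideal of all operators which annihilate `f`, that is, a non-zero operator of least degree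
in `E` among these, normalised to have coefficients in `ℤ[q][Q]` without common non-unit factor. -/
structure IsCPolynomial (f : ℕ → 𝕂) (P : ℤ[X][X][X]) : Prop where
  ne_zero : P ≠ 0
  annihilates : Annihilates P f
  least : ∀ P' : ℤ[X][X][X], P' ≠ 0 → Annihilates P' f → P.natDegree ≤ P'.natDegree
  primitive : ∀ c : ℤ[X][X], (∀ j, c ∣ P.coeff j) → IsUnit c

/-- The specialisation `P(E, Q, 1)` at `q = 1`, as a polynomial in `ℂ[Q][E]`. -/
noncomputable def atOne (P : ℤ[X][X][X]) : ℂ[X][X] :=
  P.map (Polynomial.mapRingHom ((Int.castRingHom ℂ).comp (Polynomial.evalRingHom (1 : ℤ))))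

/-! ## Geometric genus -/

/-- The function field of the irreducible plane curve `F(E, Q) = 0`, where `F ∈ ℂ[Q][E]`. -/
abbrev FunctionField (F : ℂ[X][X]) : Type := FractionRing (AdjoinRoot F)

/-- For a field `L` containing `ℂ`: `O` is a valuation ring of `L` containing `ℂ`, that is, for each
non-zero `x` in `L`, one of `x` and `x⁻¹` is in `O`. If `L` is the function field of a curve, these
are the local rings of the points of its smooth projective model, and `L` itself. -/
def IsPlace {L : Type*} [CommRing L] [Algebra ℂ L] (O : Subalgebra ℂ L) : Prop :=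
  ∀ x y : L, x * y = 1 → x ∈ O ∨ y ∈ O

/-- The space of the Kähler differentials of `L` over `ℂ` which are regular at every place `O`, that
is, which are `O`-linear combinations of differentials `df` with `f ∈ O`. -/
noncomputable def regularDifferentials (L : Type*) [CommRing L] [Algebra ℂ L] :
    Submodule ℂ (Ω[L⁄ℂ]) :=
  ⨅ (O : Subalgebra ℂ L) (_ : IsPlace O),
    (Submodule.span O {ω : Ω[L⁄ℂ] | ∃ f ∈ O, ω = KaehlerDifferential.D ℂ L f}).restrictScalars ℂ

/-- The geometric genus of a function field `L` over `ℂ`: the dimension of the space of its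
everywhere regular differentials. -/
noncomputable def geometricGenus (L : Type*) [CommRing L] [Algebra ℂ L] : Cardinal :=
  Module.rank ℂ (regularDifferentials L)

end Pool.Agent.CCurve
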