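import Pool.Agent.CCurve.Split

/-!
# Evaluation of the (1,1)-tangle
-/

namespace Pool.Agent.CCurve

open Finset

variable {K : Type*} [Field K] {a : K}

/-- the space of highest weight vectors of weight `m` in the tensor cube -/
def InW (a : K) (m : ℕ) (ψ : V3 K) : Prop := E3 a (m + 1) ψ = 0 ∧ HasWt3 (m + 1) m ψ

theorem InW.sub {m : ℕ} {ψ φ : V3 K} (h1 : InW a m ψ) (h2 : InW a m φ) : InW a m (ψ - φ) := by
  refine ⟨by rw [map_sub, h1.1, h2.1, sub_zero], fun f => ?_⟩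
  rw [map_sub, h1.2, h2.2, smul_sub]

theorem InW.add {m : ℕ} {ψ φ : V3 K} (h1 : InW a m ψ) (h2 : InW a m φ) : InW a m (ψ + φ) := by
  refine ⟨by rw [map_add, h1.1, h2.1, add_zero], fun f => ?_⟩
  rw [map_add, h1.2, h2.2, smul_add]

theorem InW.smul {m : ℕ} {ψ : V3 K} (h1 : InW a m ψ) (c : K) : InW a m (c • ψ) := by
  refine ⟨by rw [map_smul, h1.1, smul_zero], fun f => ?_⟩
  rw [map_smul, h1.2, smul_comm]

theorem InW.sum {m : ℕ} {ι : Type*} (s : Finset ι) (f : ι → V3 K) (h1 : ∀ i ∈ s, InW a m (f i)) :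
    InW a m (∑ i ∈ s, f i) := by
  classical
  induction s using Finset.induction_on with
  | empty => exact ⟨by simp, fun f => by simp⟩
  | insert i s hi ih =>
    rw [Finset.sum_insert hi]
    exact (h1 i (by simp)).add (ih (fun j hj => h1 j (by simp [hj])))

/-- operators commuting with `E` and with the weights -/
structure Good (a : K) (N : ℕ) (T : V2 K →ₗ[K] V2 K) : Prop where
  hE : ∀ v, T (E2 a N v) = E2 a N (T v)
  hW : ∀ (f : ℤ → K) v, wt2 f N (T v) = T (wt2 f N v)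

theorem good_Rp (h : Generic a) (N : ℕ) : Good a N (Rp a N) := ⟨Rp_E2 h N, fun f v => wt2_Rp f N v⟩
theorem good_Rn (h : Generic a) (N : ℕ) : Good a N (Rn a N) := ⟨Rn_E2 h N, fun f v => wt2_Rn f N v⟩
theorem good_C2 (h : Generic a) (N : ℕ) : Good a N (C2 a N) := ⟨C2_E2 h N, fun f v => wt2_C2 f N v⟩

theorem InW.T12 {m : ℕ} {ψ : V3 K} (h1 : InW a m ψ) {T : V2 K →ₗ[K] V2 K} (hT : Good a (m + 1) T) :
    InW a m (T12 T ψ) :=
  ⟨by rw [E3_T12 _ hT.hE (fun v => hT.hW _ v), h1.1, map_zero], hasWt3_T12 hT.hW h1.2⟩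

theorem InW.T01 (h : Generic a) {m : ℕ} {ψ : V3 K} (h1 : InW a m ψ) {T : V2 K →ₗ[K] V2 K}
    (hT : Good a (m + 1) T) : InW a m (T01 T ψ) :=
  ⟨by rw [E3_T01 h _ hT.hE, h1.1, map_zero], hasWt3_T01 hT.hW h1.2⟩

theorem InW.Rk {m : ℕ} {ψ : V3 K} (h1 : InW a m ψ) {T : V3 K →ₗ[K] V3 K}
    (hT : ∀ φ, InW a m φ → InW a m (T φ)) (k : ℕ) : InW a m (Rk a T k ψ) := by
  induction k with
  | zero => exact h1
  | succ k ih => rw [Rk_succ]; exact (hT _ ih).sub (ih.smul _)

theorem hasWt_cupv (a : K) (m : ℕ) : HasWt (m + 1) 0 (cupv a m) := by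
  intro f
  unfold cupv
  rw [map_sum, Finset.smul_sum]
  apply Finset.sum_congr rfl
  intro x hx
  rw [Finset.mem_range] at hx
  rw [map_smul, hasWt_zero_e2 m x (m - x) (by omega), smul_comm]

theorem inW_u0 (h : Generic a) (m : ℕ) : InW a m (ka 0 (cupv a m)) := by
  refine ⟨?_, fun f => ?_⟩
  · rw [E3_ka h, E2_cupv h]; simp
  · rw [wt3_ka, hasWt_cupv, map_smul]
    congr 2
    unfold hw
    push_cast
    ring

/-- Casimir of the first two factors -/
noncomputable def AA (a : K) (m : ℕ) : V3 K →ₗ[K] V3 K := T01 (C2 a (m + 1))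

/-- Casimir of the last two factors -/
noncomputable def BB (a : K) (m : ℕ) : V3 K →ₗ[K] V3 K := T12 (C2 a (m + 1))

/-- the split basis -/
noncomputable def uu (a : K) (m l : ℕ) : V3 K := Rk a (BB a m) l (ka 0 (cupv a m))

theorem inW_uu (h : Generic a) (m l : ℕ) : InW a m (uu a m l) :=
  (inW_u0 h m).Rk (fun _ hφ => hφ.T12 (good_C2 h _)) l

theorem ro_T12_C2 (a : K) (m : ℕ) {ψ : V3 K} (hψ : E3 a (m + 1) ψ = 0) :
    ro 0 (T12 (C2 a (m + 1)) ψ) = B0 a (m + 1) (ro 0 ψ) := by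
  set N := m + 1
  set Sy : V2 K →ₗ[K] V2 K := lin (fun x y => e2 x (y + 1)) with hSy
  have h1 : ∀ ψ : V3 K, ro 0 (T12 (F2 a N) ψ) = Sy (ro 0 ψ) := by
    intro ψ
    have : (ro 0) ∘ₗ (T12 (F2 a N)) = Sy ∘ₗ (ro 0) := by
      apply ext3
      intro x y z
      simp only [LinearMap.comp_apply, T12, lin3_e3, F2, lin_e2, map_add, map_smul, io, ro]
      by_cases hz : z = 0
      · subst hz; simp [hSy]
      · simp [hz]
    exact LinearMap.congr_fun this ψ
  have h2 : ∀ ψ : V3 K, ro 0 (T12 (wt2 (fw a) N) ψ) =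
      (lin (fun x y => fw a (hw N y + hw N 0) • e2 x y) : V2 K →ₗ[K] V2 K) (ro 0 ψ) := by
    intro ψ
    have : (ro 0) ∘ₗ (T12 (wt2 (fw a) N)) =
        (lin (fun x y => fw a (hw N y + hw N 0) • e2 x y) : V2 K →ₗ[K] V2 K) ∘ₗ (ro 0) := by
      apply ext3
      intro x y z
      simp only [LinearMap.comp_apply, T12, lin3_e3, wt2, lin_e2, map_smul, io, ro]
      by_cases hz : z = 0
      · subst hz; simp
      · simp [hz]
    exact LinearMap.congr_fun this ψ
  have h3 : ∀ ψ : V3 K, ro 0 (EKK a N ψ) =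
      (lin (fun x y => (Ac a N x * a ^ (2 * (hw N y + hw N 0))) • e2 (x - 1) y) : V2 K →ₗ[K] V2 K) (ro 0 ψ) := by
    intro ψ
    have : (ro 0) ∘ₗ (EKK a N) =
        (lin (fun x y => (Ac a N x * a ^ (2 * (hw N y + hw N 0))) • e2 (x - 1) y) : V2 K →ₗ[K] V2 K) ∘ₗ (ro 0) := by
      apply ext3
      intro x y z
      simp only [LinearMap.comp_apply, EKK, lin3_e3, map_smul, ro]
      by_cases hz : z = 0
      · subst hz; simp
      · simp [hz]
    exact LinearMap.congr_fun this ψ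
  have h4 : T12 (E2 a N) ψ = - EKK a N ψ := by
    rw [E3_eq, LinearMap.add_apply] at hψ
    rw [eq_neg_iff_add_eq_zero, add_comm]
    exact hψ
  have h5 : B0 a N = (lin (fun x y => fw a (hw N y + hw N 0) • e2 x y) : V2 K →ₗ[K] V2 K) -
      Sy ∘ₗ (lin (fun x y => (Ac a N x * a ^ (2 * (hw N y + hw N 0))) • e2 (x - 1) y) : V2 K →ₗ[K] V2 K) := by
    apply ext2
    intro x y
    simp only [B0, LinearMap.sub_apply, LinearMap.comp_apply, lin_e2, map_smul, hSy]
    rw [neg_smul]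
    abel
  unfold C2
  rw [T12_add, ← T12_comp, map_add, h1, h2, h4, map_neg, h3, h5, LinearMap.sub_apply, LinearMap.comp_apply,
    map_neg]
  abel

theorem ro_ka_zero (v : V2 K) : ro 0 (ka 0 v) = v := by rw [ro_ka]; simp

theorem ro_uu (h : Generic a) (m l : ℕ) : ro 0 (uu a m l) = Gv a m l := by
  induction l with
  | zero => rw [uu, Rk_zero, ro_ka_zero, Gv_zero]
  | succ l ih =>
    unfold uu at ih ⊢
    rw [Rk_succ, map_sub, map_smul]
    have h1 : ro 0 ((BB a m) (Rk a (BB a m) l (ka 0 (cupv a m)))) = B0 a (m + 1) (Gv a m l) := by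
      rw [← ih]
      exact ro_T12_C2 a m (inW_uu h m l).1
    rw [h1, ih, B0_Gv h]
    abel

theorem AA_uu_zero (h : Generic a) (m : ℕ) : AA a m (uu a m 0) = lam a 0 • uu a m 0 := by
  rw [← sub_eq_zero]
  have hw' : InW a m (AA a m (uu a m 0) - lam a 0 • uu a m 0) :=
    ((inW_uu h m 0).T01 h (good_C2 h _)).sub ((inW_uu h m 0).smul _)
  apply W_ro h m hw'.1 hw'.2
  unfold AA
  rw [map_sub, map_smul, ro_T01, ro_uu h, C2_Gv_zero h, sub_self]

theorem AA_uu_succ (h : Generic a) (m l : ℕ) :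
    AA a m (uu a m (l + 1)) = lam a (l + 1) • uu a m (l + 1) + phi a (m + 1) (l + 1) • uu a m l := by
  rw [← sub_eq_zero]
  have hw' : InW a m (AA a m (uu a m (l + 1)) - (lam a (l + 1) • uu a m (l + 1) +
      phi a (m + 1) (l + 1) • uu a m l)) :=
    ((inW_uu h m (l + 1)).T01 h (good_C2 h _)).sub (((inW_uu h m (l + 1)).smul _).add ((inW_uu h m l).smul _))
  apply W_ro h m hw'.1 hw'.2
  unfold AA
  rw [map_sub, map_add, map_smul, map_smul, ro_T01, ro_uu h, ro_uu h, C2_Gv_succ h, sub_self]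

theorem sg_ka_cupv (a : K) (m : ℕ) : sg 0 (ka 0 (cupv a m)) = e2 m 0 := by
  unfold cupv
  simp only [map_sum, map_smul, ka, lin_e2, sg, lin3_e3]
  rw [Finset.sum_range_succ']
  simp

theorem T12_Rp4 (h : Generic a) (m : ℕ) :
    T12 (Rp a (m + 1)) (T12 (Rp a (m + 1)) (T12 (Rp a (m + 1)) (T12 (Rp a (m + 1)) (ka 0 (cupv a m))))) =
      ∑ k ∈ range (m + 1), Cp a (m + 1) k • uu a m k := by
  rw [← sub_eq_zero]
  have hg := good_Rp h (m + 1)
  have hw' : InW a m (T12 (Rp a (m + 1)) (T12 (Rp a (m + 1)) (T12 (Rp a (m + 1)) (T12 (Rp a (m + 1))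
      (ka 0 (cupv a m))))) - ∑ k ∈ range (m + 1), Cp a (m + 1) k • uu a m k) :=
    (((((inW_u0 h m).T12 hg).T12 hg).T12 hg).T12 hg).sub (InW.sum _ _ (fun k _ => (inW_uu h m k).smul _))
  apply W_sg h m hw'.1 hw'.2
  rw [map_sub, sg_T12, sg_T12, sg_T12, sg_T12, sg_ka_cupv, Rp4_zero h m m 0 (by omega), map_sum, sub_eq_zero]
  apply Finset.sum_congr rfl
  intro k _
  rw [map_smul]
  unfold uu BB
  rw [Rk_comm a (T12 (C2 a (m + 1))) (C2 a (m + 1)) (sg 0) (fun ψ => sg_T12 _ _ _), sg_ka_cupv]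

theorem T01_Rn4 (h : Generic a) (m : ℕ) {ψ : V3 K} (hψ : InW a m ψ) :
    T01 (Rn a (m + 1)) (T01 (Rn a (m + 1)) (T01 (Rn a (m + 1)) (T01 (Rn a (m + 1)) ψ))) =
      ∑ k ∈ range (m + 1), Cn a (m + 1) k • Rk a (AA a m) k ψ := by
  rw [← sub_eq_zero]
  have hg := good_Rn h (m + 1)
  have hw' : InW a m (T01 (Rn a (m + 1)) (T01 (Rn a (m + 1)) (T01 (Rn a (m + 1)) (T01 (Rn a (m + 1)) ψ))) -
      ∑ k ∈ range (m + 1), Cn a (m + 1) k • Rk a (AA a m) k ψ) :=
    ((((hψ.T01 h hg).T01 h hg).T01 h hg).T01 h hg).sub (InW.sum _ _ (fun k _ =>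
      (hψ.Rk (fun _ hφ => hφ.T01 h (good_C2 h _)) k).smul _))
  apply W_ro h m hw'.1 hw'.2
  rw [map_sub, ro_T01, ro_T01, ro_T01, ro_T01, map_sum]
  have h1 : ∀ k ∈ range (m + 1), ro 0 (Cn a (m + 1) k • Rk a (AA a m) k ψ) =
      Cn a (m + 1) k • Rk a (C2 a (m + 1)) k (ro 0 ψ) := by
    intro k _
    rw [map_smul]
    unfold AA
    rw [Rk_comm a (T01 (C2 a (m + 1))) (C2 a (m + 1)) (ro 0) (fun ψ => ro_T01 _ _ _)]
  rw [Finset.sum_congr rfl h1]
  set R := Rn a (m + 1) with hR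
  set D : V2 K →ₗ[K] V2 K := R ∘ₗ R ∘ₗ R ∘ₗ R -
    ∑ k ∈ range (m + 1), Cn a (m + 1) k • Rk a (C2 a (m + 1)) k with hD
  have hDv : ∀ v, D v = R (R (R (R v))) - ∑ k ∈ range (m + 1), Cn a (m + 1) k • Rk a (C2 a (m + 1)) k v := by
    intro v
    simp [hD, LinearMap.sum_apply]
  rw [← hDv]
  have hsum : ro 0 ψ = (ro 0 ψ).sum (fun p c => c • e2 p.1 p.2) := by
    conv_lhs => rw [← Finsupp.sum_single (ro 0 ψ)]
    apply Finsupp.sum_congr
    intro p _
    simp [e2]
  rw [hsum, Finsupp.sum, map_sum]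
  apply Finset.sum_eq_zero
  rintro ⟨x, y⟩ hp
  rw [Finsupp.mem_support_iff, ro_apply] at hp
  have hxy : x + y = m := by
    by_contra hne
    apply hp
    apply hψ.2.apply_eq_zero
    unfold hw
    push_cast
    omega
  rw [map_smul, hDv, Rn4_zero h m x y hxy, sub_self, smul_zero]

/-- the cap -/
noncomputable def capl (a : K) (m : ℕ) : V2 K →ₗ[K] K :=
  lin (fun y z => if y + z = m then (cI a m z)⁻¹ else 0)

theorem capl_E2 (h : Generic a) (m : ℕ) (v : V2 K) : capl a m (E2 a (m + 1) v) = 0 := by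
  have : (capl a m) ∘ₗ (E2 a (m + 1)) = 0 := by
    apply ext2
    intro y z
    simp only [LinearMap.comp_apply, E2_e2, map_add, map_smul, capl, lin_e2, LinearMap.zero_apply, smul_eq_mul]
    rcases y with _ | y
    · rcases z with _ | z
      · simp
      · by_cases hz : z = m
        · subst hz; simp
        · simp [hz]
    · rcases z with _ | z
      · by_cases hy : y = m
        · subst hy; simp
        · simp [hy]
      · by_cases hyz : y + (z + 1) = m
        · rw [if_pos (by omega), if_pos (by omega)]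
          simp only [Nat.add_sub_cancel]
          rw [cI_succ h]
          have h1 : Ac a (m + 1) (y + 1) = Ac a (m + 1) (z + 1) := by
            rw [← Ac_sub a (by omega : z ≤ m)]
            congr 1
            omega
          have h2 : a ^ (2 * hw (m + 1) (z + 1)) = a ^ (2 * hw (m + 1) z - 4) := by
            congr 1
            unfold hw
            push_cast
            ring
          have h3 := cI_ne_zero h m z
          have h4 : a ^ (2 * hw (m + 1) z - 4) ≠ 0 := zpow_ne_zero _ h.ne_zero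
          rw [h1, h2]
          field_simp
          ring
        · rw [if_neg (by omega), if_neg (by omega)]
          simp
  exact LinearMap.congr_fun this v

theorem capl_wt2 (m : ℕ) (f : ℤ → K) (v : V2 K) : capl a m (wt2 f (m + 1) v) = f 0 * capl a m v := by
  have : (capl a m) ∘ₗ (wt2 f (m + 1)) = f 0 • (capl a m) := by
    apply ext2
    intro y z
    simp only [LinearMap.comp_apply, wt2, lin_e2, map_smul, capl, LinearMap.smul_apply, smul_eq_mul]
    by_cases hyz : y + z = m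
    · rw [if_pos hyz]
      congr 2
      unfold hw
      push_cast
      omega
    · rw [if_neg hyz]; simp
  exact LinearMap.congr_fun this v

theorem capl_C2 (h : Generic a) (m : ℕ) (v : V2 K) : capl a m (C2 a (m + 1) v) = lam a 0 * capl a m v := by
  rw [C2_eq' h, LinearMap.add_apply, LinearMap.comp_apply, map_add, capl_E2 h, zero_add, capl_wt2]
  congr 1
  unfold fw lam
  norm_num
  rw [add_comm]

theorem eps_Rk (h : Generic a) (m l : ℕ) : capl a m (sg 0 (uu a m (l + 1))) = 0 := by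
  have h1 : ∀ l, sg 0 (uu a m l) = Rk a (C2 a (m + 1)) l (e2 m 0) := by
    intro l
    unfold uu BB
    rw [Rk_comm a (T12 (C2 a (m + 1))) (C2 a (m + 1)) (sg 0) (fun ψ => sg_T12 _ _ _), sg_ka_cupv]
  rw [h1]
  induction l with
  | zero =>
    rw [Rk_succ, map_sub, map_smul, capl_C2 h]
    simp
  | succ l ih =>
    rw [Rk_succ, map_sub, map_smul, capl_C2 h, ih]
    simp

theorem eps_u0 (a : K) (m : ℕ) : capl a m (sg 0 (uu a m 0)) = 1 := by
  unfold uu
  rw [Rk_zero, sg_ka_cupv]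
  simp [capl]

theorem eps_t (h : Generic a) (m k l : ℕ) :
    capl a m (sg 0 (Rk a (AA a m) k (uu a m l))) =
      if k = l then ∏ j ∈ range l, phi a (m + 1) (j + 1) else 0 := by
  induction k generalizing l with
  | zero =>
    rcases l with _ | l
    · simp [eps_u0]
    · simp [eps_Rk h]
  | succ k ih =>
    rw [Rk_succ', map_sub, map_sub, map_smul, map_smul]
    rcases l with _ | l
    · rw [AA_uu_zero h, map_smul, map_smul, map_smul, ih]
      rcases k with _ | k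
      · simp
      · simp
    · rw [AA_uu_succ h, map_add, map_add, map_add, map_smul, map_smul, map_smul, map_smul, map_smul, map_smul,
        ih, ih]
      by_cases hk : k = l + 1
      · subst hk
        simp
      · rw [if_neg hk]
        by_cases hk' : k = l
        · subst hk'
          rw [Finset.prod_range_succ]
          simp [mul_comm]
        · rw [if_neg hk', if_neg (by omega)]
          simp

/-- value of the (1,1)-tangle -/
noncomputable def zval (a : K) (m : ℕ) : K :=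
  ∑ l ∈ range (m + 1), Cp a (m + 1) l * Cn a (m + 1) l * ∏ j ∈ range l, phi a (m + 1) (j + 1)

/-- the fourth power of `T` -/
noncomputable def pow4 {M : Type*} [AddCommGroup M] [Module K M] (T : M →ₗ[K] M) (v : M) : M := T (T (T (T v)))

theorem eps_main (h : Generic a) (m : ℕ) :
    capl a m (sg 0 (pow4 (T01 (Rn a (m + 1))) (pow4 (T12 (Rp a (m + 1))) (ka 0 (cupv a m))))) = zval a m := by
  unfold pow4
  rw [T12_Rp4 h, T01_Rn4 h m (InW.sum _ _ (fun k _ => (inW_uu h m k).smul _))]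
  unfold zval
  simp only [map_sum, map_smul, Finset.smul_sum, smul_eq_mul, eps_t h]
  rw [Finset.sum_comm]
  apply Finset.sum_congr rfl
  intro l hl
  rw [Finset.sum_eq_single l]
  · simp; ring
  · intro k _ hk
    simp [hk]
  · intro h'; exact absurd hl h'

theorem eps_step (h : Generic a) (m b : ℕ) (hb : b + 1 ≤ m) :
    capl a m (sg (b + 1) (pow4 (T01 (Rn a (m + 1))) (pow4 (T12 (Rp a (m + 1))) (ka (b + 1) (cupv a m))))) =
      capl a m (sg b (pow4 (T01 (Rn a (m + 1))) (pow4 (T12 (Rp a (m + 1))) (ka b (cupv a m))))) := by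
  have hn := good_Rn h (m + 1)
  have hp := good_Rp h (m + 1)
  have e1 : ∀ ψ, E3 a (m + 1) (pow4 (T01 (Rn a (m + 1))) (pow4 (T12 (Rp a (m + 1))) ψ)) =
      pow4 (T01 (Rn a (m + 1))) (pow4 (T12 (Rp a (m + 1))) (E3 a (m + 1) ψ)) := by
    intro ψ
    unfold pow4
    rw [E3_T01 h _ hn.hE, E3_T01 h _ hn.hE, E3_T01 h _ hn.hE, E3_T01 h _ hn.hE, E3_T12 _ hp.hE (fun v => hp.hW _ v),
      E3_T12 _ hp.hE (fun v => hp.hW _ v), E3_T12 _ hp.hE (fun v => hp.hW _ v), E3_T12 _ hp.hE (fun v => hp.hW _ v)]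
  have e2 := e1 (ka (b + 1) (cupv a m))
  rw [E3_ka h, E2_cupv h, map_zero, smul_zero, zero_add, Nat.add_sub_cancel] at e2
  have e3 := congrArg (fun ψ => capl a m (sg b ψ)) e2
  simp only [sg_E3, map_add, map_smul, capl_E2 h, add_zero] at e3
  have e4 : ∀ v, capl a m (K2 a (m + 1) v) = capl a m v := by
    intro v
    rw [K2, capl_wt2]
    simp
  rw [e4] at e3
  have e5 : ∀ ψ : V3 K, ∀ c : K, pow4 (T01 (Rn a (m + 1))) (pow4 (T12 (Rp a (m + 1))) (c • ψ)) =
      c • pow4 (T01 (Rn a (m + 1))) (pow4 (T12 (Rp a (m + 1))) ψ) := by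
    intro ψ c
    unfold pow4
    simp only [map_smul]
  rw [e5, map_smul, map_smul, smul_eq_mul, smul_eq_mul] at e3
  exact mul_left_cancel₀ (Ac_ne_zero h (by omega) (by omega)) e3

theorem eps_all (h : Generic a) (m b : ℕ) (hb : b ≤ m) :
    capl a m (sg b (pow4 (T01 (Rn a (m + 1))) (pow4 (T12 (Rp a (m + 1))) (ka b (cupv a m))))) = zval a m := by
  induction b with
  | zero => exact eps_main h m
  | succ b ih => rw [eps_step h m b hb, ih (by omega)]

theorem phi_prod (h : Generic a) (m l : ℕ) :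
    ∏ j ∈ range l, phi a (m + 1) (j + 1) = (-1) ^ l * pr a 1 l ^ 2 * cyc a (m + 1) l := by
  induction l with
  | zero => simp [cyc]
  | succ l ih =>
    rw [Finset.prod_range_succ, ih, pr_succ]
    unfold cyc phi
    rw [Finset.prod_range_succ, pow_succ]
    push_cast
    rw [show (1 : ℤ) + l = l + 1 by ring]
    ring

/-- the value of the tangle in cyclotomic form -/
theorem zval_eq (h : Generic a) (m : ℕ) :
    zval a m = ∑ k ∈ range (m + 1), cyc a (m + 1) k * (sk a k * sk a⁻¹ k) := by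
  unfold zval
  apply Finset.sum_congr rfl
  intro k _
  rw [phi_prod h]
  unfold Cp Cn
  have h1 := pr_one_ne_zero h k
  have h2 : a ^ (-4 * (((m + 1 : ℕ) : ℤ) ^ 2 - 1) + k * (k + 3)) *
      a ^ (4 * (((m + 1 : ℕ) : ℤ) ^ 2 - 1) - k * (k + 3)) = 1 := by
    rw [← zpow_add₀ h.ne_zero]
    rw [show -4 * (((m + 1 : ℕ) : ℤ) ^ 2 - 1) + k * (k + 3) + (4 * (((m + 1 : ℕ) : ℤ) ^ 2 - 1) - k * (k + 3)) = 0 by
      ring, zpow_zero]
  have h3 : ((-1) ^ k * (-1) ^ k : K) = 1 := by rw [← mul_pow]; simp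
  calc _ = (a ^ (-4 * (((m + 1 : ℕ) : ℤ) ^ 2 - 1) + k * (k + 3)) *
      a ^ (4 * (((m + 1 : ℕ) : ℤ) ^ 2 - 1) - k * (k + 3))) * ((-1) ^ k * (-1) ^ k) *
      (cyc a (m + 1) k * (sk a k * sk a⁻¹ k)) * (pr a 1 k ^ 2 / (pr a 1 k * pr a 1 k)) := by ring
    _ = _ := by rw [h2, h3]; field_simp

end Pool.Agent.CCurve
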