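import Pool.Agent.CCurve.Ops

/-!
# Expansions of powers of the crossings on `e_m ⊗ e_0`
-/

namespace Pool.Agent.CCurve

open Finset

variable {K : Type*} [Field K] {a : K}

theorem Generic.inv (h : Generic a) : Generic a⁻¹ := by
  refine ⟨inv_ne_zero h.ne_zero, fun m hm h1 => h.pow_ne_one m hm ?_⟩
  rwa [inv_pow, inv_eq_one] at h1

theorem br_inv (a : K) (m : ℤ) : br a⁻¹ m = - br a m := by
  unfold br
  rw [inv_zpow, inv_zpow, ← zpow_neg, ← zpow_neg, neg_neg]
  ring

theorem gb_inv (a : K) (m j : ℕ) : gb a⁻¹ m j = gb a m j := by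
  unfold gb
  apply Finset.prod_congr rfl
  intro t _
  rw [br_inv, br_inv, neg_div_neg_eq]

theorem pr_inv (a : K) (c : ℤ) (n : ℕ) : pr a⁻¹ c n = (-1) ^ n * pr a c n := by
  unfold pr
  simp only [br_inv]
  rw [Finset.prod_neg, Finset.card_range]

/-- Pascal rule -/
theorem gb_pascal (h : Generic a) (m j : ℕ) :
    gb a (m + 1) (j + 1) = a ^ (-(2 * ((m : ℤ) - j))) * gb a m j + a ^ (2 * ((j : ℤ) + 1)) * gb a m (j + 1) := by
  have ha := h.ne_zero
  have h1 : br a ((j : ℤ) + 1) ≠ 0 := h.br_ne_zero (by omega)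
  rw [gb_succ_succ, gb_succ]
  have main : br a ((m : ℤ) + 1) = a ^ (-(2 * ((m : ℤ) - j))) * br a ((j : ℤ) + 1) +
      a ^ (2 * ((j : ℤ) + 1)) * br a ((m : ℤ) - j) := by
    unfold br
    simp only [mul_sub, ← zpow_add₀ ha]
    ring_nf
  rw [main]
  field_simp

theorem gb_mul_gb (h : Generic a) (m i s : ℕ) (hs : i + s ≤ m) :
    gb a m (i + s) * gb a (i + s) i = gb a m i * gb a (m - i) s := by
  induction s with
  | zero =>
    have : gb a i i = 1 := by
      unfold gb
      rw [Finset.prod_div_distrib]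
      have : ∏ t ∈ range i, br a ((i : ℤ) - t) = ∏ t ∈ range i, br a ((t : ℤ) + 1) := by
        rw [← Finset.prod_range_reflect]
        apply Finset.prod_congr rfl
        intro t ht
        rw [Finset.mem_range] at ht
        congr 1
        omega
      rw [this]
      apply div_self
      rw [Finset.prod_ne_zero_iff]
      intro t _
      exact h.br_ne_zero (by omega)
    simp [this]
  | succ s ih =>
    have ih := ih (by omega)
    have h1 : br a (((i + s : ℕ) : ℤ) + 1) ≠ 0 := h.br_ne_zero (by omega)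
    have h2 : br a ((s : ℤ) + 1) ≠ 0 := h.br_ne_zero (by omega)
    have h3 : gb a (i + s + 1) i * br a ((s : ℤ) + 1) = gb a (i + s) i * br a (((i + s : ℕ) : ℤ) + 1) := by
      have e := gb_succ_succ a (i + s) i
      rw [gb_succ] at e
      have h4 : br a ((i : ℤ) + 1) ≠ 0 := h.br_ne_zero (by omega)
      field_simp at e
      rw [← e]
      congr 2
      push_cast; ring
    rw [← add_assoc, gb_succ, gb_succ]
    have h5 : br a (((m - i : ℕ) : ℤ) - s) = br a ((m : ℤ) - ((i + s : ℕ) : ℤ)) := by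
      congr 1
      omega
    rw [h5]
    calc _ = gb a m (i + s) * br a ((m : ℤ) - ((i + s : ℕ) : ℤ)) *
          (gb a (i + s + 1) i * br a ((s : ℤ) + 1)) / (br a (((i + s : ℕ) : ℤ) + 1) * br a ((s : ℤ) + 1)) := by
            field_simp
      _ = (gb a m (i + s) * gb a (i + s) i) * br a ((m : ℤ) - ((i + s : ℕ) : ℤ)) / br a ((s : ℤ) + 1) := by
            rw [h3]; field_simp
      _ = _ := by rw [ih]; field_simp

/-- coefficients of `F^j` -/
noncomputable def fc (a : K) (N x j i : ℕ) : K :=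
  a ^ (2 * (i : ℤ) * ((j : ℤ) - i) - 2 * hw N x * ((j : ℤ) - i)) * gb a j i

theorem fc_succ (h : Generic a) (N x j i : ℕ) :
    fc a N x (j + 1) (i + 1) = fc a N x j i + a ^ (-(2 * hw N (x + (i + 1)))) * fc a N x j (i + 1) := by
  have ha := h.ne_zero
  unfold fc
  rw [gb_pascal h, mul_add, ← mul_assoc, ← mul_assoc, ← mul_assoc, ← zpow_add₀ ha, ← zpow_add₀ ha,
    ← zpow_add₀ ha]
  congr 3
  · push_cast; ring
  · unfold hw; push_cast; ring

theorem F2_pow (h : Generic a) (N x y j : ℕ) :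
    ((F2 a N) ^ j) (e2 x y) = ∑ i ∈ range (j + 1), fc a N x j i • e2 (K := K) (x + i) (y + j - i) := by
  induction j with
  | zero => simp [fc]
  | succ j ih =>
    rw [pow_succ', Module.End.mul_apply, ih, map_sum]
    simp only [map_smul, F2, lin_e2]
    have h1 : ∑ i ∈ range (j + 1), fc a N x j i • (e2 (K := K) (x + i + 1) (y + j - i) +
        a ^ (-(2 * hw N (x + i))) • e2 (K := K) (x + i) (y + j - i + 1)) =
        ∑ i ∈ range (j + 1), fc a N x j i • e2 (K := K) (x + (i + 1)) (y + (j + 1) - (i + 1)) +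
        ∑ i ∈ range (j + 1 + 1), (a ^ (-(2 * hw N (x + i))) * fc a N x j i) •
          e2 (K := K) (x + i) (y + (j + 1) - i) := by
      rw [Finset.sum_range_succ _ (j + 1)]
      have : fc a N x j (j + 1) = 0 := by
        unfold fc; rw [gb_eq_zero a (Nat.lt_succ_self j), mul_zero]
      rw [this, mul_zero, zero_smul, add_zero, ← Finset.sum_add_distrib]
      apply Finset.sum_congr rfl
      intro i hi
      rw [Finset.mem_range] at hi
      rw [smul_add, smul_smul, show y + (j + 1) - (i + 1) = y + j - i by omega,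
        show y + j - i + 1 = y + (j + 1) - i by omega, mul_comm (fc a N x j i)]
      rfl
    rw [h1, Finset.sum_range_succ' _ (j + 1), Finset.sum_range_succ' _ (j + 1), ← add_assoc,
      ← Finset.sum_add_distrib]
    congr 1
    · apply Finset.sum_congr rfl
      intro i _
      rw [← add_smul, fc_succ h]
    · congr 1
      unfold fc hw
      rw [← mul_assoc, ← zpow_add₀ h.ne_zero]
      simp only [gb_zero_right]
      congr 2
      push_cast
      ring

/-- Cauchy's identity -/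
theorem cauchy (h : Generic a) (A : ℤ) (M : ℕ) :
    ∑ s ∈ range (M + 1), a ^ (-(2 * (s : ℤ) * ((M : ℤ) - s)) + 2 * s * A - s * (s - 1)) * gb a M s * pr a A s =
      a ^ (4 * A * M) := by
  have ha := h.ne_zero
  have h0 : ∀ M s : ℕ, a ^ (-(2 * (s : ℤ) * ((M : ℤ) - s)) + 2 * s * A - s * (s - 1)) * gb a M s * pr a A s =
      (a ^ (-(2 * (s : ℤ) * ((M : ℤ) - s))) * gb a M s) * (a ^ (2 * s * A - s * (s - 1)) * pr a A s) := by
    intro M s
    rw [add_sub_assoc, zpow_add₀ ha]
    ring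
  simp only [h0]
  induction M with
  | zero => simp
  | succ M ih =>
    have h1 : ∀ s : ℕ, a ^ (-(2 * ((s + 1 : ℕ) : ℤ) * (((M + 1 : ℕ) : ℤ) - ((s + 1 : ℕ) : ℤ)))) *
        gb a (M + 1) (s + 1) = a ^ (-(2 * (s : ℤ) * ((M : ℤ) - s))) * gb a M s +
        a ^ (-(4 * ((s : ℤ) + 1))) * (a ^ (-(2 * ((s + 1 : ℕ) : ℤ) * ((M : ℤ) - ((s + 1 : ℕ) : ℤ)))) *
        gb a M (s + 1)) := by
      intro s
      have hp := gb_pascal h.inv M s
      simp only [gb_inv, inv_zpow, ← zpow_neg, neg_neg] at hp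
      rw [hp, mul_add, ← mul_assoc, ← mul_assoc, ← mul_assoc, ← zpow_add₀ ha, ← zpow_add₀ ha,
        ← zpow_add₀ ha]
      congr 3
      · push_cast; ring
      · push_cast; ring
    have h2 : ∀ s : ℕ, a ^ (2 * ((s + 1 : ℕ) : ℤ) * A - ((s + 1 : ℕ) : ℤ) * (((s + 1 : ℕ) : ℤ) - 1)) *
        pr a A (s + 1) = (a ^ (4 * A) - a ^ (-(4 * (s : ℤ)))) * (a ^ (2 * s * A - s * (s - 1)) * pr a A s) := by
      intro s
      have e1 : a ^ (2 * ((s + 1 : ℕ) : ℤ) * A - ((s + 1 : ℕ) : ℤ) * (((s + 1 : ℕ) : ℤ) - 1)) =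
          a ^ (2 * s * A - s * (s - 1)) * a ^ (2 * A - 2 * s) := by
        rw [← zpow_add₀ ha]; congr 1; push_cast; ring
      rw [pr_succ, e1]
      have e2 : a ^ (2 * A - 2 * s) * br a (A + s) = a ^ (4 * A) - a ^ (-(4 * (s : ℤ))) := by
        unfold br
        simp only [mul_sub, ← zpow_add₀ ha]
        ring_nf
      rw [← e2]
      ring
    have h3 : ∀ f g : ℕ → K, f (M + 1) = 0 → (∑ s ∈ range (M + 1), f s * ((a ^ (4 * A) - a ^ (-(4 * (s : ℤ)))) * g s)) +
        ∑ s ∈ range (M + 1 + 1), (a ^ (-(4 * (s : ℤ))) * f s) * g s = a ^ (4 * A) * ∑ s ∈ range (M + 1), f s * g s := by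
      intro f g hf
      rw [Finset.sum_range_succ _ (M + 1), hf, mul_zero, zero_mul, add_zero, ← Finset.sum_add_distrib,
        Finset.mul_sum]
      apply Finset.sum_congr rfl
      intro s _
      ring
    have h4 := h3 (fun s => a ^ (-(2 * (s : ℤ) * ((M : ℤ) - s))) * gb a M s)
      (fun s => a ^ (2 * s * A - s * (s - 1)) * pr a A s)
      (by rw [gb_eq_zero a (Nat.lt_succ_self M), mul_zero])
    rw [ih] at h4
    have e5 : a ^ (4 * A) * a ^ (4 * A * (M : ℤ)) = a ^ (4 * A * ((M + 1 : ℕ) : ℤ)) := by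
      rw [← zpow_add₀ ha]; congr 1; push_cast; ring
    rw [e5] at h4
    rw [← h4, Finset.sum_range_succ' _ (M + 1), Finset.sum_range_succ' _ (M + 1), ← add_assoc,
      ← Finset.sum_add_distrib]
    congr 1
    · apply Finset.sum_congr rfl
      intro s _
      rw [h1, h2]
      push_cast
      ring
    · simp

end Pool.Agent.CCurve
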