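import Pool.Agent.CCurve.Expand

/-!
# Expansions of powers of the crossings on `e_m ⊗ e_0`, part 2
-/

namespace Pool.Agent.CCurve

open Finset

variable {K : Type*} [Field K] {a : K}

theorem pr_one_ne_zero (h : Generic a) (n : ℕ) : pr a 1 n ≠ 0 := by
  unfold pr
  rw [Finset.prod_ne_zero_iff]
  intro t _
  exact h.br_ne_zero (by omega)

theorem gb_mul_pr (h : Generic a) (m j : ℕ) :
    gb a m j * pr a 1 j = ∏ t ∈ range j, br a ((m : ℤ) - t) := by
  have h1 := pr_one_ne_zero h j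
  unfold gb
  rw [Finset.prod_div_distrib]
  have : ∏ t ∈ range j, br a ((t : ℤ) + 1) = pr a 1 j := by
    unfold pr
    apply Finset.prod_congr rfl
    intro t _
    rw [add_comm]
  rw [this]
  field_simp

theorem gb_mul_pr_pr (h : Generic a) {m j : ℕ} (hj : j ≤ m) :
    gb a m j * (pr a 1 j * pr a 1 (m - j)) = pr a 1 m := by
  rw [← mul_assoc, gb_mul_pr h]
  have : ∏ t ∈ range j, br a ((m : ℤ) - t) = pr a (1 + ((m - j : ℕ) : ℤ)) j := by
    unfold pr
    rw [← Finset.prod_range_reflect]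
    apply Finset.prod_congr rfl
    intro t ht
    rw [Finset.mem_range] at ht
    congr 1
    omega
  rw [this, mul_comm, ← pr_add]
  congr 1
  omega

theorem gb_symm (h : Generic a) {m j : ℕ} (hj : j ≤ m) : gb a m (m - j) = gb a m j := by
  have h1 := gb_mul_pr_pr h hj
  have h2 := gb_mul_pr_pr h (Nat.sub_le m j)
  rw [show m - (m - j) = j by omega] at h2
  have h3 := pr_one_ne_zero h j
  have h4 := pr_one_ne_zero h (m - j)
  have h5 : gb a m (m - j) * (pr a 1 (m - j) * pr a 1 j) = gb a m j * (pr a 1 (m - j) * pr a 1 j) := by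
    rw [h2, ← h1]; ring
  exact mul_right_cancel₀ (mul_ne_zero h4 h3) h5

theorem sum_triangle {M : Type*} [AddCommMonoid M] (m : ℕ) (f : ℕ → ℕ → M) :
    ∑ j ∈ range (m + 1), ∑ i ∈ range (j + 1), f j i =
      ∑ i ∈ range (m + 1), ∑ s ∈ range (m - i + 1), f (i + s) i := by
  rw [Finset.sum_comm' (s' := fun i => Finset.Ico i (m + 1)) (t' := range (m + 1))]
  · apply Finset.sum_congr rfl
    intro i hi
    rw [Finset.mem_range] at hi
    rw [Finset.sum_Ico_eq_sum_range]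
    congr 2
    omega
  · intro x y
    simp only [Finset.mem_range, Finset.mem_Ico]
    omega

/-- coefficients in the expansion of `Rp (e_m ⊗ e_0)` -/
noncomputable def gam (a : K) (N m j : ℕ) : K :=
  a ^ (((N : ℤ) - 1) ^ 2 - 2 * m * ((N : ℤ) - 1) - 4 * ((N : ℤ) - m) * m + j * (j - 1) +
    4 * ((N : ℤ) - m) * j) * gb a m j * pr a ((N : ℤ) - m) j

theorem Rp_right (h : Generic a) (N m : ℕ) :
    Rp a N (e2 m 0) = ∑ j ∈ range (m + 1), gam a N m j • ((F2 a N) ^ j) (e2 0 (m - j)) := by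
  have ha := h.ne_zero
  simp only [F2_pow h, Finset.smul_sum, smul_smul]
  rw [sum_triangle]
  simp only [Rp, lin_e2]
  apply Finset.sum_congr rfl
  intro i hi
  rw [Finset.mem_range] at hi
  have h1 : ∀ s ∈ range (m - i + 1), (gam a N m (i + s) * fc a N 0 (i + s) i) •
      e2 (K := K) (0 + i) (m - (i + s) + (i + s) - i) =
      (gam a N m (i + s) * fc a N 0 (i + s) i) • e2 (K := K) (0 + i) (m - i) := by
    intro s hs
    rw [Finset.mem_range] at hs
    congr 2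
    omega
  rw [Finset.sum_congr rfl h1, ← Finset.sum_smul]
  congr 1
  have h2 : ∀ s ∈ range (m - i + 1), gam a N m (i + s) * fc a N 0 (i + s) i =
      (a ^ ((hw N m + 2 * i) * (hw N 0 - 2 * i) + (i : ℤ) * (i - 1) - 4 * ((N : ℤ) - m + i) * ((m - i : ℕ) : ℤ)) *
        gb a m i * pr a ((N : ℤ) - m) i) *
      (a ^ (-(2 * (s : ℤ) * (((m - i : ℕ) : ℤ) - s)) + 2 * s * ((N : ℤ) - m + i) - s * (s - 1)) *
        gb a (m - i) s * pr a ((N : ℤ) - m + i) s) := by
    intro s hs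
    rw [Finset.mem_range] at hs
    unfold gam fc
    have e1 := gb_mul_gb h m i s (by omega)
    have e2 := pr_add a ((N : ℤ) - m) i s
    calc _ = (a ^ (((N : ℤ) - 1) ^ 2 - 2 * m * ((N : ℤ) - 1) - 4 * ((N : ℤ) - m) * m +
          ((i + s : ℕ) : ℤ) * (((i + s : ℕ) : ℤ) - 1) + 4 * ((N : ℤ) - m) * ((i + s : ℕ) : ℤ)) *
          a ^ (2 * (i : ℤ) * (((i + s : ℕ) : ℤ) - i) - 2 * hw N 0 * (((i + s : ℕ) : ℤ) - i))) *
          (gb a m (i + s) * gb a (i + s) i) * pr a ((N : ℤ) - m) (i + s) := by ring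
      _ = (a ^ ((hw N m + 2 * i) * (hw N 0 - 2 * i) + (i : ℤ) * (i - 1) - 4 * ((N : ℤ) - m + i) *
          ((m - i : ℕ) : ℤ)) * a ^ (-(2 * (s : ℤ) * (((m - i : ℕ) : ℤ) - s)) + 2 * s * ((N : ℤ) - m + i) -
          s * (s - 1))) * (gb a m i * gb a (m - i) s) * (pr a ((N : ℤ) - m) i * pr a ((N : ℤ) - m + i) s) := by
          rw [e1, e2, ← zpow_add₀ ha, ← zpow_add₀ ha]
          congr 3
          rw [Nat.cast_sub (by omega : i ≤ m)]
          unfold hw
          push_cast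
          ring
      _ = _ := by ring
  rw [Finset.sum_congr rfl h2, ← Finset.mul_sum, cauchy h]
  unfold rp
  have e3 : a ^ ((hw N m + 2 * i) * (hw N 0 - 2 * i) + (i : ℤ) * (i - 1) - 4 * ((N : ℤ) - m + i) *
      ((m - i : ℕ) : ℤ)) * a ^ (4 * ((N : ℤ) - m + i) * ((m - i : ℕ) : ℤ)) =
      a ^ ((hw N m + 2 * i) * (hw N 0 - 2 * i) + (i : ℤ) * (i - 1)) := by
    rw [← zpow_add₀ ha]; congr 1; ring
  rw [← e3]
  ring

/-- coefficients in the expansion of `Rp² (e_m ⊗ e_0)` -/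
noncomputable def bet (a : K) (N m j : ℕ) : K :=
  a ^ (2 * ((N : ℤ) - 1) ^ 2 - 8 * m * N + 4 * m + 4 * m ^ 2 + j * (j - 1) +
    (6 * (N : ℤ) - 4 * m - 2) * j) * gb a m j * pr a ((N : ℤ) - m) j

theorem Rp_left (a : K) (N m : ℕ) : Rp a N (e2 0 m) = a ^ (hw N 0 * hw N m) • e2 m 0 := by
  simp [Rp, rp]

theorem Rp_pow_F2 (h : Generic a) (N j : ℕ) (v : V2 K) :
    Rp a N (((F2 a N) ^ j) v) = ((F2 a N) ^ j) (Rp a N v) := by
  induction j generalizing v with
  | zero => rfl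
  | succ j ih => rw [pow_succ, Module.End.mul_apply, Module.End.mul_apply, ih, Rp_F2 h]

theorem Rp2 (h : Generic a) (N m : ℕ) :
    Rp a N (Rp a N (e2 m 0)) = ∑ j ∈ range (m + 1), bet a N m j • ((F2 a N) ^ j) (e2 (m - j) 0) := by
  have ha := h.ne_zero
  rw [Rp_right h, map_sum]
  apply Finset.sum_congr rfl
  intro j hj
  rw [Finset.mem_range] at hj
  rw [map_smul, Rp_pow_F2 h, Rp_left, map_smul, smul_smul]
  congr 1
  unfold gam bet
  rw [show ∀ u v w z : K, u * v * w * z = (u * z) * v * w by intros; ring, ← zpow_add₀ ha]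
  congr 3
  unfold hw
  rw [Nat.cast_sub (by omega : j ≤ m)]
  push_cast
  ring

theorem Rp2_pow_F2 (h : Generic a) (N j : ℕ) (v : V2 K) :
    Rp a N (Rp a N (((F2 a N) ^ j) v)) = ((F2 a N) ^ j) (Rp a N (Rp a N v)) := by
  rw [Rp_pow_F2 h, Rp_pow_F2 h]

theorem Rp4 (h : Generic a) (N m : ℕ) :
    Rp a N (Rp a N (Rp a N (Rp a N (e2 m 0)))) =
      ∑ k ∈ range (m + 1), (∑ j ∈ range (k + 1), bet a N m j * bet a N (m - j) (k - j)) •
        ((F2 a N) ^ k) (e2 (m - k) 0) := by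
  rw [Rp2 h, map_sum, map_sum]
  simp only [map_smul, Rp2_pow_F2 h, Rp2 h, map_sum, Finset.smul_sum, smul_smul, Finset.sum_smul]
  rw [sum_triangle]
  apply Finset.sum_congr rfl
  intro j hj
  rw [Finset.mem_range] at hj
  apply Finset.sum_congr rfl
  intro s hs
  rw [Finset.mem_range] at hs
  rw [← Module.End.mul_apply, ← pow_add, show m - j - s = m - (j + s) by omega,
    show j + s - j = s by omega]

/-- the polynomials `s_k(q) = ∑_j q^{j(j+1)} (k choose j)_q` -/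
noncomputable def sk (a : K) (k : ℕ) : K :=
  ∑ j ∈ range (k + 1), a ^ (4 * (j : ℤ) * (j + 1) + 2 * j * ((k : ℤ) - j)) * gb a k j

/-- `Ck` -/
noncomputable def Cp (a : K) (N k : ℕ) : K :=
  a ^ (-4 * ((N : ℤ) ^ 2 - 1) + k * (k + 3)) * sk a k / pr a 1 k

/-- coefficient of `F^k (e_{m-k} ⊗ e_0)` in `R_k(C) (e_m ⊗ e_0)`, where `m = N - 1` -/
noncomputable def wc (a : K) (N k : ℕ) : K :=
  a ^ (2 * ((N : ℤ) - 1) * k) * (∏ t ∈ range k, br a ((N : ℤ) - 1 - t)) * pr a 1 k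

theorem bet_sum (h : Generic a) (m k : ℕ) (hk : k ≤ m) :
    ∑ j ∈ range (k + 1), bet a (m + 1) m j * bet a (m + 1) (m - j) (k - j) =
      Cp a (m + 1) k * wc a (m + 1) k := by
  have ha := h.ne_zero
  have h1 : ∀ j ∈ range (k + 1), bet a (m + 1) m j * bet a (m + 1) (m - j) (k - j) =
      (a ^ (-4 * (((m + 1 : ℕ) : ℤ) ^ 2 - 1) + k * (k + 3)) * a ^ (2 * (((m + 1 : ℕ) : ℤ) - 1) * k) *
        (gb a m k * pr a 1 k)) * (a ^ (4 * (j : ℤ) * (j + 1) + 2 * j * ((k : ℤ) - j)) * gb a k j) := by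
    intro j hj
    rw [Finset.mem_range] at hj
    have e1 := gb_mul_gb h m j (k - j) (by omega)
    rw [show j + (k - j) = k by omega] at e1
    have e2 := pr_add a 1 j (k - j)
    rw [show j + (k - j) = k by omega] at e2
    unfold bet
    rw [show (((m + 1 : ℕ) : ℤ) - (m : ℤ)) = 1 by push_cast; ring,
      show (((m + 1 : ℕ) : ℤ) - ((m - j : ℕ) : ℤ)) = 1 + j by omega]
    rw [show ∀ u v w u' v' w' : K, u * v * w * (u' * v' * w') = (u * u') * (v * v') * (w * w') by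
      intros; ring, ← e1, ← e2, ← zpow_add₀ ha]
    rw [show ∀ u v w z x y : K, u * v * (w * z) * (x * y) = (u * v * x) * (w * y) * z by
      intros; ring, ← zpow_add₀ ha, ← zpow_add₀ ha]
    congr 3
    rw [Nat.cast_sub (by omega : j ≤ m), Nat.cast_sub (by omega : j ≤ k)]
    push_cast
    ring
  rw [Finset.sum_congr rfl h1, ← Finset.mul_sum]
  unfold Cp wc
  rw [show (((m + 1 : ℕ) : ℤ) - 1) = (m : ℤ) by push_cast; ring, ← gb_mul_pr h m k]
  have := pr_one_ne_zero h k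
  unfold sk
  field_simp

/-! ### Negative crossings -/

theorem Rn_left (a : K) (N m : ℕ) : Rn a N (e2 m 0) = a ^ (-(hw N m * hw N 0)) • e2 0 m := by
  simp [Rn, rn]

theorem Rn_pow_F2 (h : Generic a) (N j : ℕ) (v : V2 K) :
    Rn a N (((F2 a N) ^ j) v) = ((F2 a N) ^ j) (Rn a N v) := by
  induction j generalizing v with
  | zero => rfl
  | succ j ih => rw [pow_succ, Module.End.mul_apply, Module.End.mul_apply, ih, Rn_F2 h]

/-- coefficients in the expansion of `Rn (e_0 ⊗ e_m)` -/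
noncomputable def gam' (a : K) (N m j : ℕ) : K :=
  (-1) ^ j * a ^ (-(hw N 0 * hw N m) + 4 * ((N : ℤ) - m) * m - j * (j - 1) +
    (2 * ((N : ℤ) - 1) - 4 * ((N : ℤ) - m)) * j) * gb a m j * pr a ((N : ℤ) - m) j

theorem Rn_right (h : Generic a) (N m : ℕ) :
    Rn a N (e2 0 m) = ∑ j ∈ range (m + 1), gam' a N m j • ((F2 a N) ^ j) (e2 (m - j) 0) := by
  have ha := h.ne_zero
  simp only [F2_pow h, Finset.smul_sum, smul_smul]
  have h0 : ∀ j ∈ range (m + 1), ∑ i ∈ range (j + 1), (gam' a N m j * fc a N (m - j) j i) •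
      e2 (K := K) (m - j + i) (0 + j - i) =
      ∑ n ∈ range (j + 1), (gam' a N m j * fc a N (m - j) j (j - n)) • e2 (K := K) (m - n) n := by
    intro j hj
    rw [Finset.mem_range] at hj
    rw [← Finset.sum_range_reflect]
    apply Finset.sum_congr rfl
    intro n hn
    rw [Finset.mem_range] at hn
    rw [show j + 1 - 1 - n = j - n by omega]
    congr 2
    · omega
    · omega
  rw [Finset.sum_congr rfl h0, sum_triangle]
  simp only [Rn, lin_e2]
  apply Finset.sum_congr rfl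
  intro n hn
  rw [Finset.mem_range] at hn
  rw [← Finset.sum_smul, zero_add]
  congr 1
  have h2 : ∀ s ∈ range (m - n + 1), gam' a N m (n + s) * fc a N (m - (n + s)) (n + s) (n + s - n) =
      ((-1) ^ n * a ^ (-(hw N 0 * hw N m) - (n : ℤ) * (n - 1) + 4 * ((N : ℤ) - m + n) * ((m - n : ℕ) : ℤ)) *
        gb a m n * pr a ((N : ℤ) - m) n) *
      (a⁻¹ ^ (-(2 * (s : ℤ) * (((m - n : ℕ) : ℤ) - s)) + 2 * s * ((N : ℤ) - m + n) - s * (s - 1)) *
        gb a⁻¹ (m - n) s * pr a⁻¹ ((N : ℤ) - m + n) s) := by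
    intro s hs
    rw [Finset.mem_range] at hs
    unfold gam' fc
    have e1 := gb_mul_gb h m n s (by omega)
    have e2 := pr_add a ((N : ℤ) - m) n s
    have e3 : gb a (n + s) (n + s - n) = gb a (n + s) n := gb_symm h (by omega)
    rw [gb_inv, pr_inv, inv_zpow, ← zpow_neg, e3, e2, show n + s - n = s by omega, pow_add]
    calc _ = (a ^ (-(hw N 0 * hw N m) + 4 * ((N : ℤ) - m) * m - ((n + s : ℕ) : ℤ) * (((n + s : ℕ) : ℤ) - 1) +
          (2 * ((N : ℤ) - 1) - 4 * ((N : ℤ) - m)) * ((n + s : ℕ) : ℤ)) *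
          a ^ (2 * (s : ℤ) * (((n + s : ℕ) : ℤ) - s) - 2 * hw N (m - (n + s)) * (((n + s : ℕ) : ℤ) - s))) *
          (gb a m (n + s) * gb a (n + s) n) * (-1) ^ n * (-1) ^ s * pr a ((N : ℤ) - m) n *
            pr a ((N : ℤ) - m + n) s := by ring
      _ = (a ^ (-(hw N 0 * hw N m) - (n : ℤ) * (n - 1) + 4 * ((N : ℤ) - m + n) * ((m - n : ℕ) : ℤ)) *
          a ^ (-(-(2 * (s : ℤ) * (((m - n : ℕ) : ℤ) - s)) + 2 * s * ((N : ℤ) - m + n) - s * (s - 1)))) *
          (gb a m n * gb a (m - n) s) * (-1) ^ n * (-1) ^ s * pr a ((N : ℤ) - m) n *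
            pr a ((N : ℤ) - m + n) s := by
          rw [e1, ← zpow_add₀ ha, ← zpow_add₀ ha]
          congr 6
          unfold hw
          rw [Nat.cast_sub (by omega : n ≤ m), Nat.cast_sub (by omega : n + s ≤ m)]
          push_cast
          ring
      _ = _ := by ring
  rw [Finset.sum_congr rfl h2, ← Finset.mul_sum, cauchy h.inv, inv_zpow, ← zpow_neg]
  unfold rn
  have e3 : a ^ (-(hw N 0 * hw N m) - (n : ℤ) * (n - 1) + 4 * ((N : ℤ) - m + n) * ((m - n : ℕ) : ℤ)) *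
      a ^ (-(4 * ((N : ℤ) - m + n) * ((m - n : ℕ) : ℤ))) =
      a ^ (-(hw N 0 * hw N m) - (n : ℤ) * (n - 1)) := by
    rw [← zpow_add₀ ha]; congr 1; ring
  rw [← e3]
  ring

/-- coefficients in the expansion of `Rn² (e_m ⊗ e_0)` -/
noncomputable def bet' (a : K) (N m j : ℕ) : K :=
  (-1) ^ j * a ^ (-2 * (hw N 0 * hw N m) + 4 * ((N : ℤ) - m) * m - j * (j - 1) +
    (2 * ((N : ℤ) - 1) - 4 * ((N : ℤ) - m)) * j) * gb a m j * pr a ((N : ℤ) - m) j

theorem Rn2 (h : Generic a) (N m : ℕ) :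
    Rn a N (Rn a N (e2 m 0)) = ∑ j ∈ range (m + 1), bet' a N m j • ((F2 a N) ^ j) (e2 (m - j) 0) := by
  have ha := h.ne_zero
  rw [Rn_left, map_smul, Rn_right h, Finset.smul_sum]
  apply Finset.sum_congr rfl
  intro j hj
  rw [smul_smul]
  congr 1
  unfold gam' bet'
  rw [show ∀ z u v w x : K, z * (x * u * v * w) = x * (z * u) * v * w by intros; ring, ← zpow_add₀ ha]
  congr 4
  ring

theorem Rn2_pow_F2 (h : Generic a) (N j : ℕ) (v : V2 K) :
    Rn a N (Rn a N (((F2 a N) ^ j) v)) = ((F2 a N) ^ j) (Rn a N (Rn a N v)) := by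
  rw [Rn_pow_F2 h, Rn_pow_F2 h]

theorem Rn4 (h : Generic a) (N m : ℕ) :
    Rn a N (Rn a N (Rn a N (Rn a N (e2 m 0)))) =
      ∑ k ∈ range (m + 1), (∑ j ∈ range (k + 1), bet' a N m j * bet' a N (m - j) (k - j)) •
        ((F2 a N) ^ k) (e2 (m - k) 0) := by
  rw [Rn2 h, map_sum, map_sum]
  simp only [map_smul, Rn2_pow_F2 h, Rn2 h, map_sum, Finset.smul_sum, smul_smul, Finset.sum_smul]
  rw [sum_triangle]
  apply Finset.sum_congr rfl
  intro j hj
  rw [Finset.mem_range] at hj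
  apply Finset.sum_congr rfl
  intro s hs
  rw [Finset.mem_range] at hs
  rw [← Module.End.mul_apply, ← pow_add, show m - j - s = m - (j + s) by omega,
    show j + s - j = s by omega]

/-- `Ck` for the negative crossing -/
noncomputable def Cn (a : K) (N k : ℕ) : K :=
  (-1) ^ k * a ^ (4 * ((N : ℤ) ^ 2 - 1) - k * (k + 3)) * sk a⁻¹ k / pr a 1 k

theorem bet'_sum (h : Generic a) (m k : ℕ) (hk : k ≤ m) :
    ∑ j ∈ range (k + 1), bet' a (m + 1) m j * bet' a (m + 1) (m - j) (k - j) =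
      Cn a (m + 1) k * wc a (m + 1) k := by
  have ha := h.ne_zero
  have h1 : ∀ j ∈ range (k + 1), bet' a (m + 1) m j * bet' a (m + 1) (m - j) (k - j) =
      ((-1) ^ k * a ^ (4 * (((m + 1 : ℕ) : ℤ) ^ 2 - 1) - k * (k + 3)) * a ^ (2 * (((m + 1 : ℕ) : ℤ) - 1) * k) *
        (gb a m k * pr a 1 k)) * (a⁻¹ ^ (4 * (j : ℤ) * (j + 1) + 2 * j * ((k : ℤ) - j)) * gb a⁻¹ k j) := by
    intro j hj
    rw [Finset.mem_range] at hj
    have e1 := gb_mul_gb h m j (k - j) (by omega)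
    rw [show j + (k - j) = k by omega] at e1
    have e2 := pr_add a 1 j (k - j)
    rw [show j + (k - j) = k by omega] at e2
    have e3 : ((-1) ^ j * (-1) ^ (k - j) : K) = (-1) ^ k := by
      rw [← pow_add]; congr 1; omega
    unfold bet'
    rw [gb_inv, inv_zpow, ← zpow_neg, show (((m + 1 : ℕ) : ℤ) - (m : ℤ)) = 1 by push_cast; ring,
      show (((m + 1 : ℕ) : ℤ) - ((m - j : ℕ) : ℤ)) = 1 + j by omega]
    rw [show ∀ x u v w x' u' v' w' : K, x * u * v * w * (x' * u' * v' * w') =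
        (x * x') * (u * u') * (v * v') * (w * w') by
      intros; ring, ← e1, ← e2, ← zpow_add₀ ha, e3]
    rw [show ∀ p u v w z x y : K, p * u * v * (w * z) * (x * y) = p * (u * v * x) * (w * y) * z by
      intros; ring, ← zpow_add₀ ha, ← zpow_add₀ ha]
    congr 4
    unfold hw
    rw [Nat.cast_sub (by omega : j ≤ m), Nat.cast_sub (by omega : j ≤ k)]
    push_cast
    ring
  rw [Finset.sum_congr rfl h1, ← Finset.mul_sum]
  unfold Cn wc
  rw [show (((m + 1 : ℕ) : ℤ) - 1) = (m : ℤ) by push_cast; ring, ← gb_mul_pr h m k]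
  have := pr_one_ne_zero h k
  unfold sk
  field_simp

end Pool.Agent.CCurve
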