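import Pool.Agent.CCurve.Biquad

/-!
# Powers of the product of the two roots
-/

namespace Pool.Agent.CCurve

open Polynomial

noncomputable def A1 : ℂ[X] := X ^ 2 - X + 2
noncomputable def A2 : ℂ[X] := 2 * X ^ 2 - X + 1
noncomputable def B1 : ℂ[X] := 1 - X
noncomputable def B2 : ℂ[X] := X ^ 2 - X

noncomputable def pa : Fin 4 → ℂ[X] := ![1, A1, A1 ^ 2 + X ^ 2 * D1, A1 ^ 3 + 3 * A1 * X ^ 2 * D1]
noncomputable def pb : Fin 4 → ℂ[X] := ![0, X, 2 * A1 * X, 3 * A1 ^ 2 * X + X ^ 3 * D1]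
noncomputable def pc : Fin 4 → ℂ[X] := ![1, A2, A2 ^ 2 + D2, A2 ^ 3 + 3 * A2 * D2]
noncomputable def pd : Fin 4 → ℂ[X] := ![0, 1, 2 * A2, 3 * A2 ^ 2 + D2]

noncomputable def NN : Matrix (Fin 4) (Fin 4) ℂ[X] :=
  Matrix.of fun j => ![pa j * pc j, pb j * pc j, pa j * pd j, pb j * pd j]

variable {W : Type*} [Field W] {φ : ℂ[X] →+* W} {u v : W}

/-- twice the first root -/
noncomputable def gp (φ : ℂ[X] →+* W) (u : W) : W := φ A1 + φ X * u

/-- twice the second root -/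
noncomputable def gr (φ : ℂ[X] →+* W) (v : W) : W := φ A2 + v

/-- the basis -/
noncomputable def bas (u v : W) : Fin 4 → W := ![1, u, v, u * v]

namespace Biquad

theorem pow_gp (h : Biquad φ u v) (j : Fin 4) : gp φ u ^ (j : ℕ) = φ (pa j) + φ (pb j) * u := by
  have hu := h.hu
  have h3 : u ^ 3 = φ D1 * u := by rw [← hu]; ring
  fin_cases j
  · simp [pa, pb]
  · simp [pa, pb, gp]
  · change gp φ u ^ 2 = φ (A1 ^ 2 + X ^ 2 * D1) + φ (2 * A1 * X) * u
    simp only [gp, map_add, map_mul, map_pow, map_ofNat]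
    linear_combination (φ X) ^ 2 * hu
  · change gp φ u ^ 3 = φ (A1 ^ 3 + 3 * A1 * X ^ 2 * D1) + φ (3 * A1 ^ 2 * X + X ^ 3 * D1) * u
    simp only [gp, map_add, map_mul, map_pow, map_ofNat]
    linear_combination (3 * φ A1 * φ X ^ 2) * hu + (φ X) ^ 3 * h3

theorem pow_gr (h : Biquad φ u v) (j : Fin 4) : gr φ v ^ (j : ℕ) = φ (pc j) + φ (pd j) * v := by
  have hv := h.hv
  have h3 : v ^ 3 = φ D2 * v := by rw [← hv]; ring
  fin_cases j
  · simp [pc, pd]
  · simp [pc, pd, gr]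
  · change gr φ v ^ 2 = φ (A2 ^ 2 + D2) + φ (2 * A2) * v
    simp only [gr, map_add, map_mul, map_pow, map_ofNat]
    linear_combination hv
  · change gr φ v ^ 3 = φ (A2 ^ 3 + 3 * A2 * D2) + φ (3 * A2 ^ 2 + D2) * v
    simp only [gr, map_add, map_mul, map_pow, map_ofNat]
    linear_combination (3 * φ A2) * hv + h3

theorem pow_prod (h : Biquad φ u v) (j : Fin 4) :
    (gp φ u * gr φ v) ^ (j : ℕ) = ∑ m, φ (NN j m) * bas u v m := by
  rw [mul_pow, h.pow_gp, h.pow_gr]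
  simp [Fin.sum_univ_succ, NN, bas]
  ring

theorem indep' (h : Biquad φ u v) (c : Fin 4 → ℂ[X]) (e : ∑ m, φ (c m) * bas u v m = 0) :
    c = 0 := by
  have e1 : φ (c 0) + φ (c 1) * u + φ (c 2) * v + φ (c 3) * (u * v) = 0 := by
    rw [← e]
    simp [Fin.sum_univ_succ, bas]
    ring
  obtain ⟨h0, h1, h2, h3⟩ := h.indep e1
  funext i
  fin_cases i
  · exact h0
  · exact h1
  · exact h2
  · exact h3

end Biquad

theorem det_NN : NN.det ≠ 0 := by
  intro h0
  have h1 := congrArg (Polynomial.evalRingHom (2 : ℂ)) h0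
  rw [RingHom.map_det, map_zero] at h1
  have h2 : (Polynomial.evalRingHom (2 : ℂ)).mapMatrix NN =
      !![1, 0, 0, 0; 28, 14, 4, 2; 2376, 1056, 504, 224; 212800, 95200, 49856, 22304] := by
    ext i j
    fin_cases i <;> fin_cases j <;>
      simp [NN, pa, pb, pc, pd, A1, A2, D1, D2] <;> norm_num
  rw [h2] at h1
  simp [Matrix.det_succ_row_zero, Fin.sum_univ_succ] at h1
  norm_num [Fin.succAbove] at h1

namespace Biquad

theorem indep_pow (h : Biquad φ u v) (c : Fin 4 → ℂ[X])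
    (e : ∑ j : Fin 4, φ (c j) * (gp φ u * gr φ v) ^ (j : ℕ) = 0) : c = 0 := by
  apply Matrix.eq_zero_of_vecMul_eq_zero det_NN
  apply h.indep'
  rw [← e]
  simp only [h.pow_prod, Matrix.vecMul, dotProduct, map_sum, map_mul, Finset.sum_mul,
    Finset.mul_sum]
  rw [Finset.sum_comm]
  simp only [mul_assoc]

theorem adj (h : Biquad φ u v) (i : Fin 4) :
    ∑ j : Fin 4, φ (NN.adjugate i j) * (gp φ u * gr φ v) ^ (j : ℕ) = φ NN.det * bas u v i := by
  have h1 : ∀ m, ∑ j, NN.adjugate i j * NN j m = if i = m then NN.det else 0 := by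
    intro m
    have := congrFun (congrFun (Matrix.adjugate_mul NN) i) m
    rw [Matrix.mul_apply] at this
    rw [this, Matrix.smul_apply, Matrix.one_apply, smul_eq_mul]
    split_ifs <;> simp
  simp only [h.pow_prod, Finset.mul_sum]
  rw [Finset.sum_comm]
  have h2 : ∀ m, ∑ j, φ (NN.adjugate i j) * (φ (NN j m) * bas u v m) =
      φ (if i = m then NN.det else 0) * bas u v m := by
    intro m
    rw [← h1 m, map_sum, Finset.sum_mul]
    apply Finset.sum_congr rfl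
    intro j _
    rw [map_mul, mul_assoc]
  simp only [h2]
  rw [Finset.sum_eq_single i]
  · simp
  · intro m _ hm
    simp [Ne.symm hm]
  · simp

/-- `u` and `v` are in the field generated by `Q` and `ε` -/
theorem exists_uv (h : Biquad φ u v) {ε : W} (hε : φ (4 * X ^ 2) * ε = gp φ u * gr φ v) :
    ∃ d : ℂ[X], ∃ G1 G2 : ℂ[X][X], d ≠ 0 ∧ G1.eval₂ φ ε = φ d * u ∧ G2.eval₂ φ ε = φ d * v := by
  have key : ∀ i : Fin 4, (∑ j : Fin 4, C (NN.adjugate i j * (4 * X ^ 2) ^ (j : ℕ)) * X ^ (j : ℕ) :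
      ℂ[X][X]).eval₂ φ ε = φ NN.det * bas u v i := by
    intro i
    rw [← h.adj i, Polynomial.eval₂_finsetSum]
    apply Finset.sum_congr rfl
    intro j _
    rw [Polynomial.eval₂_mul, Polynomial.eval₂_C, Polynomial.eval₂_X_pow, ← hε,
      mul_pow (φ (4 * X ^ 2)), map_mul φ (NN.adjugate i j), map_pow φ (4 * X ^ 2)]
    ring
  exact ⟨NN.det, _, _, det_NN, key 1, key 2⟩

end Biquad

end Pool.Agent.CCurve
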