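import Pool.Agent.CCurve.Genus
import Pool.Agent.CCurve.Powers

/-!
# The function field of a component of the curve
-/

namespace Pool.Agent.CCurve

open Polynomial

/-- `ℂ[Q]` in the big field -/
noncomputable def phiQ : ℂ[X] →+* WW := algebraMap ℂ[X] WW

theorem phiQ_eq : phiQ = (algebraMap (RatFunc ℂ) WW).comp (algebraMap ℂ[X] (RatFunc ℂ)) :=
  IsScalarTower.algebraMap_eq ℂ[X] (RatFunc ℂ) WW

theorem phiQ_injective : Function.Injective phiQ := by
  rw [phiQ_eq]
  exact (algebraMap (RatFunc ℂ) WW).injective.comp (RatFunc.algebraMap_injective ℂ)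

theorem exists_biquad : ∃ u v : WW, Biquad phiQ u v := by
  obtain ⟨u, hu⟩ := IsAlgClosed.exists_pow_nat_eq (phiQ D1) (n := 2) (by norm_num)
  obtain ⟨v, hv⟩ := IsAlgClosed.exists_pow_nat_eq (phiQ D2) (n := 2) (by norm_num)
  exact ⟨u, v, phiQ_injective, hu, hv⟩

/-- Gauss lemma: an irreducible polynomial generates the ideal of its zero -/
theorem dvd_of_root {F G : ℂ[X][X]} (hF : Irreducible F) {ε : WW} (h1 : F.eval₂ phiQ ε = 0)
    (h2 : G.eval₂ phiQ ε = 0) : F ∣ G := by
  have hdeg : F.natDegree ≠ 0 := by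
    intro h0
    obtain ⟨c, hc⟩ := Polynomial.natDegree_eq_zero.mp h0
    rw [← hc, eval₂_C] at h1
    apply hF.ne_zero
    rw [← hc, phiQ_injective (h1.trans (map_zero phiQ).symm), C_0]
  have hprim := hF.isPrimitive hdeg
  have hirr := (hprim.irreducible_iff_irreducible_map_fraction_map (K := RatFunc ℂ)).mp hF
  apply hprim.dvd_of_fraction_map_dvd_fraction_map (K := RatFunc ℂ)
  have ha : ∀ H : ℂ[X][X], H.eval₂ phiQ ε = 0 →
      aeval ε (H.map (algebraMap ℂ[X] (RatFunc ℂ))) = 0 := by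
    intro H hH
    rw [aeval_def, eval₂_map, ← phiQ_eq]
    exact hH
  have hint : IsIntegral (RatFunc ℂ) ε := Algebra.IsIntegral.isIntegral ε
  have h3 := minpoly.dvd (RatFunc ℂ) ε (ha F h1)
  have h4 := (minpoly.irreducible hint).dvd_symm hirr h3
  exact h4.trans (minpoly.dvd (RatFunc ℂ) ε (ha G h2))

theorem lift_injective {F : ℂ[X][X]} (hF : Irreducible F) {ε : WW} (h1 : F.eval₂ phiQ ε = 0) :
    Function.Injective (AdjoinRoot.lift phiQ ε h1) := by
  rw [injective_iff_map_eq_zero]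
  intro x hx
  obtain ⟨G, rfl⟩ := AdjoinRoot.mk_surjective x
  rw [AdjoinRoot.lift_mk] at hx
  rw [AdjoinRoot.mk_eq_zero]
  exact dvd_of_root hF h1 hx

theorem genus_functionField {u v : WW} (h : Biquad phiQ u v) {ε : WW}
    (hε : phiQ (4 * X ^ 2) * ε = gp phiQ u * gr phiQ v) {F : ℂ[X][X]} (hF : Irreducible F)
    (h1 : F.eval₂ phiQ ε = 0) : geometricGenus (FunctionField F) ≠ 0 := by
  have hinj := lift_injective hF h1
  have hdom : IsDomain (AdjoinRoot F) := hinj.isDomain
  let ψ : FunctionField F →+* WW := IsFractionRing.lift hinj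
  have hψ : ∀ x : AdjoinRoot F, ψ (algebraMap (AdjoinRoot F) (FunctionField F) x) =
      AdjoinRoot.lift phiQ ε h1 x := fun x => IsFractionRing.lift_algebraMap hinj x
  let ι : ℂ[X] →+* FunctionField F :=
    (algebraMap (AdjoinRoot F) (FunctionField F)).comp (AdjoinRoot.of F)
  have hι : ψ.comp ι = phiQ := by
    apply RingHom.ext
    intro c
    simp only [RingHom.comp_apply, ι]
    rw [hψ, AdjoinRoot.lift_of]
  have hι' : ∀ c, ψ (ι c) = phiQ c := fun c => RingHom.congr_fun hι c
  have hψinj : Function.Injective ψ := ψ.injective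
  let εL : FunctionField F := algebraMap (AdjoinRoot F) (FunctionField F) (AdjoinRoot.root F)
  have hεL : ψ εL = ε := by
    rw [hψ, AdjoinRoot.lift_root]
  obtain ⟨d, G1, G2, hd, hG1, hG2⟩ := h.exists_uv hε
  have hphid : phiQ d ≠ 0 := by
    intro h0
    exact hd (phiQ_injective (h0.trans (map_zero phiQ).symm))
  have hG : ∀ G : ℂ[X][X], ψ (G.eval₂ ι εL) = G.eval₂ phiQ ε := by
    intro G
    rw [Polynomial.hom_eval₂, hι, hεL]
  let uL : FunctionField F := G1.eval₂ ι εL / ι d
  let vL : FunctionField F := G2.eval₂ ι εL / ι d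
  have huL : ψ uL = u := by
    rw [map_div₀, hG, hG1, hι']
    field_simp
  have hvL : ψ vL = v := by
    rw [map_div₀, hG, hG2, hι']
    field_simp
  have e1 : uL ^ 2 = (ι X) ^ 2 - 2 * (ι X) + 5 := by
    apply hψinj
    simp only [map_pow, map_sub, map_add, map_mul, map_ofNat, huL, hι', h.hu, D1]
  have e2 : vL ^ 2 = 5 * (ι X) ^ 2 - 2 * (ι X) + 1 := by
    apply hψinj
    simp only [map_pow, map_sub, map_add, map_mul, map_ofNat, map_one, hvL, hι', h.hv, D2]
  have hu0 : u ≠ 0 := by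
    intro h0
    have h2 := h.hu
    rw [h0, zero_pow two_ne_zero] at h2
    have h3 : D1 = 0 := phiQ_injective (h2.symm.trans (map_zero phiQ).symm)
    exact D1_nonsq (x := 1) (y := 0) one_ne_zero (by rw [h3]; ring)
  have hv0 : v ≠ 0 := by
    intro h0
    have h2 := h.hv
    rw [h0, zero_pow two_ne_zero] at h2
    have h3 : D2 = 0 := phiQ_injective (h2.symm.trans (map_zero phiQ).symm)
    exact D2_nonsq (x := 1) (y := 0) one_ne_zero (by rw [h3]; ring)
  have huL0 : uL ≠ 0 := by
    intro h0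
    rw [h0, map_zero] at huL
    exact hu0 huL.symm
  have hvL0 : vL ≠ 0 := by
    intro h0
    rw [h0, map_zero] at hvL
    exact hv0 hvL.symm
  have hcompat : ∀ c : ℂ, ψ (algebraMap ℂ (FunctionField F) c) = algebraMap ℂ WW c := by
    intro c
    rw [IsScalarTower.algebraMap_apply ℂ (AdjoinRoot F) (FunctionField F), hψ,
      AdjoinRoot.algebraMap_eq', RingHom.comp_apply, AdjoinRoot.lift_of]
    rw [phiQ, ← IsScalarTower.algebraMap_apply ℂ ℂ[X] WW]
  have hD : KaehlerDifferential.D ℂ (FunctionField F) (ι X) ≠ 0 := by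
    intro h0
    let _ : Algebra (FunctionField F) WW := ψ.toAlgebra
    have _ : IsScalarTower ℂ (FunctionField F) WW :=
      IsScalarTower.of_algebraMap_eq (fun c => (hcompat c).symm)
    have h2 := KaehlerDifferential.map_D ℂ ℂ (FunctionField F) WW (ι X)
    rw [h0, map_zero] at h2
    apply D_ne_zero
    rw [h2]
    congr 1
    exact (hι' X).symm
  exact genus_ne_zero e1 e2 huL0 hvL0 hD

end Pool.Agent.CCurve
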