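import Pool.Agent.CCurve.Defs

/-!
# A regular differential on the biquadratic curve
-/

namespace Pool.Agent.CCurve

open Polynomial TensorProduct

section Place

variable {L : Type*} [Field L] [Algebra ℂ L] {O : Subalgebra ℂ L}

theorem IsPlace.inv_mem (hO : IsPlace O) {x : L} (h : x ∉ O) : x⁻¹ ∈ O := by
  have hx : x ≠ 0 := by
    rintro rfl
    exact h O.zero_mem
  exact (hO x x⁻¹ (mul_inv_cancel₀ hx)).resolve_left h

theorem IsPlace.sq_mem (hO : IsPlace O) {x : L} (h : x ^ 2 ∈ O) : x ∈ O := by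
  by_contra hx
  have hx0 : x ≠ 0 := by
    rintro rfl
    exact hx O.zero_mem
  have h1 := hO.inv_mem hx
  apply hx
  have h2 : x = x ^ 2 * x⁻¹ := by field_simp
  rw [h2]
  exact O.mul_mem h h1

theorem const_mem (O : Subalgebra ℂ L) (c : ℂ) : algebraMap ℂ L c ∈ O := O.algebraMap_mem c

theorem IsPlace.unit_or (hO : IsPlace O) {x y : L} {c : ℂ}
    (hc : c ≠ 0) (h : x + y = algebraMap ℂ L c) : (x ≠ 0 ∧ x⁻¹ ∈ O) ∨ (y ≠ 0 ∧ y⁻¹ ∈ O) := by
  have hc' : algebraMap ℂ L c ≠ 0 := by
    intro h0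
    exact hc ((map_eq_zero _).mp h0)
  have hci : (algebraMap ℂ L c)⁻¹ ∈ O := by
    rw [← map_inv₀]
    exact O.algebraMap_mem _
  by_cases hx0 : x = 0
  · right
    rw [hx0, zero_add] at h
    rw [h]
    exact ⟨hc', hci⟩
  by_cases hy0 : y = 0
  · left
    rw [hy0, add_zero] at h
    rw [h]
    exact ⟨hc', hci⟩
  rcases hO (x * y⁻¹) (y * x⁻¹) (by field_simp) with h1 | h1
  · right
    refine ⟨hy0, ?_⟩
    have h2 : y⁻¹ = (x * y⁻¹ + 1) * (algebraMap ℂ L c)⁻¹ := by
      rw [← h]
      have : x + y ≠ 0 := by rw [h]; exact hc'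
      field_simp
    rw [h2]
    exact O.mul_mem (O.add_mem h1 O.one_mem) hci
  · left
    refine ⟨hx0, ?_⟩
    have h2 : x⁻¹ = (1 + y * x⁻¹) * (algebraMap ℂ L c)⁻¹ := by
      rw [← h]
      have : x + y ≠ 0 := by rw [h]; exact hc'
      field_simp
    rw [h2]
    exact O.mul_mem (O.add_mem O.one_mem h1) hci

/-- a divisor of a unit is a unit -/
theorem inv_mem_of_mul {x y z : L} (hz : z ∈ O) (hy : y ≠ 0 ∧ y⁻¹ ∈ O) (h : x * z = y) :
    x ≠ 0 ∧ x⁻¹ ∈ O := by
  have hx : x ≠ 0 := by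
    rintro rfl
    rw [zero_mul] at h
    exact hy.1 h.symm
  refine ⟨hx, ?_⟩
  have h2 : x⁻¹ = z * y⁻¹ := by
    rw [← h]
    have : z ≠ 0 := by
      rintro rfl
      rw [mul_zero] at h
      exact hy.1 h.symm
    field_simp
  rw [h2]
  exact O.mul_mem hz hy.2

theorem span_mem {c f : L} (hc : c ∈ O) (hf : f ∈ O) :
    c • KaehlerDifferential.D ℂ L f ∈
      Submodule.span O {ω : Ω[L⁄ℂ] | ∃ f ∈ O, ω = KaehlerDifferential.D ℂ L f} :=
  Submodule.smul_mem _ (⟨c, hc⟩ : O) (Submodule.subset_span ⟨f, hf, rfl⟩)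

theorem mem_regular {ω : Ω[L⁄ℂ]} : ω ∈ regularDifferentials L ↔ ∀ O : Subalgebra ℂ L, IsPlace O →
    ω ∈ Submodule.span O {ω : Ω[L⁄ℂ] | ∃ f ∈ O, ω = KaehlerDifferential.D ℂ L f} := by
  simp [regularDifferentials, Submodule.mem_iInf]

/-- the differential `dQ / (u v)` is regular at every place -/
theorem omega_regular {Q u v : L} (hu : u ^ 2 = Q ^ 2 - 2 * Q + 5)
    (hv : v ^ 2 = 5 * Q ^ 2 - 2 * Q + 1) (hu0 : u ≠ 0) (hv0 : v ≠ 0) :
    (u * v)⁻¹ • KaehlerDifferential.D ℂ L Q ∈ regularDifferentials L := by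
  have h2 : (2 : L) ≠ 0 := by
    rw [← map_ofNat (algebraMap ℂ L) 2]
    intro h0
    have := (map_eq_zero _).mp h0
    norm_num at this
  have n1 : ∀ (O : Subalgebra ℂ L) (n : ℕ), (n : L) ∈ O := fun O n => natCast_mem O n
  rw [mem_regular]
  intro O hO
  have m2 : (2 : L) ∈ O := by exact_mod_cast n1 O 2
  have m5 : (5 : L) ∈ O := by exact_mod_cast n1 O 5
  have m13 : (13 : L) ∈ O := by exact_mod_cast n1 O 13
  by_cases hQ : Q ∈ O
  · have hum : u ∈ O := by
      apply hO.sq_mem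
      rw [hu]
      exact O.add_mem (O.sub_mem (O.pow_mem hQ 2) (O.mul_mem m2 hQ)) m5
    have hvm : v ∈ O := by
      apply hO.sq_mem
      rw [hv]
      exact O.add_mem (O.sub_mem (O.mul_mem m5 (O.pow_mem hQ 2)) (O.mul_mem m2 hQ)) O.one_mem
    by_cases hu' : u⁻¹ ∈ O
    · by_cases hv' : v⁻¹ ∈ O
      · rw [mul_inv]
        exact span_mem (O.mul_mem hu' hv') hQ
      · -- v is a non-unit
        have h1 : (5 * v) * v + (-(5 * Q - 1) ^ 2) = algebraMap ℂ L 4 := by
          rw [map_ofNat]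
          linear_combination 5 * hv
        have h3 : (5 * Q - 1) ≠ 0 ∧ (5 * Q - 1)⁻¹ ∈ O := by
          rcases hO.unit_or (by norm_num) h1 with h4 | h4
          · exact absurd (inv_mem_of_mul (O.mul_mem m5 hvm) h4 (by ring)).2 hv'
          · exact inv_mem_of_mul (z := -(5 * Q - 1)) (O.neg_mem (O.sub_mem (O.mul_mem m5 hQ) O.one_mem))
              h4 (by ring)
        have h5 : v • KaehlerDifferential.D ℂ L v = (5 * Q - 1) • KaehlerDifferential.D ℂ L Q := by
          have h6 := congrArg (KaehlerDifferential.D ℂ L) hv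
          have e1 : (5 : L) = algebraMap ℂ L 5 := by rw [map_ofNat]
          have e2 : (2 : L) = algebraMap ℂ L 2 := by rw [map_ofNat]
          have e3 : (1 : L) = algebraMap ℂ L 1 := by rw [map_one]
          rw [pow_two, pow_two, e1, e2, e3] at h6
          simp only [map_add, map_sub, Derivation.leibniz, Derivation.map_algebraMap] at h6
          rw [← e1, ← e2] at h6
          have h7 : (2 : L) • (v • KaehlerDifferential.D ℂ L v) =
              (2 : L) • ((5 * Q - 1) • KaehlerDifferential.D ℂ L Q) := by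
            calc _ = v • KaehlerDifferential.D ℂ L v + v • KaehlerDifferential.D ℂ L v := by module
              _ = _ := by rw [h6]; module
          exact smul_right_injective _ h2 h7
        have h8 : (u * v)⁻¹ • KaehlerDifferential.D ℂ L Q =
            (u⁻¹ * (5 * Q - 1)⁻¹) • KaehlerDifferential.D ℂ L v := by
          have h9 : KaehlerDifferential.D ℂ L Q = (5 * Q - 1)⁻¹ • (v • KaehlerDifferential.D ℂ L v) := by
            rw [h5, smul_smul, inv_mul_cancel₀ h3.1, one_smul]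
          rw [h9, smul_smul, smul_smul]
          congr 1
          field_simp
        rw [h8]
        exact span_mem (O.mul_mem hu' h3.2) hvm
    · -- u is a non-unit
      have h1 : u * u + (-(Q - 1) ^ 2) = algebraMap ℂ L 4 := by
        rw [map_ofNat]
        linear_combination hu
      have h3 : (Q - 1) ≠ 0 ∧ (Q - 1)⁻¹ ∈ O := by
        rcases hO.unit_or (by norm_num) h1 with h4 | h4
        · exact absurd (inv_mem_of_mul hum h4 (by ring)).2 hu'
        · exact inv_mem_of_mul (z := -(Q - 1)) (O.neg_mem (O.sub_mem hQ O.one_mem))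
            h4 (by ring)
      have h1' : ((5 * Q + 13) * u) * u + (-((Q + 1) * v)) * v = algebraMap ℂ L 64 := by
        rw [map_ofNat]
        linear_combination (5 * Q + 13) * hu - (Q + 1) * hv
      have h3' : v ≠ 0 ∧ v⁻¹ ∈ O := by
        rcases hO.unit_or (by norm_num) h1' with h4 | h4
        · exact absurd (inv_mem_of_mul
            (O.mul_mem (O.add_mem (O.mul_mem m5 hQ) m13) hum) h4 (by ring)).2 hu'
        · exact inv_mem_of_mul (z := -((Q + 1) * v))
            (O.neg_mem (O.mul_mem (O.add_mem hQ O.one_mem) hvm)) h4 (by ring)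
      have h5 : u • KaehlerDifferential.D ℂ L u = (Q - 1) • KaehlerDifferential.D ℂ L Q := by
        have h6 := congrArg (KaehlerDifferential.D ℂ L) hu
        have e1 : (5 : L) = algebraMap ℂ L 5 := by rw [map_ofNat]
        have e2 : (2 : L) = algebraMap ℂ L 2 := by rw [map_ofNat]
        rw [pow_two, pow_two, e1, e2] at h6
        simp only [map_add, map_sub, Derivation.leibniz, Derivation.map_algebraMap] at h6
        rw [← e2] at h6
        have h7 : (2 : L) • (u • KaehlerDifferential.D ℂ L u) =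
            (2 : L) • ((Q - 1) • KaehlerDifferential.D ℂ L Q) := by
          calc _ = u • KaehlerDifferential.D ℂ L u + u • KaehlerDifferential.D ℂ L u := by module
            _ = _ := by rw [h6]; module
        exact smul_right_injective _ h2 h7
      have h8 : (u * v)⁻¹ • KaehlerDifferential.D ℂ L Q =
          (v⁻¹ * (Q - 1)⁻¹) • KaehlerDifferential.D ℂ L u := by
        have h9 : KaehlerDifferential.D ℂ L Q = (Q - 1)⁻¹ • (u • KaehlerDifferential.D ℂ L u) := by
          rw [h5, smul_smul, inv_mul_cancel₀ h3.1, one_smul]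
        rw [h9, smul_smul, smul_smul]
        congr 1
        field_simp
      rw [h8]
      exact span_mem (O.mul_mem h3'.2 h3.2) hum
  · -- places at infinity
    have hP : Q⁻¹ ∈ O := hO.inv_mem hQ
    have hQ0 : Q ≠ 0 := by
      rintro rfl
      exact hQ O.zero_mem
    set P := Q⁻¹ with hPdef
    have hP0 : P ≠ 0 := inv_ne_zero hQ0
    have hPi : P⁻¹ = Q := inv_inv Q
    have hu1 : (u * P) ^ 2 = 1 - 2 * P + 5 * P ^ 2 := by
      rw [mul_pow, hu, hPdef]
      field_simp
    have hv1 : (v * P) ^ 2 = 5 - 2 * P + P ^ 2 := by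
      rw [mul_pow, hv, hPdef]
      field_simp
    have hum : u * P ∈ O := by
      apply hO.sq_mem
      rw [hu1]
      exact O.add_mem (O.sub_mem O.one_mem (O.mul_mem m2 hP)) (O.mul_mem m5 (O.pow_mem hP 2))
    have hvm : v * P ∈ O := by
      apply hO.sq_mem
      rw [hv1]
      exact O.add_mem (O.sub_mem m5 (O.mul_mem m2 hP)) (O.pow_mem hP 2)
    have h1 : (u * P) * (u * P) + P * (2 - 5 * P) = algebraMap ℂ L 1 := by
      rw [map_one]
      linear_combination hu1
    have h2' : (v * P) * (v * P) + P * (2 - P) = algebraMap ℂ L 5 := by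
      rw [map_ofNat]
      linear_combination hv1
    have h3 : u * P ≠ 0 ∧ (u * P)⁻¹ ∈ O := by
      rcases hO.unit_or (by norm_num) h1 with h4 | h4
      · exact inv_mem_of_mul hum h4 rfl
      · have := (inv_mem_of_mul (O.sub_mem m2 (O.mul_mem m5 hP)) h4 rfl).2
        rw [hPi] at this
        exact absurd this hQ
    have h3' : v * P ≠ 0 ∧ (v * P)⁻¹ ∈ O := by
      rcases hO.unit_or (by norm_num) h2' with h4 | h4
      · exact inv_mem_of_mul hvm h4 rfl
      · have := (inv_mem_of_mul (O.sub_mem m2 hP) h4 rfl).2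
        rw [hPi] at this
        exact absurd this hQ
    have h5 : KaehlerDifferential.D ℂ L Q = -(P⁻¹ ^ 2) • KaehlerDifferential.D ℂ L P := by
      have h6 : KaehlerDifferential.D ℂ L (Q * P) = 0 := by
        rw [hPdef, mul_inv_cancel₀ hQ0, Derivation.map_one_eq_zero]
      rw [Derivation.leibniz] at h6
      have h7 : P • KaehlerDifferential.D ℂ L Q = -(Q • KaehlerDifferential.D ℂ L P) := by
        rw [eq_neg_iff_add_eq_zero, add_comm]
        exact h6
      have h8 : KaehlerDifferential.D ℂ L Q = P⁻¹ • (P • KaehlerDifferential.D ℂ L Q) := by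
        rw [smul_smul, inv_mul_cancel₀ hP0, one_smul]
      rw [h8, h7, ← hPi]
      module
    have h8 : (u * v)⁻¹ • KaehlerDifferential.D ℂ L Q =
        (-((u * P)⁻¹ * (v * P)⁻¹)) • KaehlerDifferential.D ℂ L P := by
      rw [h5, smul_smul]
      congr 1
      field_simp
    rw [h8]
    exact span_mem (O.neg_mem (O.mul_mem h3.2 h3'.2)) hP

theorem genus_ne_zero {Q u v : L} (hu : u ^ 2 = Q ^ 2 - 2 * Q + 5)
    (hv : v ^ 2 = 5 * Q ^ 2 - 2 * Q + 1) (hu0 : u ≠ 0) (hv0 : v ≠ 0)
    (hQ : KaehlerDifferential.D ℂ L Q ≠ 0) : geometricGenus L ≠ 0 := by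
  have h1 := omega_regular hu hv hu0 hv0
  have h2 : (u * v)⁻¹ • KaehlerDifferential.D ℂ L Q ≠ 0 :=
    smul_ne_zero (inv_ne_zero (mul_ne_zero hu0 hv0)) hQ
  unfold geometricGenus
  intro h0
  rw [rank_zero_iff_forall_zero] at h0
  exact h2 (congrArg Subtype.val (h0 ⟨_, h1⟩))

end Place

/-- the big field -/
abbrev WW : Type := AlgebraicClosure (RatFunc ℂ)

theorem D_ne_zero : KaehlerDifferential.D ℂ WW (algebraMap ℂ[X] WW X) ≠ 0 := by
  have _ : Algebra.FormallyEtale (RatFunc ℂ) WW := Algebra.FormallyEtale.of_isSeparable _ _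
  have _ : Algebra.FormallyEtale ℂ[X] (RatFunc ℂ) :=
    Algebra.FormallyEtale.of_isLocalization (nonZeroDivisors ℂ[X])
  have _ : Algebra.FormallyEtale ℂ[X] WW := Algebra.FormallyEtale.comp _ (RatFunc ℂ) _
  intro h0
  have h1 := KaehlerDifferential.tensorKaehlerEquivOfFormallyEtale_symm_D_algebraMap ℂ ℂ[X] WW X
  rw [h0, map_zero] at h1
  -- apply the linear form given by the derivative
  let g : WW ⊗[ℂ[X]] Ω[ℂ[X]⁄ℂ] →ₗ[ℂ[X]] WW ⊗[ℂ[X]] ℂ[X] :=
    LinearMap.lTensor WW (KaehlerDifferential.polynomialEquiv ℂ).toLinearMap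
  have h2 := congrArg g h1
  rw [map_zero] at h2
  have h3 : g (1 ⊗ₜ[ℂ[X]] KaehlerDifferential.D ℂ ℂ[X] X) = 1 ⊗ₜ[ℂ[X]] (1 : ℂ[X]) := by
    simp [g, KaehlerDifferential.polynomialEquiv_D]
  rw [h3] at h2
  have h4 := congrArg (TensorProduct.rid ℂ[X] WW) h2
  simp at h4

end Pool.Agent.CCurve
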