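import Pool.Agent.CCurve.Basic

/-!
# The operators on the tensor square of the Verma type module
-/

namespace Pool.Agent.CCurve

open Finset

variable {K : Type*} [Field K] {a : K}

/-- tensor square of the module with basis `e_x`, `x ∈ ℕ` -/
abbrev V2 (K : Type*) [Field K] := (ℕ × ℕ) →₀ K

/-- basis vector -/
noncomputable def e2 (x y : ℕ) : V2 K := Finsupp.single (x, y) (1 : K)

/-- linear extension -/
noncomputable def lin {M : Type*} [AddCommGroup M] [Module K M] (f : ℕ → ℕ → M) : V2 K →ₗ[K] M :=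
  Finsupp.linearCombination K (fun p : ℕ × ℕ => f p.1 p.2)

@[simp] theorem lin_e2 {M : Type*} [AddCommGroup M] [Module K M] (f : ℕ → ℕ → M) (x y : ℕ) :
    (lin f : V2 K →ₗ[K] M) (e2 x y) = f x y := by
  simp [lin, e2]

theorem ext2 {M : Type*} [AddCommGroup M] [Module K M] {S T : V2 K →ₗ[K] M}
    (h : ∀ x y, S (e2 x y) = T (e2 x y)) : S = T := by
  apply Finsupp.lhom_ext'
  rintro ⟨x, y⟩
  apply LinearMap.ext_ring
  exact h x y

/-- coproduct of `F` -/
noncomputable def F2 (a : K) (N : ℕ) : V2 K →ₗ[K] V2 K :=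
  lin (fun x y => e2 (x + 1) y + a ^ (-(2 * hw N x)) • e2 x (y + 1))

/-- coproduct of `{1}² E` -/
noncomputable def E2 (a : K) (N : ℕ) : V2 K →ₗ[K] V2 K :=
  lin (fun x y => (br a x * br a ((N : ℤ) - x) * a ^ (2 * hw N y)) • e2 (x - 1) y +
    (br a y * br a ((N : ℤ) - y)) • e2 x (y - 1))

/-- matrix entries of the positive crossing -/
noncomputable def rp (a : K) (N x y n : ℕ) : K :=
  a ^ ((hw N x + 2 * n) * (hw N y - 2 * n) + (n : ℤ) * (n - 1)) * gb a x n * pr a ((N : ℤ) - x) n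

/-- matrix entries of the negative crossing -/
noncomputable def rn (a : K) (N x y n : ℕ) : K :=
  (-1) ^ n * a ^ (-(hw N x * hw N y) - (n : ℤ) * (n - 1)) * gb a y n * pr a ((N : ℤ) - y) n

/-- positive crossing -/
noncomputable def Rp (a : K) (N : ℕ) : V2 K →ₗ[K] V2 K :=
  lin (fun x y => ∑ n ∈ range (x + 1), rp a N x y n • e2 (y + n) (x - n))

/-- negative crossing -/
noncomputable def Rn (a : K) (N : ℕ) : V2 K →ₗ[K] V2 K :=
  lin (fun x y => ∑ n ∈ range (y + 1), rn a N x y n • e2 (y - n) (x + n))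

theorem rp_eq_zero (a : K) (N : ℕ) {x y n : ℕ} (h : x < n) : rp a N x y n = 0 := by
  simp [rp, gb_eq_zero a h]

theorem rn_eq_zero (a : K) (N : ℕ) {x y n : ℕ} (h : y < n) : rn a N x y n = 0 := by
  simp [rn, gb_eq_zero a h]

theorem key1 (h : Generic a) (N x y n : ℕ) :
    rp a N (x + 1) y (n + 1) + a ^ (-(2 * hw N x)) * rp a N x (y + 1) n =
      rp a N x y n + rp a N x y (n + 1) * a ^ (-(2 * hw N (y + n + 1))) := by
  have ha := h.ne_zero
  have h1 : br a ((n : ℤ) + 1) ≠ 0 := h.br_ne_zero (by omega)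
  unfold rp
  rw [gb_succ_succ, gb_succ, pr_succ', pr_succ]
  have e1 : (a : K) ^ ((hw N (x + 1) + 2 * ((n + 1 : ℕ) : ℤ)) * (hw N y - 2 * ((n + 1 : ℕ) : ℤ)) +
      ((n + 1 : ℕ) : ℤ) * (((n + 1 : ℕ) : ℤ) - 1)) =
      a ^ ((hw N x + 2 * n) * (hw N y - 2 * n) + (n : ℤ) * (n - 1)) *
        a ^ (-2 * hw N x - 2 * n) := by
    rw [← zpow_add₀ ha]; congr 1; unfold hw; push_cast; ring
  have e2 : (a : K) ^ (-(2 * hw N x)) * a ^ ((hw N x + 2 * (n : ℤ)) * (hw N (y + 1) - 2 * (n : ℤ)) +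
      (n : ℤ) * ((n : ℤ) - 1)) =
      a ^ ((hw N x + 2 * n) * (hw N y - 2 * n) + (n : ℤ) * (n - 1)) *
        a ^ (-4 * hw N x - 4 * n) := by
    rw [← zpow_add₀ ha, ← zpow_add₀ ha]; congr 1; unfold hw; push_cast; ring
  have e3 : (a : K) ^ ((hw N x + 2 * ((n + 1 : ℕ) : ℤ)) * (hw N y - 2 * ((n + 1 : ℕ) : ℤ)) +
      ((n + 1 : ℕ) : ℤ) * (((n + 1 : ℕ) : ℤ) - 1)) * a ^ (-(2 * hw N (y + n + 1))) =
      a ^ ((hw N x + 2 * n) * (hw N y - 2 * n) + (n : ℤ) * (n - 1)) *
        a ^ (-2 * hw N x - 2 * n) := by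
    rw [← zpow_add₀ ha, ← zpow_add₀ ha]; congr 1; unfold hw; push_cast; ring
  have e4 : pr a ((N : ℤ) - ((x + 1 : ℕ) : ℤ) + 1) n = pr a ((N : ℤ) - x) n := by
    congr 1; push_cast; ring
  rw [e4, e1]
  set P := pr a ((N : ℤ) - x) n
  set G := gb a x n
  set c := a ^ ((hw N x + 2 * n) * (hw N y - 2 * n) + (n : ℤ) * (n - 1))
  have main : a ^ (-2 * hw N x - 2 * n) * (br a ((x : ℤ) + 1) * br a ((N : ℤ) - ((x + 1 : ℕ) : ℤ))) +
      a ^ (-4 * hw N x - 4 * n) * br a ((n : ℤ) + 1) =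
      br a ((n : ℤ) + 1) + a ^ (-2 * hw N x - 2 * n) *
        (br a ((x : ℤ) - n) * br a ((N : ℤ) - x + n)) := by
    unfold br hw
    push_cast
    simp only [mul_sub, mul_add, sub_mul, ← zpow_add₀ ha]
    ring_nf
  calc _ = c * G * P / br a ((n : ℤ) + 1) * (a ^ (-2 * hw N x - 2 * n) *
          (br a ((x : ℤ) + 1) * br a ((N : ℤ) - ((x + 1 : ℕ) : ℤ))) +
          a ^ (-4 * hw N x - 4 * n) * br a ((n : ℤ) + 1)) := by
        rw [← mul_assoc (a ^ (-(2 * hw N x))), ← mul_assoc (a ^ (-(2 * hw N x))), e2]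
        field_simp
    _ = c * G * P / br a ((n : ℤ) + 1) * (br a ((n : ℤ) + 1) + a ^ (-2 * hw N x - 2 * n) *
        (br a ((x : ℤ) - n) * br a ((N : ℤ) - x + n))) := by rw [main]
    _ = _ := by
        have : ∀ u v w z : K, u * v * w * z = (u * z) * v * w := by intros; ring
        rw [this _ _ _ (a ^ (-(2 * hw N (y + n + 1)))), e3]
        field_simp

theorem Rp_F2 (h : Generic a) (N : ℕ) (v : V2 K) : Rp a N (F2 a N v) = F2 a N (Rp a N v) := by
  have : (Rp a N) ∘ₗ (F2 a N) = (F2 a N) ∘ₗ (Rp a N) := by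
    apply ext2
    intro x y
    simp only [LinearMap.comp_apply, F2, Rp, lin_e2, map_add, map_smul, map_sum]
    have h1 : ∑ n ∈ range (x + 1), rp a N x y n • (e2 (y + n + 1) (x - n) +
        a ^ (-(2 * hw N (y + n))) • e2 (K := K) (y + n) (x - n + 1)) =
        ∑ n ∈ range (x + 1), rp a N x y n • e2 (y + n + 1) (x - n) +
        ∑ n ∈ range (x + 1 + 1), (rp a N x y n *
        a ^ (-(2 * hw N (y + n)))) • e2 (K := K) (y + n) (x + 1 - n) := by
      rw [Finset.sum_range_succ _ (x + 1), rp_eq_zero a N (Nat.lt_succ_self x), zero_mul, zero_smul,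
        add_zero, ← Finset.sum_add_distrib]
      apply Finset.sum_congr rfl
      intro n hn
      rw [Finset.mem_range] at hn
      rw [smul_add, smul_smul, show x - n + 1 = x + 1 - n by omega]
    rw [h1, Finset.sum_range_succ' _ (x + 1), Finset.sum_range_succ' _ (x + 1)]
    have h2 : ∀ n ∈ range (x + 1), rp a N (x + 1) y (n + 1) • e2 (K := K) (y + (n + 1)) (x + 1 - (n + 1)) =
        (rp a N x y n) • e2 (y + n + 1) (x - n) +
        (rp a N x y (n + 1) * a ^ (-(2 * hw N (y + (n + 1))))) • e2 (y + (n + 1)) (x + 1 - (n + 1)) -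
        a ^ (-(2 * hw N x)) • rp a N x (y + 1) n • e2 (y + 1 + n) (x - n) := by
      intro n hn
      have := key1 h N x y n
      rw [show y + (n + 1) = y + n + 1 by omega, show x + 1 - (n + 1) = x - n by omega,
        show y + 1 + n = y + n + 1 by omega, smul_smul, ← add_smul, ← sub_smul, ← this]
      congr 1
      ring
    rw [Finset.sum_congr rfl h2, Finset.sum_sub_distrib, Finset.sum_add_distrib, Finset.smul_sum]
    have h3 : rp a N (x + 1) y 0 = rp a N x y 0 * a ^ (-(2 * hw N (y + 0))) := by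
      unfold rp
      simp only [gb_zero_right, pr_zero, mul_one]
      rw [← zpow_add₀ h.ne_zero]
      congr 1
      unfold hw
      push_cast
      ring
    rw [h3]
    abel
  exact LinearMap.congr_fun this v

/-- `rp` in terms of the weight of the second factor -/
noncomputable def rpz (a : K) (N x : ℕ) (η : ℤ) (n : ℕ) : K :=
  a ^ ((hw N x + 2 * n) * (η - 2 * n) + (n : ℤ) * (n - 1)) * gb a x n * pr a ((N : ℤ) - x) n

theorem key2 (h : Generic a) (N x n : ℕ) (y : ℤ) :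
    br a ((x : ℤ) + 1) * br a ((N : ℤ) - (x + 1)) * a ^ (2 * ((N : ℤ) - 1 - 2 * y)) *
        rpz a N x ((N : ℤ) - 1 - 2 * y) n +
      br a y * br a ((N : ℤ) - y) * rpz a N (x + 1) ((N : ℤ) - 1 - 2 * (y - 1)) (n + 1) =
      rpz a N (x + 1) ((N : ℤ) - 1 - 2 * y) (n + 1) * (br a (y + n + 1) * br a ((N : ℤ) - (y + n + 1)) *
        a ^ (2 * ((N : ℤ) - 1 - 2 * (x - n)))) +
      rpz a N (x + 1) ((N : ℤ) - 1 - 2 * y) n * (br a ((x : ℤ) + 1 - n) * br a ((N : ℤ) - (x + 1 - n))) := by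
  have ha := h.ne_zero
  have h1 : br a ((n : ℤ) + 1) ≠ 0 := h.br_ne_zero (by omega)
  have h2 : gb a (x + 1) n * br a ((x : ℤ) + 1 - n) = gb a x n * br a ((x : ℤ) + 1) := by
    have e := gb_succ a (x + 1) n
    rw [gb_succ_succ] at e
    field_simp at e
    push_cast at e
    exact e.symm
  have h3 : pr a ((N : ℤ) - ((x + 1 : ℕ) : ℤ)) n * br a ((N : ℤ) - (x + 1 - n)) =
      br a ((N : ℤ) - (x + 1)) * pr a ((N : ℤ) - x) n := by
    have e := pr_succ a ((N : ℤ) - ((x + 1 : ℕ) : ℤ)) n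
    rw [pr_succ'] at e
    rw [show (N : ℤ) - (x + 1 - n) = (N : ℤ) - ((x + 1 : ℕ) : ℤ) + n by push_cast; ring, ← e]
    congr 2
    push_cast
    ring
  have h4 : pr a ((N : ℤ) - ((x + 1 : ℕ) : ℤ)) (n + 1) = br a ((N : ℤ) - (x + 1)) * pr a ((N : ℤ) - x) n := by
    rw [pr_succ']
    congr 2
    push_cast
    ring
  unfold rpz
  rw [gb_succ_succ, h4]
  set P := pr a ((N : ℤ) - x) n
  set G := gb a x n
  set c := a ^ ((hw N x + 2 * n) * (((N : ℤ) - 1 - 2 * y) - 2 * n) + (n : ℤ) * (n - 1)) with hc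
  have e1 : (a : K) ^ ((hw N (x + 1) + 2 * ((n + 1 : ℕ) : ℤ)) * (((N : ℤ) - 1 - 2 * (y - 1)) - 2 * ((n + 1 : ℕ) : ℤ)) +
      ((n + 1 : ℕ) : ℤ) * (((n + 1 : ℕ) : ℤ) - 1)) = c * a ^ (2 * (n : ℤ)) := by
    rw [hc, ← zpow_add₀ ha]; congr 1; unfold hw; push_cast; ring
  have e2 : (a : K) ^ ((hw N (x + 1) + 2 * ((n + 1 : ℕ) : ℤ)) * (((N : ℤ) - 1 - 2 * y) - 2 * ((n + 1 : ℕ) : ℤ)) +
      ((n + 1 : ℕ) : ℤ) * (((n + 1 : ℕ) : ℤ) - 1)) = c * a ^ (-2 * ((N : ℤ) - 1 - 2 * x) - 2 * n) := by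
    rw [hc, ← zpow_add₀ ha]; congr 1; unfold hw; push_cast; ring
  have e3 : (a : K) ^ ((hw N (x + 1) + 2 * (n : ℤ)) * (((N : ℤ) - 1 - 2 * y) - 2 * (n : ℤ)) +
      (n : ℤ) * ((n : ℤ) - 1)) = c * a ^ (-2 * ((N : ℤ) - 1 - 2 * y) + 4 * n) := by
    rw [hc, ← zpow_add₀ ha]; congr 1; unfold hw; push_cast; ring
  rw [e1, e2, e3]
  have main : a ^ (2 * ((N : ℤ) - 1 - 2 * y)) * br a ((n : ℤ) + 1) +
      br a y * br a ((N : ℤ) - y) * a ^ (2 * (n : ℤ)) =
      a ^ (-2 * ((N : ℤ) - 1 - 2 * x) - 2 * n) * (br a (y + n + 1) * br a ((N : ℤ) - (y + n + 1)) *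
        a ^ (2 * ((N : ℤ) - 1 - 2 * (x - n)))) +
      a ^ (-2 * ((N : ℤ) - 1 - 2 * y) + 4 * n) * br a ((n : ℤ) + 1) := by
    unfold br
    simp only [mul_sub, mul_add, sub_mul, ← zpow_add₀ ha]
    ring_nf
  calc _ = c * G * P * br a ((x : ℤ) + 1) * br a ((N : ℤ) - (x + 1)) / br a ((n : ℤ) + 1) *
        (a ^ (2 * ((N : ℤ) - 1 - 2 * y)) * br a ((n : ℤ) + 1) +
      br a y * br a ((N : ℤ) - y) * a ^ (2 * (n : ℤ))) := by
        field_simp
    _ = _ := by
        rw [main]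
        have h5 : gb a (x + 1) n * pr a ((N : ℤ) - ((x + 1 : ℕ) : ℤ)) n *
            (br a ((x : ℤ) + 1 - n) * br a ((N : ℤ) - (x + 1 - n))) =
            (G * br a ((x : ℤ) + 1)) * (br a ((N : ℤ) - (x + 1)) * P) := by
          rw [← h2, ← h3]; ring
        have h6 : c * a ^ (-2 * ((N : ℤ) - 1 - 2 * y) + 4 * ↑n) * gb a (x + 1) n *
            pr a ((N : ℤ) - ((x + 1 : ℕ) : ℤ)) n *
            (br a ((x : ℤ) + 1 - n) * br a ((N : ℤ) - (x + 1 - n))) =
            c * a ^ (-2 * ((N : ℤ) - 1 - 2 * y) + 4 * ↑n) *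
            ((G * br a ((x : ℤ) + 1)) * (br a ((N : ℤ) - (x + 1)) * P)) := by
          rw [← h5]; ring
        rw [h6]
        field_simp

theorem Rp_E2 (h : Generic a) (N : ℕ) (v : V2 K) : Rp a N (E2 a N v) = E2 a N (Rp a N v) := by
  have hrp : ∀ x y n : ℕ, rp a N x y n = rpz a N x ((N : ℤ) - 1 - 2 * y) n := fun x y n => rfl
  have : (Rp a N) ∘ₗ (E2 a N) = (E2 a N) ∘ₗ (Rp a N) := by
    apply ext2
    intro x y
    simp only [LinearMap.comp_apply, E2, Rp, lin_e2, map_add, map_smul, map_sum]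
    rcases x with _ | x
    · rcases y with _ | y
      · simp
      · simp only [zero_add, Finset.range_one, Finset.sum_singleton, Nat.cast_zero, br_zero, zero_mul, zero_smul,
          add_zero, Nat.sub_zero, smul_smul, Nat.add_sub_cancel]
        congr 1
        unfold rp hw
        simp only [gb_zero_right, pr_zero, mul_one]
        have ha := h.ne_zero
        have e1 : (a : K) ^ (((N : ℤ) - 1 - 2 * ((0 : ℕ) : ℤ) + 2 * ((0 : ℕ) : ℤ)) *
            ((N : ℤ) - 1 - 2 * (y : ℤ) - 2 * ((0 : ℕ) : ℤ)) + ((0 : ℕ) : ℤ) * (((0 : ℕ) : ℤ) - 1)) =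
            a ^ (((N : ℤ) - 1 - 2 * ((0 : ℕ) : ℤ) + 2 * ((0 : ℕ) : ℤ)) *
            ((N : ℤ) - 1 - 2 * ((y + 1 : ℕ) : ℤ) - 2 * ((0 : ℕ) : ℤ)) +
            ((0 : ℕ) : ℤ) * (((0 : ℕ) : ℤ) - 1)) * a ^ (2 * ((N : ℤ) - 1 - 2 * ((0 : ℕ) : ℤ))) := by
          rw [← zpow_add₀ ha]
          congr 1
          push_cast
          ring
        simp only [Nat.cast_zero] at e1 ⊢
        rw [e1]
        ring
    · have hR : ∑ n ∈ range (x + 1 + 1), rp a N (x + 1) y n •
          ((br a ((y + n : ℕ) : ℤ) * br a ((N : ℤ) - ((y + n : ℕ) : ℤ)) * a ^ (2 * hw N (x + 1 - n))) •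
            e2 (K := K) (y + n - 1) (x + 1 - n) +
          (br a ((x + 1 - n : ℕ) : ℤ) * br a ((N : ℤ) - ((x + 1 - n : ℕ) : ℤ))) •
            e2 (K := K) (y + n) (x + 1 - n - 1)) =
          (rp a N (x + 1) y 0 * (br a (y : ℤ) * br a ((N : ℤ) - y) * a ^ (2 * hw N (x + 1)))) •
            e2 (K := K) (y - 1) (x + 1) +
          ∑ n ∈ range (x + 1), (rp a N (x + 1) y (n + 1) * (br a ((y : ℤ) + n + 1) *
            br a ((N : ℤ) - ((y : ℤ) + n + 1)) * a ^ (2 * ((N : ℤ) - 1 - 2 * ((x : ℤ) - n)))) +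
            rp a N (x + 1) y n * (br a ((x : ℤ) + 1 - n) * br a ((N : ℤ) - (x + 1 - n)))) •
            e2 (K := K) (y + n) (x - n) := by
        simp only [smul_add, smul_smul, Finset.sum_add_distrib, add_smul]
        rw [Finset.sum_range_succ' _ (x + 1), Finset.sum_range_succ _ (x + 1)]
        simp only [Nat.sub_self, Nat.cast_zero, br_zero, zero_mul, mul_zero, zero_smul, add_zero,
          Nat.sub_zero]
        have h1 : ∀ n ∈ range (x + 1), (rp a N (x + 1) y (n + 1) *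
            (br a ((y + (n + 1) : ℕ) : ℤ) * br a ((N : ℤ) - ((y + (n + 1) : ℕ) : ℤ)) *
              a ^ (2 * hw N (x + 1 - (n + 1))))) • e2 (K := K) (y + (n + 1) - 1) (x + 1 - (n + 1)) =
            (rp a N (x + 1) y (n + 1) * (br a ((y : ℤ) + n + 1) *
            br a ((N : ℤ) - ((y : ℤ) + n + 1)) * a ^ (2 * ((N : ℤ) - 1 - 2 * ((x : ℤ) - n))))) •
            e2 (K := K) (y + n) (x - n) := by
          intro n hn
          rw [Finset.mem_range] at hn
          rw [show y + (n + 1) - 1 = y + n by omega, show x + 1 - (n + 1) = x - n by omega]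
          congr 2
          unfold hw
          rw [Nat.cast_sub (by omega : n ≤ x)]
          push_cast
          rw [← add_assoc]
        have h2 : ∀ n ∈ range (x + 1), (rp a N (x + 1) y n *
            (br a ((x + 1 - n : ℕ) : ℤ) * br a ((N : ℤ) - ((x + 1 - n : ℕ) : ℤ)))) •
              e2 (K := K) (y + n) (x + 1 - n - 1) =
            (rp a N (x + 1) y n * (br a ((x : ℤ) + 1 - n) * br a ((N : ℤ) - (x + 1 - n)))) •
            e2 (K := K) (y + n) (x - n) := by
          intro n hn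
          rw [Finset.mem_range] at hn
          rw [show x + 1 - n - 1 = x - n by omega, Nat.cast_sub (by omega : n ≤ x + 1)]
          push_cast
          rfl
        rw [Finset.sum_congr rfl h1, Finset.sum_congr rfl h2]
        abel
      rw [hR]
      simp only [Nat.add_sub_cancel]
      rcases y with _ | y
      · simp only [Nat.cast_zero, br_zero, zero_mul, zero_smul, mul_zero, add_zero, zero_add,
          Finset.smul_sum, smul_smul, Finset.sum_const_zero]
        apply Finset.sum_congr rfl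
        intro n hn
        congr 1
        have e := key2 h N x n 0
        simp only [br_zero, zero_mul, add_zero, zero_add] at e
        simp only [hrp, hw, Nat.cast_zero, Nat.cast_add, Nat.cast_one] at e ⊢
        exact e
      · rw [Finset.sum_range_succ' _ (x + 1)]
        simp only [Nat.add_sub_cancel, Nat.add_zero, Nat.sub_zero, smul_add, Finset.smul_sum, smul_smul]
        have h3 : br a ((y + 1 : ℕ) : ℤ) * br a ((N : ℤ) - ((y + 1 : ℕ) : ℤ)) * rp a N (x + 1) y 0 =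
            rp a N (x + 1) (y + 1) 0 * (br a ((y + 1 : ℕ) : ℤ) * br a ((N : ℤ) - ((y + 1 : ℕ) : ℤ)) *
              a ^ (2 * hw N (x + 1))) := by
          unfold rp hw
          simp only [gb_zero_right, pr_zero, mul_one]
          have ha := h.ne_zero
          have e1 : (a : K) ^ (((N : ℤ) - 1 - 2 * ((x + 1 : ℕ) : ℤ) + 2 * ((0 : ℕ) : ℤ)) *
              ((N : ℤ) - 1 - 2 * (y : ℤ) - 2 * ((0 : ℕ) : ℤ)) + ((0 : ℕ) : ℤ) * (((0 : ℕ) : ℤ) - 1)) =
              a ^ (((N : ℤ) - 1 - 2 * ((x + 1 : ℕ) : ℤ) + 2 * ((0 : ℕ) : ℤ)) *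
              ((N : ℤ) - 1 - 2 * ((y + 1 : ℕ) : ℤ) - 2 * ((0 : ℕ) : ℤ)) +
              ((0 : ℕ) : ℤ) * (((0 : ℕ) : ℤ) - 1)) * a ^ (2 * ((N : ℤ) - 1 - 2 * ((x + 1 : ℕ) : ℤ))) := by
            rw [← zpow_add₀ ha]
            congr 1
            push_cast
            ring
          rw [e1]
          ring
        rw [h3, add_comm, add_assoc, add_left_comm, ← Finset.sum_add_distrib]
        congr 1
        apply Finset.sum_congr rfl
        intro n hn
        rw [show y + (n + 1) = y + 1 + n by omega, show x + 1 - (n + 1) = x - n by omega, ← add_smul]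
        congr 1
        have e := key2 h N x n ((y + 1 : ℕ) : ℤ)
        rw [show (N : ℤ) - 1 - 2 * (((y + 1 : ℕ) : ℤ) - 1) = (N : ℤ) - 1 - 2 * (y : ℤ) by
          push_cast; ring] at e
        rw [add_comm]
        simp only [hrp, hw, Nat.cast_add, Nat.cast_one] at e ⊢
        exact e
  exact LinearMap.congr_fun this v

/-! ### The negative crossing -/

/-- `rn` in terms of the weight of the first factor -/
noncomputable def rnz (a : K) (N : ℕ) (ξ : ℤ) (y n : ℕ) : K :=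
  (-1) ^ n * a ^ (-(ξ * hw N y) - (n : ℤ) * (n - 1)) * gb a y n * pr a ((N : ℤ) - y) n

theorem key3 (h : Generic a) (N x y n : ℕ) :
    rn a N (x + 1) y n + a ^ (-(2 * hw N x)) * rn a N x (y + 1) (n + 1) =
      rn a N x y (n + 1) + rn a N x y n * a ^ (-(2 * ((N : ℤ) - 1 - 2 * (y - n)))) := by
  have ha := h.ne_zero
  have h1 : br a ((n : ℤ) + 1) ≠ 0 := h.br_ne_zero (by omega)
  unfold rn
  rw [gb_succ_succ, gb_succ, pr_succ', pr_succ]
  have e4 : pr a ((N : ℤ) - ((y + 1 : ℕ) : ℤ) + 1) n = pr a ((N : ℤ) - y) n := by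
    congr 1; push_cast; ring
  rw [e4]
  set P := pr a ((N : ℤ) - y) n
  set G := gb a y n
  set c := a ^ (-(hw N x * hw N y) - (n : ℤ) * (n - 1)) with hc
  have e1 : (a : K) ^ (-(hw N (x + 1) * hw N y) - (n : ℤ) * (n - 1)) = c * a ^ (2 * hw N y) := by
    rw [hc, ← zpow_add₀ ha]; congr 1; unfold hw; push_cast; ring
  have e2 : (a : K) ^ (-(2 * hw N x)) * a ^ (-(hw N x * hw N (y + 1)) - ((n + 1 : ℕ) : ℤ) *
      (((n + 1 : ℕ) : ℤ) - 1)) = c * a ^ (-2 * (n : ℤ)) := by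
    rw [hc, ← zpow_add₀ ha, ← zpow_add₀ ha]; congr 1; unfold hw; push_cast; ring
  have e3 : (a : K) ^ (-(hw N x * hw N y) - ((n + 1 : ℕ) : ℤ) * (((n + 1 : ℕ) : ℤ) - 1)) =
      c * a ^ (-2 * (n : ℤ)) := by
    rw [hc, ← zpow_add₀ ha]; congr 1; unfold hw; push_cast; ring
  have main : a ^ (2 * hw N y) * br a ((n : ℤ) + 1) -
      a ^ (-2 * (n : ℤ)) * (br a ((y : ℤ) + 1) * br a ((N : ℤ) - ((y + 1 : ℕ) : ℤ))) =
      - (a ^ (-2 * (n : ℤ)) * (br a ((y : ℤ) - n) * br a ((N : ℤ) - y + n))) +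
      a ^ (-(2 * ((N : ℤ) - 1 - 2 * (y - n)))) * br a ((n : ℤ) + 1) := by
    unfold br hw
    push_cast
    simp only [mul_sub, mul_add, sub_mul, ← zpow_add₀ ha]
    ring_nf
  calc _ = (-1) ^ n * c * G * P / br a ((n : ℤ) + 1) * (a ^ (2 * hw N y) * br a ((n : ℤ) + 1) -
      a ^ (-2 * (n : ℤ)) * (br a ((y : ℤ) + 1) * br a ((N : ℤ) - ((y + 1 : ℕ) : ℤ)))) := by
        rw [e1, show ∀ u w z p : K, u * ((-1) ^ (n + 1) * w * z * p) = (-1) ^ (n + 1) * (u * w) * z * p by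
          intros; ring, e2, pow_succ]
        field_simp
        ring
    _ = _ := by
        rw [main, e3, pow_succ]
        field_simp

theorem Rn_F2 (h : Generic a) (N : ℕ) (v : V2 K) : Rn a N (F2 a N v) = F2 a N (Rn a N v) := by
  have : (Rn a N) ∘ₗ (F2 a N) = (F2 a N) ∘ₗ (Rn a N) := by
    apply ext2
    intro x y
    simp only [LinearMap.comp_apply, F2, Rn, lin_e2, map_add, map_smul, map_sum]
    have h1 : ∑ n ∈ range (y + 1), rn a N x y n • (e2 (y - n + 1) (x + n) +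
        a ^ (-(2 * hw N (y - n))) • e2 (K := K) (y - n) (x + n + 1)) =
        ∑ n ∈ range (y + 1 + 1), rn a N x y n • e2 (y + 1 - n) (x + n) +
        ∑ n ∈ range (y + 1), (rn a N x y n *
        a ^ (-(2 * ((N : ℤ) - 1 - 2 * (y - n))))) • e2 (K := K) (y - n) (x + n + 1) := by
      rw [Finset.sum_range_succ _ (y + 1), rn_eq_zero a N (Nat.lt_succ_self y), zero_smul,
        add_zero, ← Finset.sum_add_distrib]
      apply Finset.sum_congr rfl
      intro n hn
      rw [Finset.mem_range] at hn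
      rw [smul_add, smul_smul, show y - n + 1 = y + 1 - n by omega]
      congr 3
      unfold hw
      rw [Nat.cast_sub (by omega : n ≤ y)]
    rw [h1, Finset.sum_range_succ' _ (y + 1), Finset.sum_range_succ' _ (y + 1)]
    have h2 : ∀ n ∈ range (y + 1), rn a N x (y + 1) (n + 1) • e2 (K := K) (y + 1 - (n + 1)) (x + (n + 1)) =
        a ^ (2 * hw N x) • ((rn a N x y (n + 1)) • e2 (y + 1 - (n + 1)) (x + (n + 1)) +
        (rn a N x y n * a ^ (-(2 * ((N : ℤ) - 1 - 2 * (y - n))))) • e2 (y - n) (x + n + 1) -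
        rn a N (x + 1) y n • e2 (y - n) (x + 1 + n)) := by
      intro n hn
      have e := key3 h N x y n
      rw [show y + 1 - (n + 1) = y - n by omega, show x + (n + 1) = x + n + 1 by omega,
        show x + 1 + n = x + n + 1 by omega, ← add_smul, ← sub_smul, smul_smul, ← e]
      congr 1
      have : (a : K) ^ (2 * hw N x) * a ^ (-(2 * hw N x)) = 1 := by
        rw [← zpow_add₀ h.ne_zero]; simp
      rw [add_sub_cancel_left, ← mul_assoc, this, one_mul]
    rw [Finset.sum_congr rfl h2, ← Finset.smul_sum, Finset.sum_sub_distrib, Finset.sum_add_distrib]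
    have h3 : rn a N x (y + 1) 0 = a ^ (2 * hw N x) * rn a N x y 0 := by
      unfold rn
      simp only [gb_zero_right, pr_zero, mul_one, pow_zero, one_mul]
      rw [← zpow_add₀ h.ne_zero]
      congr 1
      unfold hw
      push_cast
      ring
    have h4 : (a : K) ^ (-(2 * hw N x)) * a ^ (2 * hw N x) = 1 := by
        rw [← zpow_add₀ h.ne_zero]; simp
    rw [h3, smul_add, smul_smul, h4, one_smul, smul_smul, ← mul_assoc, h4, one_mul]
    abel
  exact LinearMap.congr_fun this v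

theorem key4 (h : Generic a) (N y n : ℕ) (x : ℤ) :
    br a x * br a ((N : ℤ) - x) * a ^ (2 * ((N : ℤ) - 1 - 2 * (y + 1))) *
        rnz a N ((N : ℤ) - 1 - 2 * (x - 1)) (y + 1) (n + 1) +
      br a ((y : ℤ) + 1) * br a ((N : ℤ) - (y + 1)) * rnz a N ((N : ℤ) - 1 - 2 * x) y n =
      rnz a N ((N : ℤ) - 1 - 2 * x) (y + 1) n * (br a ((y : ℤ) + 1 - n) *
        br a ((N : ℤ) - (y + 1 - n)) * a ^ (2 * ((N : ℤ) - 1 - 2 * (x + n)))) +
      rnz a N ((N : ℤ) - 1 - 2 * x) (y + 1) (n + 1) * (br a (x + n + 1) *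
        br a ((N : ℤ) - (x + n + 1))) := by
  have ha := h.ne_zero
  have h1 : br a ((n : ℤ) + 1) ≠ 0 := h.br_ne_zero (by omega)
  have h2 : gb a (y + 1) n * br a ((y : ℤ) + 1 - n) = gb a y n * br a ((y : ℤ) + 1) := by
    have e := gb_succ a (y + 1) n
    rw [gb_succ_succ] at e
    field_simp at e
    push_cast at e
    exact e.symm
  have h3 : pr a ((N : ℤ) - ((y + 1 : ℕ) : ℤ)) n * br a ((N : ℤ) - (y + 1 - n)) =
      br a ((N : ℤ) - (y + 1)) * pr a ((N : ℤ) - y) n := by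
    have e := pr_succ a ((N : ℤ) - ((y + 1 : ℕ) : ℤ)) n
    rw [pr_succ'] at e
    rw [show (N : ℤ) - (y + 1 - n) = (N : ℤ) - ((y + 1 : ℕ) : ℤ) + n by push_cast; ring, ← e]
    congr 2
    push_cast
    ring
  have h4 : pr a ((N : ℤ) - ((y + 1 : ℕ) : ℤ)) (n + 1) = br a ((N : ℤ) - (y + 1)) * pr a ((N : ℤ) - y) n := by
    rw [pr_succ']
    congr 2
    push_cast
    ring
  unfold rnz
  rw [gb_succ_succ, h4]
  set P := pr a ((N : ℤ) - y) n
  set G := gb a y n
  set c := a ^ (-(((N : ℤ) - 1 - 2 * x) * hw N y) - (n : ℤ) * (n - 1)) with hc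
  have e1 : (a : K) ^ (-(((N : ℤ) - 1 - 2 * (x - 1)) * hw N (y + 1)) - ((n + 1 : ℕ) : ℤ) *
      (((n + 1 : ℕ) : ℤ) - 1)) =
      c * a ^ (2 * ((N : ℤ) - 1 - 2 * x) - 2 * ((N : ℤ) - 1 - 2 * (y + 1)) - 2 * n) := by
    rw [hc, ← zpow_add₀ ha]; congr 1; unfold hw; push_cast; ring
  have e2 : (a : K) ^ (-(((N : ℤ) - 1 - 2 * x) * hw N (y + 1)) - (n : ℤ) * (n - 1)) =
      c * a ^ (2 * ((N : ℤ) - 1 - 2 * x)) := by
    rw [hc, ← zpow_add₀ ha]; congr 1; unfold hw; push_cast; ring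
  have e3 : (a : K) ^ (-(((N : ℤ) - 1 - 2 * x) * hw N (y + 1)) - ((n + 1 : ℕ) : ℤ) *
      (((n + 1 : ℕ) : ℤ) - 1)) =
      c * a ^ (2 * ((N : ℤ) - 1 - 2 * x) - 2 * n) := by
    rw [hc, ← zpow_add₀ ha]; congr 1; unfold hw; push_cast; ring
  rw [e1, e2, e3]
  have main : - (br a x * br a ((N : ℤ) - x) * a ^ (2 * ((N : ℤ) - 1 - 2 * (y + 1)))) *
      a ^ (2 * ((N : ℤ) - 1 - 2 * x) - 2 * ((N : ℤ) - 1 - 2 * (y + 1)) - 2 * n) +
      br a ((n : ℤ) + 1) =
      a ^ (2 * ((N : ℤ) - 1 - 2 * x)) * a ^ (2 * ((N : ℤ) - 1 - 2 * (x + n))) * br a ((n : ℤ) + 1)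
      - a ^ (2 * ((N : ℤ) - 1 - 2 * x) - 2 * n) * (br a (x + n + 1) * br a ((N : ℤ) - (x + n + 1))) := by
    unfold br
    simp only [mul_sub, mul_add, sub_mul, neg_sub, ← zpow_add₀ ha]
    ring_nf
  calc _ = (-1) ^ n * c * G * P * br a ((y : ℤ) + 1) * br a ((N : ℤ) - (y + 1)) / br a ((n : ℤ) + 1) *
        (- (br a x * br a ((N : ℤ) - x) * a ^ (2 * ((N : ℤ) - 1 - 2 * (y + 1)))) *
      a ^ (2 * ((N : ℤ) - 1 - 2 * x) - 2 * ((N : ℤ) - 1 - 2 * (y + 1)) - 2 * n) +
      br a ((n : ℤ) + 1)) := by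
        rw [pow_succ]
        field_simp
    _ = _ := by
        rw [main]
        have h5 : gb a (y + 1) n * pr a ((N : ℤ) - ((y + 1 : ℕ) : ℤ)) n *
            (br a ((y : ℤ) + 1 - n) * br a ((N : ℤ) - (y + 1 - n))) =
            (G * br a ((y : ℤ) + 1)) * (br a ((N : ℤ) - (y + 1)) * P) := by
          rw [← h2, ← h3]; ring
        have h6 : (-1) ^ n * (c * a ^ (2 * ((N : ℤ) - 1 - 2 * x))) * gb a (y + 1) n *
            pr a ((N : ℤ) - ((y + 1 : ℕ) : ℤ)) n *
            (br a ((y : ℤ) + 1 - n) * br a ((N : ℤ) - (y + 1 - n)) *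
              a ^ (2 * ((N : ℤ) - 1 - 2 * (x + n)))) =
            (-1) ^ n * (c * a ^ (2 * ((N : ℤ) - 1 - 2 * x))) *
            ((G * br a ((y : ℤ) + 1)) * (br a ((N : ℤ) - (y + 1)) * P)) *
              a ^ (2 * ((N : ℤ) - 1 - 2 * (x + n))) := by
          rw [← h5]; ring
        rw [h6, pow_succ]
        field_simp
        ring

theorem Rn_E2 (h : Generic a) (N : ℕ) (v : V2 K) : Rn a N (E2 a N v) = E2 a N (Rn a N v) := by
  have hrn : ∀ x y n : ℕ, rn a N x y n = rnz a N ((N : ℤ) - 1 - 2 * x) y n := fun x y n => rfl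
  have ha := h.ne_zero
  have : (Rn a N) ∘ₗ (E2 a N) = (E2 a N) ∘ₗ (Rn a N) := by
    apply ext2
    intro x y
    simp only [LinearMap.comp_apply, E2, Rn, lin_e2, map_add, map_smul, map_sum]
    rcases y with _ | y
    · rcases x with _ | x
      · simp
      · simp only [zero_add, Finset.range_one, Finset.sum_singleton, Nat.cast_zero, br_zero, zero_mul, zero_smul,
          add_zero, Nat.sub_zero, smul_smul, Nat.add_sub_cancel]
        congr 1
        unfold rn hw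
        simp only [gb_zero_right, pr_zero, mul_one, pow_zero, one_mul]
        have e1 : (a : K) ^ (2 * ((N : ℤ) - 1 - 2 * ((0 : ℕ) : ℤ))) *
            a ^ (-(((N : ℤ) - 1 - 2 * (x : ℤ)) * ((N : ℤ) - 1 - 2 * ((0 : ℕ) : ℤ))) -
              ((0 : ℕ) : ℤ) * (((0 : ℕ) : ℤ) - 1)) =
            a ^ (-(((N : ℤ) - 1 - 2 * ((x + 1 : ℕ) : ℤ)) * ((N : ℤ) - 1 - 2 * ((0 : ℕ) : ℤ))) -
              ((0 : ℕ) : ℤ) * (((0 : ℕ) : ℤ) - 1)) := by
          rw [← zpow_add₀ ha]
          congr 1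
          push_cast
          ring
        simp only [Nat.cast_zero] at e1 ⊢
        rw [mul_assoc, e1]
        ring
    · have hR : ∑ n ∈ range (y + 1 + 1), rn a N x (y + 1) n •
          ((br a ((y + 1 - n : ℕ) : ℤ) * br a ((N : ℤ) - ((y + 1 - n : ℕ) : ℤ)) * a ^ (2 * hw N (x + n))) •
            e2 (K := K) (y + 1 - n - 1) (x + n) +
          (br a ((x + n : ℕ) : ℤ) * br a ((N : ℤ) - ((x + n : ℕ) : ℤ))) •
            e2 (K := K) (y + 1 - n) (x + n - 1)) =
          (rn a N x (y + 1) 0 * (br a (x : ℤ) * br a ((N : ℤ) - x))) •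
            e2 (K := K) (y + 1) (x - 1) +
          ∑ n ∈ range (y + 1), (rn a N x (y + 1) n * (br a ((y : ℤ) + 1 - n) *
            br a ((N : ℤ) - (y + 1 - n)) * a ^ (2 * ((N : ℤ) - 1 - 2 * ((x : ℤ) + n)))) +
            rn a N x (y + 1) (n + 1) * (br a ((x : ℤ) + n + 1) * br a ((N : ℤ) - (x + n + 1)))) •
            e2 (K := K) (y - n) (x + n) := by
        simp only [smul_add, smul_smul, Finset.sum_add_distrib, add_smul]
        rw [Finset.sum_range_succ _ (y + 1), Finset.sum_range_succ' _ (y + 1)]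
        simp only [Nat.sub_self, Nat.cast_zero, br_zero, zero_mul, mul_zero, zero_smul, add_zero,
          Nat.sub_zero]
        have h1 : ∀ n ∈ range (y + 1), (rn a N x (y + 1) n *
            (br a ((y + 1 - n : ℕ) : ℤ) * br a ((N : ℤ) - ((y + 1 - n : ℕ) : ℤ)) *
              a ^ (2 * hw N (x + n)))) • e2 (K := K) (y + 1 - n - 1) (x + n) =
            (rn a N x (y + 1) n * (br a ((y : ℤ) + 1 - n) *
            br a ((N : ℤ) - (y + 1 - n)) * a ^ (2 * ((N : ℤ) - 1 - 2 * ((x : ℤ) + n))))) •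
            e2 (K := K) (y - n) (x + n) := by
          intro n hn
          rw [Finset.mem_range] at hn
          rw [show y + 1 - n - 1 = y - n by omega, Nat.cast_sub (by omega : n ≤ y + 1)]
          unfold hw
          push_cast
          rfl
        have h2 : ∀ n ∈ range (y + 1), (rn a N x (y + 1) (n + 1) *
            (br a ((x + (n + 1) : ℕ) : ℤ) * br a ((N : ℤ) - ((x + (n + 1) : ℕ) : ℤ)))) •
              e2 (K := K) (y + 1 - (n + 1)) (x + (n + 1) - 1) =
            (rn a N x (y + 1) (n + 1) * (br a ((x : ℤ) + n + 1) * br a ((N : ℤ) - (x + n + 1)))) •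
            e2 (K := K) (y - n) (x + n) := by
          intro n hn
          rw [show y + 1 - (n + 1) = y - n by omega, show x + (n + 1) - 1 = x + n by omega]
          push_cast
          rw [← add_assoc]
        rw [Finset.sum_congr rfl h1, Finset.sum_congr rfl h2]
        abel
      rw [hR]
      simp only [Nat.add_sub_cancel]
      rcases x with _ | x
      · simp only [Nat.cast_zero, br_zero, zero_mul, zero_smul, mul_zero, zero_add,
          Finset.smul_sum, smul_smul, Finset.sum_const_zero]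
        apply Finset.sum_congr rfl
        intro n hn
        congr 1
        have e := key4 h N y n 0
        simp only [br_zero, zero_mul, add_zero, zero_add] at e
        simp only [hrn, hw, Nat.cast_zero, Nat.cast_add, Nat.cast_one] at e ⊢
        exact e
      · rw [Finset.sum_range_succ' _ (y + 1)]
        simp only [Nat.add_sub_cancel, Nat.add_zero, Nat.sub_zero, smul_add, Finset.smul_sum, smul_smul]
        have h3 : br a ((x + 1 : ℕ) : ℤ) * br a ((N : ℤ) - ((x + 1 : ℕ) : ℤ)) * a ^ (2 * hw N (y + 1)) *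
            rn a N x (y + 1) 0 =
            rn a N (x + 1) (y + 1) 0 * (br a ((x + 1 : ℕ) : ℤ) * br a ((N : ℤ) - ((x + 1 : ℕ) : ℤ))) := by
          unfold rn hw
          simp only [gb_zero_right, pr_zero, mul_one, pow_zero, one_mul]
          have e1 : (a : K) ^ (2 * ((N : ℤ) - 1 - 2 * ((y + 1 : ℕ) : ℤ))) *
              a ^ (-(((N : ℤ) - 1 - 2 * (x : ℤ)) * ((N : ℤ) - 1 - 2 * ((y + 1 : ℕ) : ℤ))) -
                ((0 : ℕ) : ℤ) * (((0 : ℕ) : ℤ) - 1)) =
              a ^ (-(((N : ℤ) - 1 - 2 * ((x + 1 : ℕ) : ℤ)) * ((N : ℤ) - 1 - 2 * ((y + 1 : ℕ) : ℤ))) -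
                ((0 : ℕ) : ℤ) * (((0 : ℕ) : ℤ) - 1)) := by
            rw [← zpow_add₀ ha]
            congr 1
            push_cast
            ring
          rw [mul_assoc, e1]
          ring
        rw [h3, add_comm (∑ _ ∈ _, _), add_assoc, ← Finset.sum_add_distrib]
        congr 1
        apply Finset.sum_congr rfl
        intro n hn
        rw [show x + (n + 1) = x + 1 + n by omega, show y + 1 - (n + 1) = y - n by omega, ← add_smul]
        congr 1
        have e := key4 h N y n ((x + 1 : ℕ) : ℤ)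
        rw [show (N : ℤ) - 1 - 2 * (((x + 1 : ℕ) : ℤ) - 1) = (N : ℤ) - 1 - 2 * (x : ℤ) by
          push_cast; ring] at e
        simp only [hrn, hw, Nat.cast_add, Nat.cast_one] at e ⊢
        exact e
  exact LinearMap.congr_fun this v

end Pool.Agent.CCurve
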