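import Pool.Agent.CCurve.Rec

/-!
# Operators with coefficients in `ℤ[q][Q]`
-/

namespace Pool.Agent.CCurve

open Polynomial

/-- evaluation at `Q = q^n` as a ring homomorphism -/
noncomputable def evH (n : ℕ) : ℤ[X][X] →+* 𝕂 :=
  Polynomial.eval₂RingHom (Polynomial.eval₂RingHom (Int.castRingHom 𝕂) qVar) (qVar ^ n)

theorem evalAt_eq (n : ℕ) (c : ℤ[X][X]) : evalAt n c = evH n c := rfl

/-- `Q ↦ q Q` -/
noncomputable def tau : ℤ[X][X] →+* ℤ[X][X] :=
  Polynomial.eval₂RingHom Polynomial.C (C X * X)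

/-- specialisation at `q = 1` -/
noncomputable def sp : ℤ[X][X] →+* ℂ[X] :=
  Polynomial.mapRingHom ((Int.castRingHom ℂ).comp (Polynomial.evalRingHom (1 : ℤ)))

@[simp] theorem evH_X (n : ℕ) : evH n X = qVar ^ n := by simp [evH]

@[simp] theorem evH_CX (n : ℕ) : evH n (C X) = qVar := by simp [evH]

@[simp] theorem tau_X : tau X = C X * X := by simp [tau]

@[simp] theorem tau_C (c : ℤ[X]) : tau (C c) = C c := by simp [tau]

@[simp] theorem sp_X : sp X = X := by simp [sp]

@[simp] theorem sp_CX : sp (C X) = 1 := by simp [sp]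

theorem evH_tau (n : ℕ) (c : ℤ[X][X]) : evH n (tau c) = evH (n + 1) c := by
  have : (evH n).comp tau = evH (n + 1) := by
    apply Polynomial.ringHom_ext
    · intro c
      simp [evH]
    · simp [pow_succ']
  exact RingHom.congr_fun this c

theorem sp_tau (c : ℤ[X][X]) : sp (tau c) = sp c := by
  have : sp.comp tau = sp := by
    apply Polynomial.ringHom_ext
    · intro c
      simp
    · simp
  exact RingHom.congr_fun this c

theorem generic_aVar : Generic aVar := by
  refine ⟨RatFunc.X_ne_zero, fun m hm h => ?_⟩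
  have h1 : algebraMap ℚ[X] 𝕂 (X ^ m) = algebraMap ℚ[X] 𝕂 1 := by
    rw [map_pow, map_one, RatFunc.algebraMap_X]
    exact h
  have h2 := RatFunc.algebraMap_injective ℚ h1
  have h3 := congrArg natDegree h2
  rw [natDegree_X_pow, natDegree_one] at h3
  omega

theorem qVar_ne_zero : qVar ≠ 0 := pow_ne_zero _ generic_aVar.ne_zero

theorem qVar_pow_injective : Function.Injective (fun n : ℕ => qVar ^ n) := by
  intro n m h
  simp only [qVar, ← pow_mul] at h
  by_contra hne
  have key : ∀ n m : ℕ, n < m → aVar ^ (4 * n) ≠ aVar ^ (4 * m) := by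
    intro n m hlt h
    obtain ⟨d, rfl⟩ := Nat.exists_eq_add_of_lt hlt
    apply generic_aVar.pow_ne_one (4 * (d + 1)) (by omega)
    have h2 : aVar ^ (4 * (n + d + 1)) = aVar ^ (4 * n) * aVar ^ (4 * (d + 1)) := by
      rw [← pow_add]; congr 1; ring
    rw [h2] at h
    have h3 : aVar ^ (4 * n) ≠ 0 := pow_ne_zero _ generic_aVar.ne_zero
    exact (mul_left_cancel₀ h3 (by rw [mul_one]; exact h)).symm
  rcases Nat.lt_or_gt_of_ne hne with hlt | hlt
  · exact key n m hlt h
  · exact key m n hlt h.symm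

theorem inner_injective :
    Function.Injective (Polynomial.eval₂RingHom (Int.castRingHom 𝕂) qVar) := by
  have h : Polynomial.eval₂RingHom (Int.castRingHom 𝕂) qVar =
      ((algebraMap ℚ[X] 𝕂).comp (Polynomial.expand ℚ 4 : ℚ[X] →+* ℚ[X])).comp
        (Polynomial.mapRingHom (Int.castRingHom ℚ)) := by
    apply Polynomial.ringHom_ext
    · intro c
      simp
    · simp [qVar, aVar]
  rw [h]
  intro x y hxy
  simp only [RingHom.comp_apply] at hxy
  have h1 := RatFunc.algebraMap_injective ℚ hxy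
  have h2 := Polynomial.expand_injective (R := ℚ) (n := 4) (by norm_num) h1
  exact Polynomial.map_injective _ (Int.cast_injective) h2

theorem eventually_ne_zero {g : ℤ[X][X]} (hg : g ≠ 0) : ∀ᶠ n in Filter.atTop, evH n g ≠ 0 := by
  set g' : 𝕂[X] := g.map (Polynomial.eval₂RingHom (Int.castRingHom 𝕂) qVar) with hg'
  have h0 : g' ≠ 0 := by
    intro h
    apply hg
    apply Polynomial.map_injective _ inner_injective
    rw [Polynomial.map_zero]
    exact h
  have h1 : ∀ n, evH n g = g'.eval (qVar ^ n) := by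
    intro n
    rw [hg', Polynomial.eval_map]
    rfl
  have h2 : {n : ℕ | evH n g = 0}.Finite := by
    have h3 : {n : ℕ | evH n g = 0} ⊆ (fun n : ℕ => qVar ^ n) ⁻¹' (g'.rootSet 𝕂) := by
      intro n hn
      simp only [Set.mem_preimage]
      rw [Polynomial.mem_rootSet]
      refine ⟨h0, ?_⟩
      rw [Polynomial.coe_aeval_eq_eval, ← h1]
      exact hn
    apply Set.Finite.subset _ h3
    apply Set.Finite.preimage qVar_pow_injective.injOn
    exact Polynomial.rootSet_finite _ _
  have h4 := h2.compl_mem_cofinite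
  rw [Nat.cofinite_eq_atTop] at h4
  exact h4

theorem sp_eq_zero {c : ℤ[X][X]} (h : sp c = 0) : C (X - 1) ∣ c := by
  rw [Polynomial.C_dvd_iff_dvd_coeff]
  intro i
  have h1 : (sp c).coeff i = 0 := by rw [h]; simp
  simp only [sp, Polynomial.coe_mapRingHom, Polynomial.coeff_map, RingHom.comp_apply,
    Polynomial.coe_evalRingHom, eq_intCast, Int.cast_eq_zero] at h1
  have h2 : (X - C (1 : ℤ)) ∣ c.coeff i := Polynomial.dvd_iff_isRoot.mpr h1
  simpa using h2

theorem piv_not_isUnit : ¬ IsUnit (C (X - 1) : ℤ[X][X]) := by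
  intro h
  have h1 := h.map sp
  simp at h1

theorem piv_ne_zero : (C (X - 1) : ℤ[X][X]) ≠ 0 := by
  intro h
  rw [Polynomial.C_eq_zero] at h
  exact Polynomial.X_sub_C_ne_zero (1 : ℤ) (by simpa using h)

end Pool.Agent.CCurve
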