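import Pool.Agent.CCurve.StateSum

/-!
# The `q`-difference equation of `s_n`
-/

namespace Pool.Agent.CCurve

open Finset

variable {K : Type*} [Field K] {a : K}

/-- `S_n(q^c) = ∑_j q^{j^2 + c j} (n choose j)_q` -/
noncomputable def SS (a : K) (n : ℕ) (c : ℤ) : K :=
  ∑ j ∈ range (n + 1), a ^ (4 * (j : ℤ) ^ 2 + 4 * c * j + 2 * j * ((n : ℤ) - j)) * gb a n j

theorem sk_eq (a : K) (n : ℕ) : sk a n = SS a n 1 := by
  unfold sk SS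
  apply Finset.sum_congr rfl
  intro j _
  congr 2
  ring

theorem SS_one (h : Generic a) (n : ℕ) (c : ℤ) :
    SS a (n + 1) c = SS a n c + a ^ (4 * ((n : ℤ) + 1 + c)) * SS a n (c + 1) := by
  have ha := h.ne_zero
  unfold SS
  rw [Finset.sum_range_succ']
  have h1 : ∀ j ∈ range (n + 1), a ^ (4 * ((j + 1 : ℕ) : ℤ) ^ 2 + 4 * c * ((j + 1 : ℕ) : ℤ) +
      2 * ((j + 1 : ℕ) : ℤ) * (((n + 1 : ℕ) : ℤ) - ((j + 1 : ℕ) : ℤ))) * gb a (n + 1) (j + 1) =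
      a ^ (4 * ((j + 1 : ℕ) : ℤ) ^ 2 + 4 * c * ((j + 1 : ℕ) : ℤ) +
        2 * ((j + 1 : ℕ) : ℤ) * ((n : ℤ) - ((j + 1 : ℕ) : ℤ))) * gb a n (j + 1) +
      a ^ (4 * ((n : ℤ) + 1 + c)) * (a ^ (4 * (j : ℤ) ^ 2 + 4 * (c + 1) * j + 2 * j * ((n : ℤ) - j)) *
        gb a n j) := by
    intro j _
    have hp := gb_pascal h.inv n j
    simp only [gb_inv, inv_zpow, ← zpow_neg, neg_neg] at hp
    rw [hp, mul_add, ← mul_assoc, ← mul_assoc, ← mul_assoc, ← zpow_add₀ ha, ← zpow_add₀ ha,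
      ← zpow_add₀ ha, add_comm]
    congr 3
    · push_cast; ring
    · push_cast; ring
  rw [Finset.sum_congr rfl h1, Finset.sum_add_distrib, ← Finset.mul_sum]
  have h2 : ∑ j ∈ range (n + 1), a ^ (4 * (j : ℤ) ^ 2 + 4 * c * j + 2 * j * ((n : ℤ) - j)) * gb a n j =
      ∑ j ∈ range (n + 1), a ^ (4 * ((j + 1 : ℕ) : ℤ) ^ 2 + 4 * c * ((j + 1 : ℕ) : ℤ) +
        2 * ((j + 1 : ℕ) : ℤ) * ((n : ℤ) - ((j + 1 : ℕ) : ℤ))) * gb a n (j + 1) + 1 := by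
    rw [← add_zero (∑ j ∈ range (n + 1), a ^ (4 * (j : ℤ) ^ 2 + 4 * c * j + 2 * j * ((n : ℤ) - j)) * gb a n j)]
    have : (0 : K) = a ^ (4 * ((n + 1 : ℕ) : ℤ) ^ 2 + 4 * c * ((n + 1 : ℕ) : ℤ) +
        2 * ((n + 1 : ℕ) : ℤ) * ((n : ℤ) - ((n + 1 : ℕ) : ℤ))) * gb a n (n + 1) := by
      rw [gb_eq_zero a (Nat.lt_succ_self n), mul_zero]
    rw [this, ← Finset.sum_range_succ, Finset.sum_range_succ']
    simp
  rw [h2]
  simp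
  ring

theorem SS_two (h : Generic a) (n : ℕ) (c : ℤ) :
    SS a (n + 1) c = SS a n (c + 1) + a ^ (4 * (1 + c)) * SS a n (c + 2) := by
  have ha := h.ne_zero
  unfold SS
  rw [Finset.sum_range_succ']
  have h1 : ∀ j ∈ range (n + 1), a ^ (4 * ((j + 1 : ℕ) : ℤ) ^ 2 + 4 * c * ((j + 1 : ℕ) : ℤ) +
      2 * ((j + 1 : ℕ) : ℤ) * (((n + 1 : ℕ) : ℤ) - ((j + 1 : ℕ) : ℤ))) * gb a (n + 1) (j + 1) =
      a ^ (4 * ((j + 1 : ℕ) : ℤ) ^ 2 + 4 * (c + 1) * ((j + 1 : ℕ) : ℤ) +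
        2 * ((j + 1 : ℕ) : ℤ) * ((n : ℤ) - ((j + 1 : ℕ) : ℤ))) * gb a n (j + 1) +
      a ^ (4 * (1 + c)) * (a ^ (4 * (j : ℤ) ^ 2 + 4 * (c + 2) * j + 2 * j * ((n : ℤ) - j)) *
        gb a n j) := by
    intro j _
    rw [gb_pascal h, mul_add, ← mul_assoc, ← mul_assoc, ← mul_assoc, ← zpow_add₀ ha, ← zpow_add₀ ha,
      ← zpow_add₀ ha, add_comm]
    congr 3
    · push_cast; ring
    · push_cast; ring
  rw [Finset.sum_congr rfl h1, Finset.sum_add_distrib, ← Finset.mul_sum]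
  have h2 : ∑ j ∈ range (n + 1), a ^ (4 * (j : ℤ) ^ 2 + 4 * (c + 1) * j + 2 * j * ((n : ℤ) - j)) * gb a n j =
      ∑ j ∈ range (n + 1), a ^ (4 * ((j + 1 : ℕ) : ℤ) ^ 2 + 4 * (c + 1) * ((j + 1 : ℕ) : ℤ) +
        2 * ((j + 1 : ℕ) : ℤ) * ((n : ℤ) - ((j + 1 : ℕ) : ℤ))) * gb a n (j + 1) + 1 := by
    rw [← add_zero (∑ j ∈ range (n + 1), a ^ (4 * (j : ℤ) ^ 2 + 4 * (c + 1) * j + 2 * j * ((n : ℤ) - j)) * gb a n j)]
    have : (0 : K) = a ^ (4 * ((n + 1 : ℕ) : ℤ) ^ 2 + 4 * (c + 1) * ((n + 1 : ℕ) : ℤ) +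
        2 * ((n + 1 : ℕ) : ℤ) * ((n : ℤ) - ((n + 1 : ℕ) : ℤ))) * gb a n (n + 1) := by
      rw [gb_eq_zero a (Nat.lt_succ_self n), mul_zero]
    rw [this, ← Finset.sum_range_succ, Finset.sum_range_succ']
    simp
  rw [h2]
  simp
  ring

theorem sk_rec (h : Generic a) (n : ℕ) :
    sk a (n + 2) = (1 + a ^ 4 - a ^ (4 * (n + 2)) + a ^ (4 * (2 * n + 4))) * sk a (n + 1) -
      a ^ 4 * (1 - a ^ (4 * (n + 1))) * sk a n := by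
  have ha := h.ne_zero
  have e1 := SS_one h n 1
  have e2 := SS_one h n 2
  have e3 := SS_two h n 1
  have e4 := SS_one h (n + 1) 1
  norm_num at e1 e2 e3 e4
  simp only [sk_eq]
  have z1 : ∀ m : ℕ, a ^ (4 * ((n : ℤ) + 1 + m)) = a ^ (4 * (n + 1 + m)) := by
    intro m
    rw [← zpow_natCast]
    push_cast
    rfl
  have z2 := z1 1
  have z3 := z1 2
  have z4 : a ^ (4 * ((n : ℤ) + 1 + 1 + 1)) = a ^ (4 * (n + 1 + 2)) := by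
    rw [← z3]; congr 1
  norm_num at z2 z3 z4
  rw [z2] at e1
  rw [z3] at e2
  rw [z4] at e4
  have z6 : a ^ (4 * (n + 1 + 1)) ≠ 0 := pow_ne_zero _ ha
  have z7 : (a ^ 8 : K) ≠ 0 := pow_ne_zero _ ha
  rw [e4, e2]
  have e5 : a ^ (4 * (n + 1 + 1)) * SS a n 2 = SS a (n + 1) 1 - SS a n 1 := by rw [e1]; ring
  have e6 : a ^ 8 * SS a n 3 = SS a (n + 1) 1 - SS a n 2 := by rw [e3]; ring
  have p1 : a ^ (4 * (n + 1 + 2)) = a ^ 4 * a ^ (4 * (n + 1 + 1)) := by ring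
  have p2 : a ^ (4 * (n + 2)) = a ^ (4 * (n + 1 + 1)) := by ring
  have p3 : a ^ (4 * (2 * n + 4)) = a ^ (4 * (n + 1 + 1)) * a ^ (4 * (n + 1 + 1)) := by ring
  have p4 : a ^ 4 * a ^ (4 * (n + 1)) = a ^ (4 * (n + 1 + 1)) := by ring
  have p5 : a ^ (4 * (n + 1 + 2)) = a ^ 8 * a ^ (4 * (n + 1)) := by ring
  calc _ = SS a (n + 1) 1 + a ^ 4 * (a ^ (4 * (n + 1 + 1)) * SS a n 2) +
        a ^ (4 * (n + 1 + 2)) * a ^ (4 * (n + 1)) * (a ^ 8 * SS a n 3) := by rw [p5]; ring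
    _ = SS a (n + 1) 1 + a ^ 4 * (SS a (n + 1) 1 - SS a n 1) +
        a ^ 4 * a ^ (4 * (n + 1)) * (a ^ (4 * (n + 1 + 1)) * SS a (n + 1) 1 -
          a ^ (4 * (n + 1 + 1)) * SS a n 2) := by
        linear_combination (a ^ 4) * e5 + (a ^ (4 * (n + 1 + 2)) * a ^ (4 * (n + 1))) * e6
    _ = _ := by
        linear_combination (-(a ^ (4 * (n + 1 + 1)))) * e5

end Pool.Agent.CCurve
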