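import Pool.Agent.CCurve.Annih
import Pool.Agent.CCurve.Powers

/-!
# There are no relations
-/

namespace Pool.Agent.CCurve

open Polynomial

variable {W : Type*} [Field W] {φ : ℂ[X] →+* W} {u v : W}

/-- the eigenvector (scaled) -/
noncomputable def eta (φ : ℂ[X] →+* W) (u v : W) : Fin 4 → W :=
  ![4 * φ X ^ 2, 2 * φ X ^ 2 * gp φ u, 2 * gr φ v, gp φ u * gr φ v]

/-- pairing with the eigenvector -/
noncomputable def pair (φ : ℂ[X] →+* W) (u v : W) (c : Fin 4 → ℂ[X]) : W :=
  ∑ i, φ (c i) * eta φ u v i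

theorem sp_al : sp al = A1 := by
  unfold al A1
  simp only [map_add, map_sub, map_mul, map_pow, map_one, sp_CX, sp_X]
  ring

theorem sp_be : sp be = B1 := by
  unfold be B1
  simp only [map_sub, map_mul, map_pow, sp_CX, sp_X]
  ring

theorem sp_al' : sp al' = A2 := by
  unfold al' A2
  simp only [map_add, map_sub, map_mul, map_pow, map_one, sp_CX, sp_X]
  ring

theorem sp_be' : sp be' = B2 := by
  unfold be' B2
  simp only [map_sub, map_mul, map_pow, sp_CX, sp_X]
  ring

namespace Biquad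

theorem gp_sq (h : Biquad φ u v) : gp φ u ^ 2 = 2 * φ A1 * gp φ u - 4 * φ B1 := by
  have h1 := h.hu
  simp only [gp, D1, A1, B1, map_add, map_sub, map_mul, map_pow, map_one, map_ofNat] at h1 ⊢
  linear_combination (φ X) ^ 2 * h1

theorem gr_sq (h : Biquad φ u v) :
    gr φ v ^ 2 = 2 * φ A2 * gr φ v - 4 * φ X ^ 2 * φ B2 := by
  have h1 := h.hv
  simp only [gr, D2, A2, B2, map_add, map_sub, map_mul, map_pow, map_one, map_ofNat] at h1 ⊢
  linear_combination h1

theorem eig (h : Biquad φ u v) (k : Fin 4) :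
    4 * ∑ i, φ (sp (MM k i)) * eta φ u v i = gp φ u * gr φ v * eta φ u v k := by
  have h1 := h.gp_sq
  have h2 := h.gr_sq
  fin_cases k
  · simp [Fin.sum_univ_succ, MM, eta, sp_dl]
    ring
  · simp [Fin.sum_univ_succ, MM, eta, sp_dl, sp_al, sp_be]
    linear_combination (-(2 * φ X ^ 2 * gr φ v)) * h1
  · simp [Fin.sum_univ_succ, MM, eta, sp_al', sp_be']
    linear_combination (-(2 * gp φ u)) * h2
  · simp [Fin.sum_univ_succ, MM, eta, sp_al, sp_be, sp_al', sp_be']
    linear_combination (-(gr φ v ^ 2)) * h1 - (2 * φ A1 * gp φ u - 4 * φ B1) * h2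

theorem pair_nxt (h : Biquad φ u v) (w : Fin 4 → ℤ[X][X]) :
    4 * pair φ u v (fun i => sp (nxt w i)) =
      gp φ u * gr φ v * pair φ u v (fun i => sp (w i)) := by
  unfold pair nxt
  simp only [map_sum, map_mul, sp_tau, Finset.sum_mul]
  rw [Finset.sum_comm]
  calc 4 * ∑ k, ∑ i, φ (sp (w k)) * φ (sp (MM k i)) * eta φ u v i
      = ∑ k, φ (sp (w k)) * (4 * ∑ i, φ (sp (MM k i)) * eta φ u v i) := by
        simp only [Finset.mul_sum]
        apply Finset.sum_congr rfl
        intro k _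
        apply Finset.sum_congr rfl
        intro i _
        ring
    _ = _ := by
        simp only [h.eig, Finset.mul_sum]
        apply Finset.sum_congr rfl
        intro k _
        ring

theorem X_ne (h : Biquad φ u v) : φ X ≠ 0 := by
  intro h0
  apply X_ne_zero (R := ℂ)
  exact h.inj (by rw [h0, map_zero])

theorem C_ne (h : Biquad φ u v) (n : ℕ) (hn : n ≠ 0) : (n : W) ≠ 0 := by
  intro h0
  have h1 : φ (n : ℂ[X]) = φ 0 := by rw [map_natCast, h0, map_zero]
  have h2 := h.inj h1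
  exact hn (by exact_mod_cast h2)

theorem pair_eq_zero (h : Biquad φ u v) {c : Fin 4 → ℂ[X]} (e : pair φ u v c = 0) : c = 0 := by
  have e1 : φ (4 * X ^ 2 * c 0 + 2 * X ^ 2 * A1 * c 1 + 2 * A2 * c 2 + A1 * A2 * c 3) +
      φ (2 * X ^ 3 * c 1 + X * A2 * c 3) * u + φ (2 * c 2 + A1 * c 3) * v +
      φ (X * c 3) * (u * v) = 0 := by
    rw [← e]
    simp [pair, Fin.sum_univ_succ, eta, gp, gr, map_ofNat φ]
    ring
  obtain ⟨h0, h1, h2, h3⟩ := h.indep e1
  have hX : (X : ℂ[X]) ≠ 0 := X_ne_zero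
  have h2' : (2 : ℂ[X]) ≠ 0 := two_ne_zero
  have h4' : (4 : ℂ[X]) ≠ 0 := by exact_mod_cast (four_ne_zero : (4 : ℕ) ≠ 0)
  have c3 : c 3 = 0 := (mul_eq_zero.mp h3).resolve_left hX
  rw [c3, mul_zero, add_zero] at h2 h1 h0
  have c2 : c 2 = 0 := (mul_eq_zero.mp h2).resolve_left h2'
  have c1 : c 1 = 0 := (mul_eq_zero.mp h1).resolve_left (mul_ne_zero h2' (pow_ne_zero 3 hX))
  rw [c1, c2, mul_zero, mul_zero, add_zero, add_zero] at h0
  have c0 : c 0 = 0 := (mul_eq_zero.mp h0).resolve_left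
    (mul_ne_zero h4' (pow_ne_zero 2 hX))
  funext i
  fin_cases i
  · exact c0
  · exact c1
  · exact c2
  · exact c3

theorem pair_iter (h : Biquad φ u v) (w : Fin 4 → ℤ[X][X]) (j : ℕ) :
    4 ^ j * pair φ u v (fun i => sp (nxt^[j] w i)) =
      (gp φ u * gr φ v) ^ j * pair φ u v (fun i => sp (w i)) := by
  induction j with
  | zero => simp
  | succ j ih =>
    rw [Function.iterate_succ_apply', pow_succ, mul_assoc, h.pair_nxt, pow_succ]
    linear_combination (gp φ u * gr φ v) * ih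

theorem rel_sp (h : Biquad φ u v) {w : Fin 4 → ℤ[X][X]} (hw : Rel w) :
    (fun i => sp (w i)) = 0 := by
  by_contra hne
  have hp : pair φ u v (fun i => sp (w i)) ≠ 0 := fun h0 => hne (h.pair_eq_zero h0)
  have hrel : ∀ j : ℕ, Rel (nxt^[j] w) := by
    intro j
    induction j with
    | zero => exact hw
    | succ j ih =>
      rw [Function.iterate_succ_apply']
      exact ih.nxt
  set M : Matrix (Fin 4) (Fin 4) ℤ[X][X] := Matrix.of fun j => nxt^[(j : ℕ)] w with hM
  have hdet : M.det = 0 := Rel.det (fun j => hrel j)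
  have hdet2 : (sp.mapMatrix M).det = 0 := by
    rw [← RingHom.map_det, hdet, map_zero]
  rw [← Matrix.exists_vecMul_eq_zero_iff] at hdet2
  obtain ⟨c, hc, hcM⟩ := hdet2
  apply hc
  have e1 : ∀ i, ∑ j, c j * sp (nxt^[(j : ℕ)] w i) = 0 := by
    intro i
    have := congrFun hcM i
    rw [Matrix.vecMul, dotProduct] at this
    exact this
  have e2 : ∑ j : Fin 4, φ (c j) * pair φ u v (fun i => sp (nxt^[(j : ℕ)] w i)) = 0 := by
    unfold pair
    simp only [Finset.mul_sum]
    rw [Finset.sum_comm]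
    apply Finset.sum_eq_zero
    intro i _
    have := congrArg (fun x => φ x * eta φ u v i) (e1 i)
    simp only [map_sum, map_mul, Finset.sum_mul, map_zero, zero_mul] at this
    rw [← this]
    apply Finset.sum_congr rfl
    intro j _
    ring
  have e3 : ∑ j : Fin 4, φ (c j * 4 ^ (3 - (j : ℕ))) * (gp φ u * gr φ v) ^ (j : ℕ) = 0 := by
    have e4 : (∑ j : Fin 4, φ (c j * 4 ^ (3 - (j : ℕ))) * (gp φ u * gr φ v) ^ (j : ℕ)) *
        pair φ u v (fun i => sp (w i)) = 0 := by
      rw [Finset.sum_mul]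
      have e5 : 4 ^ 3 * ∑ j : Fin 4, φ (c j) * pair φ u v (fun i => sp (nxt^[(j : ℕ)] w i)) = 0 := by
        rw [e2, mul_zero]
      rw [← e5, Finset.mul_sum]
      apply Finset.sum_congr rfl
      intro j _
      rw [mul_assoc, ← h.pair_iter w j, map_mul, map_pow, map_ofNat]
      have e6 : (4 : W) ^ 3 = 4 ^ (3 - (j : ℕ)) * 4 ^ (j : ℕ) := by
        rw [← pow_add]
        congr 1
        omega
      rw [e6]
      ring
    exact (mul_eq_zero.mp e4).resolve_right hp
  have e7 := h.indep_pow _ e3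
  funext j
  have e8 := congrFun e7 j
  have h4' : (4 : ℂ[X]) ≠ 0 := by exact_mod_cast (four_ne_zero : (4 : ℕ) ≠ 0)
  exact (mul_eq_zero.mp e8).resolve_right (pow_ne_zero _ h4')

theorem rel_zero (h : Biquad φ u v) {w : Fin 4 → ℤ[X][X]} (hw : Rel w) : w = 0 := by
  by_contra hne
  obtain ⟨i, hi⟩ : ∃ i, w i ≠ 0 := by
    by_contra hcon
    push Not at hcon
    exact hne (funext hcon)
  have key : ∀ m : ℕ, ∀ w : Fin 4 → ℤ[X][X], Rel w → w i ≠ 0 →
      ¬ (C (X - 1) : ℤ[X][X]) ^ (m + 1) ∣ w i → False := by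
    intro m
    induction m with
    | zero =>
      intro w hw hi hd
      apply hd
      rw [zero_add, pow_one]
      exact sp_eq_zero (congrFun (h.rel_sp hw) i)
    | succ m ih =>
      intro w hw hi hd
      have h1 : ∀ k, (C (X - 1) : ℤ[X][X]) ∣ w k := fun k => sp_eq_zero (congrFun (h.rel_sp hw) k)
      choose w' hw' using h1
      have h2 : Rel w' := by
        apply Rel.div piv_ne_zero
        rwa [show (fun i => (C (X - 1) : ℤ[X][X]) * w' i) = w from funext (fun k => (hw' k).symm)]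
      apply ih w' h2
      · intro h0
        apply hi
        rw [hw', h0, mul_zero]
      · intro h3
        apply hd
        rw [hw' i, pow_succ']
        exact mul_dvd_mul_left _ h3
  obtain ⟨m, hm⟩ := FiniteMultiplicity.of_not_isUnit piv_not_isUnit hi
  exact key m w hw hi hm

end Biquad

end Pool.Agent.CCurve
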