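import Pool.Agent.CCurve.Triple

/-!
# The split basis
-/

namespace Pool.Agent.CCurve

open Finset

variable {K : Type*} [Field K] {a : K}

/-- cup coefficients -/
noncomputable def cI (a : K) (m x : ℕ) : K := (-1) ^ x * a ^ (2 * (x : ℤ) * ((m : ℤ) - 1 - x))

theorem cI_succ (h : Generic a) (m x : ℕ) : cI a m (x + 1) = - (cI a m x * a ^ (2 * hw (m + 1) x - 4)) := by
  unfold cI
  rw [mul_assoc ((-1) ^ x), ← zpow_add₀ h.ne_zero, pow_succ]
  have : (2 * ((x + 1 : ℕ) : ℤ) * ((m : ℤ) - 1 - ((x + 1 : ℕ) : ℤ))) =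
      2 * (x : ℤ) * ((m : ℤ) - 1 - x) + (2 * hw (m + 1) x - 4) := by
    unfold hw; push_cast; ring
  rw [this]
  ring

@[simp] theorem cI_zero (a : K) (m : ℕ) : cI a m 0 = 1 := by simp [cI]

theorem cI_ne_zero (h : Generic a) (m x : ℕ) : cI a m x ≠ 0 := by
  unfold cI
  exact mul_ne_zero (pow_ne_zero _ (neg_ne_zero.mpr one_ne_zero)) (zpow_ne_zero _ h.ne_zero)

/-- the invariant vector -/
noncomputable def cupv (a : K) (m : ℕ) : V2 K := ∑ x ∈ range (m + 1), cI a m x • e2 x (m - x)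

theorem Ac_sub (a : K) {m x : ℕ} (hx : x ≤ m) : Ac a (m + 1) (m - x) = Ac a (m + 1) (x + 1) := by
  unfold Ac
  rw [Nat.cast_sub hx, mul_comm]
  congr 2 <;> (push_cast; ring)

theorem shiftL (a : K) (m : ℕ) (c : ℕ → K) :
    ∑ x ∈ range (m + 1), (c x * Ac a (m + 1) x) • e2 (K := K) (x - 1) (m - x + 1) =
      ∑ x ∈ range (m + 1), (c (x + 1) * Ac a (m + 1) (x + 1)) • e2 (K := K) x (m - x) := by
  rw [Finset.sum_range_succ', Finset.sum_range_succ _ m]
  simp only [Ac_zero, Ac_self, mul_zero, zero_smul, add_zero]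
  apply Finset.sum_congr rfl
  intro x hx
  rw [Finset.mem_range] at hx
  rw [Nat.add_sub_cancel, show m - (x + 1) + 1 = m - x by omega]

theorem shiftR (a : K) (m : ℕ) (c d : ℕ → K) (h0 : d 0 = 0)
    (h1 : ∀ x, x < m → d (x + 1) = c x * Ac a (m + 1) (m - x)) :
    ∑ x ∈ range (m + 1), (c x * Ac a (m + 1) (m - x)) • e2 (K := K) (x + 1) (m - x - 1) =
      ∑ x ∈ range (m + 1), d x • e2 (K := K) x (m - x) := by
  rw [Finset.sum_range_succ, Finset.sum_range_succ' _ m]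
  simp only [Nat.sub_self, Ac_zero, mul_zero, zero_smul, add_zero, h0]
  apply Finset.sum_congr rfl
  intro x hx
  rw [Finset.mem_range] at hx
  rw [h1 x hx, show m - (x + 1) = m - x - 1 by omega]

theorem E2_cupv (h : Generic a) (m : ℕ) : E2 a (m + 1) (cupv a m) = 0 := by
  unfold cupv
  rw [map_sum]
  simp only [map_smul, E2_e2, smul_add, smul_smul, Finset.sum_add_distrib]
  rw [Finset.sum_range_succ', Finset.sum_range_succ _ m]
  simp only [Ac_zero, mul_zero, zero_mul, zero_smul, add_zero, Nat.sub_self]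
  rw [← Finset.sum_add_distrib]
  apply Finset.sum_eq_zero
  intro x hx
  rw [Finset.mem_range] at hx
  rw [Nat.add_sub_cancel, show m - (x + 1) = m - x - 1 by omega, ← add_smul, Ac_sub a (by omega), cI_succ h]
  have e1 : a ^ (2 * hw (m + 1) x - 4) * a ^ (2 * hw (m + 1) (m - x - 1)) = 1 := by
    rw [← zpow_add₀ h.ne_zero]
    have : 2 * hw (m + 1) x - 4 + 2 * hw (m + 1) (m - x - 1) = 0 := by
      unfold hw
      push_cast
      omega
    rw [this, zpow_zero]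
  rw [show -(cI a m x * a ^ (2 * hw (m + 1) x - 4)) * (Ac a (m + 1) (x + 1) * a ^ (2 * hw (m + 1) (m - x - 1))) +
      cI a m x * Ac a (m + 1) (x + 1) = cI a m x * Ac a (m + 1) (x + 1) *
      (1 - a ^ (2 * hw (m + 1) x - 4) * a ^ (2 * hw (m + 1) (m - x - 1))) by ring, e1]
  simp

/-- `κ_l` -/
noncomputable def kap (a : K) (m l : ℕ) : K := a ^ (2 * (l : ℤ) * m) * ∏ t ∈ range l, br a ((m : ℤ) - t)

theorem kap_succ (h : Generic a) (m l : ℕ) : kap a m (l + 1) = kap a m l * (a ^ (2 * (m : ℤ)) * br a ((m : ℤ) - l)) := by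
  unfold kap
  rw [Finset.prod_range_succ]
  have : a ^ (2 * ((l + 1 : ℕ) : ℤ) * m) = a ^ (2 * (l : ℤ) * m) * a ^ (2 * (m : ℤ)) := by
    rw [← zpow_add₀ h.ne_zero]; congr 1; push_cast; ring
  rw [this]; ring

/-- the polynomials `g_l(x)` -/
noncomputable def gI (a : K) (m l : ℕ) (x : ℤ) : K := kap a m l * a ^ (-(2 * (l : ℤ) * x)) * pr a (x + 1) l

/-- slices of the split basis -/
noncomputable def Gv (a : K) (m l : ℕ) : V2 K := ∑ x ∈ range (m + 1), (cI a m x * gI a m l x) • e2 x (m - x)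

theorem Gv_zero (a : K) (m : ℕ) : Gv a m 0 = cupv a m := by
  simp [Gv, cupv, gI, kap]

/-- the action of the Casimir operator of the last two factors on slices -/
noncomputable def B0 (a : K) (N : ℕ) : V2 K →ₗ[K] V2 K :=
  lin (fun x y => (-(Ac a N x * a ^ (2 * (hw N y + hw N 0)))) • e2 (x - 1) (y + 1) +
    fw a (hw N y + hw N 0) • e2 x y)

theorem pr_shift (a : K) (x : ℤ) (l : ℕ) : br a x * pr a (x + 1) l = pr a x l * br a (x + l) := by
  rw [← pr_succ', pr_succ]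

theorem B0_Gv (h : Generic a) (m l : ℕ) :
    B0 a (m + 1) (Gv a m l) = lam a l • Gv a m l + Gv a m (l + 1) := by
  have ha := h.ne_zero
  unfold Gv
  rw [map_sum]
  simp only [map_smul, B0, lin_e2, smul_add, smul_smul, Finset.sum_add_distrib]
  have h1 : ∀ x ∈ range (m + 1), (cI a m x * gI a m l x * -(Ac a (m + 1) x *
      a ^ (2 * (hw (m + 1) (m - x) + hw (m + 1) 0)))) • e2 (K := K) (x - 1) (m - x + 1) =
      ((-(cI a m x * gI a m l x * a ^ (4 * (x : ℤ)))) * Ac a (m + 1) x) • e2 (K := K) (x - 1) (m - x + 1) := by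
    intro x hx
    rw [Finset.mem_range] at hx
    rw [show 2 * (hw (m + 1) (m - x) + hw (m + 1) 0) = 4 * (x : ℤ) by unfold hw; push_cast; omega]
    congr 1
    ring
  rw [Finset.sum_congr rfl h1, shiftL a m (fun x => -(cI a m x * gI a m l x * a ^ (4 * (x : ℤ)))),
    ← Finset.sum_add_distrib, Finset.smul_sum, ← Finset.sum_add_distrib]
  apply Finset.sum_congr rfl
  intro x hx
  rw [Finset.mem_range] at hx
  rw [← add_smul, smul_smul, ← add_smul]
  congr 1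
  rw [show hw (m + 1) (m - x) + hw (m + 1) 0 = 2 * (x : ℤ) by unfold hw; push_cast; omega, cI_succ h]
  have key : fw a (2 * (x : ℤ)) + a ^ (2 * (m : ℤ) - 2 * l) * (br a ((x : ℤ) + 1 + l) * br a ((m : ℤ) - x)) =
      lam a l + a ^ (2 * (m : ℤ) - 2 * x) * (br a ((m : ℤ) - l) * br a ((x : ℤ) + 1 + l)) := by
    unfold fw lam br
    simp only [mul_sub, sub_mul, ← zpow_add₀ ha]
    ring_nf
  unfold gI
  rw [kap_succ h, pr_succ]
  have e1 := pr_shift a ((x : ℤ) + 1) l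
  unfold Ac
  rw [show ((m + 1 : ℕ) : ℤ) - ((x + 1 : ℕ) : ℤ) = (m : ℤ) - x by push_cast; ring]
  push_cast
  set P := pr a ((x : ℤ) + 1) l
  set κ := kap a m l
  set c := cI a m x
  have e2 : a ^ (2 * hw (m + 1) x - 4) * a ^ (-(2 * (l : ℤ) * ((x : ℤ) + 1))) * a ^ (4 * ((x : ℤ) + 1)) =
      a ^ (-(2 * (l : ℤ) * x)) * a ^ (2 * (m : ℤ) - 2 * l) := by
    rw [← zpow_add₀ ha, ← zpow_add₀ ha, ← zpow_add₀ ha]
    congr 1
    unfold hw; push_cast; ring
  have e3 : a ^ (2 * (m : ℤ)) * a ^ (-(2 * ((l : ℤ) + 1) * x)) = a ^ (-(2 * (l : ℤ) * x)) * a ^ (2 * (m : ℤ) - 2 * x) := by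
    rw [← zpow_add₀ ha, ← zpow_add₀ ha]
    congr 1
    ring
  calc _ = κ * c * (a ^ (2 * hw (m + 1) x - 4) * a ^ (-(2 * (l : ℤ) * ((x : ℤ) + 1))) * a ^ (4 * ((x : ℤ) + 1))) *
        (br a ((x : ℤ) + 1) * pr a ((x : ℤ) + 1 + 1) l) * br a ((m : ℤ) - x) +
        κ * c * a ^ (-(2 * (l : ℤ) * x)) * P * fw a (2 * (x : ℤ)) := by ring
    _ = κ * c * a ^ (-(2 * (l : ℤ) * x)) * P * (fw a (2 * (x : ℤ)) + a ^ (2 * (m : ℤ) - 2 * l) *
        (br a ((x : ℤ) + 1 + l) * br a ((m : ℤ) - x))) := by rw [e2, e1]; ring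
    _ = κ * c * a ^ (-(2 * (l : ℤ) * x)) * P * lam a l + κ * c * (a ^ (-(2 * (l : ℤ) * x)) *
        a ^ (2 * (m : ℤ) - 2 * x)) * P * (br a ((m : ℤ) - l) * br a ((x : ℤ) + 1 + l)) := by
          rw [key]; ring
    _ = _ := by rw [← e3]; ring

theorem C2_Gv_aux (h : Generic a) (m l : ℕ) :
    C2 a (m + 1) (Gv a m l) = ∑ x ∈ range (m + 1), (cI a m x * (lam a 0 * gI a m l x + a ^ (-(2 * hw (m + 1) x)) *
      (Ac a (m + 1) x * (gI a m l x - gI a m l ((x : ℤ) - 1)) +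
        Ac a (m + 1) (x + 1) * (gI a m l x - gI a m l ((x : ℤ) + 1))))) • e2 (K := K) x (m - x) := by
  have ha := h.ne_zero
  have h1 : ∀ x ∈ range (m + 1), C2 a (m + 1) (e2 (K := K) x (m - x)) =
      (Ac a (m + 1) x * a ^ (-(2 * hw (m + 1) x)) + Ac a (m + 1) (x + 1) * a ^ (-(2 * hw (m + 1) x)) + lam a 0) •
        e2 (K := K) x (m - x) +
      (a ^ (-(4 * hw (m + 1) x) - 4) * Ac a (m + 1) x) • e2 (K := K) (x - 1) (m - x + 1) +
      (Ac a (m + 1) (m - x)) • e2 (K := K) (x + 1) (m - x - 1) := by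
    intro x hx
    rw [Finset.mem_range] at hx
    have hx' : ∀ c : K, (Ac a (m + 1) x * c) • e2 (K := K) (x - 1 + 1) (m - x) =
        (Ac a (m + 1) x * c) • e2 x (m - x) := by
      intro c
      rcases x with _ | x
      · simp
      · rfl
    have hx'' : Ac a (m + 1) x * a ^ (2 * hw (m + 1) (m - x)) * a ^ (-(2 * hw (m + 1) (x - 1))) =
        a ^ (-(4 * hw (m + 1) x) - 4) * Ac a (m + 1) x := by
      rcases x with _ | x
      · simp
      · rw [mul_assoc, ← zpow_add₀ ha, mul_comm]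
        congr 2
        unfold hw
        push_cast
        omega
    have hy' : (Ac a (m + 1) (m - x) * a ^ (-(2 * hw (m + 1) x))) • e2 (K := K) x (m - x - 1 + 1) =
        (Ac a (m + 1) (x + 1) * a ^ (-(2 * hw (m + 1) x))) • e2 x (m - x) := by
      by_cases hxm : x = m
      · subst hxm; simp
      · rw [show m - x - 1 + 1 = m - x by omega, Ac_sub a (by omega)]
    have hz' : a ^ (2 * hw (m + 1) (m - x)) = a ^ (-(2 * hw (m + 1) x)) := by
      congr 1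
      unfold hw
      push_cast
      omega
    unfold C2
    simp only [LinearMap.add_apply, LinearMap.comp_apply, E2_e2, F2, wt2, lin_e2, map_add, map_smul,
      smul_add, smul_smul]
    rw [hx', hx'', hy', hz', show hw (m + 1) x + hw (m + 1) (m - x) = 0 by unfold hw; push_cast; omega,
      show fw a 0 = lam a 0 by rfl]
    module
  unfold Gv
  rw [map_sum]
  simp only [map_smul]
  rw [Finset.sum_congr rfl (fun x hx => by rw [h1 x hx])]
  simp only [smul_add, smul_smul, Finset.sum_add_distrib]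
  have h2 : ∀ x ∈ range (m + 1), (cI a m x * gI a m l x * (a ^ (-(4 * hw (m + 1) x) - 4) * Ac a (m + 1) x)) •
      e2 (K := K) (x - 1) (m - x + 1) = ((cI a m x * gI a m l x * a ^ (-(4 * hw (m + 1) x) - 4)) *
      Ac a (m + 1) x) • e2 (K := K) (x - 1) (m - x + 1) := by
    intro x _
    rw [mul_assoc (cI a m x * gI a m l x)]
  rw [Finset.sum_congr rfl h2, shiftL a m (fun x => cI a m x * gI a m l x * a ^ (-(4 * hw (m + 1) x) - 4)),
    shiftR a m (fun x => cI a m x * gI a m l x)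
      (fun x => -(cI a m x * a ^ (-(2 * hw (m + 1) x)) * gI a m l ((x : ℤ) - 1) * Ac a (m + 1) x)),
    ← Finset.sum_add_distrib, ← Finset.sum_add_distrib]
  · apply Finset.sum_congr rfl
    intro x hx
    rw [← add_smul, ← add_smul]
    congr 1
    have e1 : a ^ (2 * hw (m + 1) x - 4) * a ^ (-(4 * hw (m + 1) (x + 1)) - 4) = a ^ (-(2 * hw (m + 1) x)) := by
      rw [← zpow_add₀ ha]
      congr 1
      unfold hw
      push_cast
      ring
    rw [cI_succ h]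
    rw [show -(cI a m x * a ^ (2 * hw (m + 1) x - 4)) * gI a m l ((x + 1 : ℕ) : ℤ) *
      a ^ (-(4 * hw (m + 1) (x + 1)) - 4) * Ac a (m + 1) (x + 1) =
      -(cI a m x * (a ^ (2 * hw (m + 1) x - 4) * a ^ (-(4 * hw (m + 1) (x + 1)) - 4)) *
      gI a m l ((x + 1 : ℕ) : ℤ) * Ac a (m + 1) (x + 1)) by ring, e1]
    push_cast
    ring
  · simp
  · intro x hx
    rw [cI_succ h, Ac_sub a (by omega)]
    have e1 : a ^ (2 * hw (m + 1) x - 4) * a ^ (-(2 * hw (m + 1) (x + 1))) = 1 := by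
      rw [← zpow_add₀ ha]
      rw [show 2 * hw (m + 1) x - 4 + -(2 * hw (m + 1) (x + 1)) = 0 by unfold hw; push_cast; ring, zpow_zero]
    rw [show ((x + 1 : ℕ) : ℤ) - 1 = (x : ℤ) by push_cast; ring]
    rw [show -(-(cI a m x * a ^ (2 * hw (m + 1) x - 4)) * a ^ (-(2 * hw (m + 1) (x + 1))) * gI a m l x *
      Ac a (m + 1) (x + 1)) = cI a m x * (a ^ (2 * hw (m + 1) x - 4) * a ^ (-(2 * hw (m + 1) (x + 1)))) *
      gI a m l x * Ac a (m + 1) (x + 1) by ring, e1, mul_one]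

theorem C2_Gv_zero (h : Generic a) (m : ℕ) : C2 a (m + 1) (Gv a m 0) = lam a 0 • Gv a m 0 := by
  rw [C2_Gv_aux h, Gv, Finset.smul_sum]
  apply Finset.sum_congr rfl
  intro x _
  rw [smul_smul]
  congr 1
  simp [gI]
  ring

/-- `φ_l = - {l}² {N - l} {N + l}` -/
noncomputable def phi (a : K) (N l : ℕ) : K :=
  -(br a l ^ 2 * br a ((N : ℤ) - l) * br a ((N : ℤ) + l))

theorem C2_Gv_succ (h : Generic a) (m l : ℕ) :
    C2 a (m + 1) (Gv a m (l + 1)) = lam a (l + 1) • Gv a m (l + 1) + phi a (m + 1) (l + 1) • Gv a m l := by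
  have ha := h.ne_zero
  rw [C2_Gv_aux h, Gv, Gv, Finset.smul_sum, Finset.smul_sum, ← Finset.sum_add_distrib]
  apply Finset.sum_congr rfl
  intro x _
  rw [smul_smul, smul_smul, ← add_smul]
  congr 1
  have key : lam a 0 * br a ((x : ℤ) + 1 + l) + a ^ (-(2 * hw (m + 1) x)) *
      (br a x * br a ((m : ℤ) + 1 - x) * br a ((x : ℤ) + 1 + l) -
        br a x * br a ((m : ℤ) + 1 - x) * (a ^ (2 * ((l : ℤ) + 1)) * br a x) +
        (br a ((x : ℤ) + 1) * br a ((m : ℤ) - x) * br a ((x : ℤ) + 1 + l) -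
          br a ((m : ℤ) - x) * (a ^ (-(2 * ((l : ℤ) + 1))) * (br a ((x : ℤ) + 1 + l) * br a ((x : ℤ) + 2 + l))))) =
      lam a (l + 1) * br a ((x : ℤ) + 1 + l) -
        br a ((l : ℤ) + 1) ^ 2 * br a ((m : ℤ) + 1 + (l + 1)) * (a ^ (-(2 * (m : ℤ))) * a ^ (2 * (x : ℤ))) := by
    unfold lam br hw
    push_cast
    simp only [sq, mul_sub, mul_add, sub_mul, add_mul, ← zpow_add₀ ha]
    ring_nf
  unfold gI
  rw [kap_succ h, show ((x : ℤ) - 1 + 1) = x by ring]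
  set P := pr a ((x : ℤ) + 1) l with hP
  set κ := kap a m l
  set c := cI a m x
  have p1 : pr a ((x : ℤ) + 1) (l + 1) = P * br a ((x : ℤ) + 1 + l) := pr_succ _ _ _
  have p2 : pr a (x : ℤ) (l + 1) = br a x * P := pr_succ' _ _ _
  have p3 : br a ((x : ℤ) + 1) * pr a ((x : ℤ) + 1 + 1) (l + 1) = P * (br a ((x : ℤ) + 1 + l) * br a ((x : ℤ) + 2 + l)) := by
    rw [← pr_succ', pr_succ, pr_succ, mul_assoc]
    congr 3
    push_cast
    ring
  have q1 : a ^ (-(2 * ((l + 1 : ℕ) : ℤ) * ((x : ℤ) - 1))) = a ^ (-(2 * ((l + 1 : ℕ) : ℤ) * (x : ℤ))) *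
      a ^ (2 * ((l : ℤ) + 1)) := by
    rw [← zpow_add₀ ha]; congr 1; push_cast; ring
  have q2 : a ^ (-(2 * ((l + 1 : ℕ) : ℤ) * ((x : ℤ) + 1))) = a ^ (-(2 * ((l + 1 : ℕ) : ℤ) * (x : ℤ))) *
      a ^ (-(2 * ((l : ℤ) + 1))) := by
    rw [← zpow_add₀ ha]; congr 1; push_cast; ring
  have q3 : a ^ (-(2 * (l : ℤ) * x)) = a ^ (-(2 * ((l + 1 : ℕ) : ℤ) * (x : ℤ))) * (a ^ (2 * (m : ℤ)) *
      (a ^ (-(2 * (m : ℤ))) * a ^ (2 * (x : ℤ)))) := by
    rw [← zpow_add₀ ha, ← zpow_add₀ ha, ← zpow_add₀ ha]; congr 1; push_cast; ring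
  rw [q1, q2, q3, p1, p2]
  unfold Ac phi
  rw [show ((m + 1 : ℕ) : ℤ) - ((x + 1 : ℕ) : ℤ) = (m : ℤ) - x by push_cast; ring,
    show ((m + 1 : ℕ) : ℤ) - ((l + 1 : ℕ) : ℤ) = (m : ℤ) - l by push_cast; ring]
  push_cast at key ⊢
  set Z := a ^ (-(2 * ((l : ℤ) + 1) * (x : ℤ)))
  calc _ = c * κ * (a ^ (2 * (m : ℤ)) * br a ((m : ℤ) - l)) * Z * (P * (lam a 0 * br a ((x : ℤ) + 1 + l) +
        a ^ (-(2 * hw (m + 1) x)) * (br a x * br a ((m : ℤ) + 1 - x) * br a ((x : ℤ) + 1 + l) -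
        br a x * br a ((m : ℤ) + 1 - x) * (a ^ (2 * ((l : ℤ) + 1)) * br a x) +
        br a ((x : ℤ) + 1) * br a ((m : ℤ) - x) * br a ((x : ℤ) + 1 + l))) -
          a ^ (-(2 * hw (m + 1) x)) * br a ((m : ℤ) - x) * (a ^ (-(2 * ((l : ℤ) + 1))) *
            (br a ((x : ℤ) + 1) * pr a ((x : ℤ) + 1 + 1) (l + 1)))) := by ring
    _ = c * κ * (a ^ (2 * (m : ℤ)) * br a ((m : ℤ) - l)) * Z * P * (lam a 0 * br a ((x : ℤ) + 1 + l) +
      a ^ (-(2 * hw (m + 1) x)) *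
      (br a x * br a ((m : ℤ) + 1 - x) * br a ((x : ℤ) + 1 + l) -
        br a x * br a ((m : ℤ) + 1 - x) * (a ^ (2 * ((l : ℤ) + 1)) * br a x) +
        (br a ((x : ℤ) + 1) * br a ((m : ℤ) - x) * br a ((x : ℤ) + 1 + l) -
          br a ((m : ℤ) - x) * (a ^ (-(2 * ((l : ℤ) + 1))) * (br a ((x : ℤ) + 1 + l) * br a ((x : ℤ) + 2 + l)))))) := by
        rw [p3]; ring
    _ = _ := by rw [key]; ring

end Pool.Agent.CCurve
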