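import Pool.Agent.CCurve.Eval

/-!
# The coloured Jones polynomial of the knot `8_3`
-/

namespace Pool.Agent.CCurve

open Finset

variable {K : Type*} [Field K] {a : K}

/-- A diagram of the knot `8_3`: the closure of the 4-plat with two twist regions of four crossings. -/
def D83 : Diagram :=
  [.cup 0, .cup 2, .pos 1, .pos 1, .pos 1, .pos 1, .neg 0, .neg 0, .neg 0, .neg 0, .cap 1, .cap 0]

theorem D83_isKnot : IsKnotDiagram D83 0 := rfl

theorem e2_apply (x y x' y' : ℕ) : (e2 x y : V2 K) (x', y') = if x = x' ∧ y = y' then 1 else 0 := by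
  simp [e2, Finsupp.single_apply]

/-- a linear functional given by a matrix -/
theorem functional_ext {S : V2 K →ₗ[K] K} (N : ℕ) (c : ℕ → ℕ → K)
    (h : ∀ x y, S (e2 x y) = if x < N ∧ y < N then c x y else 0) (v : V2 K) :
    S v = ∑ x ∈ range N, ∑ y ∈ range N, c x y * v (x, y) := by
  have : S = ∑ x ∈ range N, ∑ y ∈ range N, c x y • (Finsupp.lapply (x, y) : V2 K →ₗ[K] K) := by
    apply ext2
    intro x' y'
    rw [h]
    simp only [LinearMap.sum_apply, LinearMap.smul_apply, Finsupp.lapply_apply, e2_apply, smul_eq_mul]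
    by_cases hx : x' < N
    · rw [Finset.sum_eq_single_of_mem x' (Finset.mem_range.mpr hx)]
      · by_cases hy : y' < N
        · rw [Finset.sum_eq_single_of_mem y' (Finset.mem_range.mpr hy)]
          · simp [hx, hy]
          · intro y _ hne
            rw [if_neg (by tauto), mul_zero]
        · rw [if_neg (by tauto)]
          symm
          apply Finset.sum_eq_zero
          intro y hy'
          rw [Finset.mem_range] at hy'
          rw [if_neg (by omega), mul_zero]
      · intro x _ hne
        apply Finset.sum_eq_zero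
        intro y _
        rw [if_neg (by tauto), mul_zero]
    · rw [if_neg (by tauto)]
      symm
      apply Finset.sum_eq_zero
      intro x hx'
      rw [Finset.mem_range] at hx'
      apply Finset.sum_eq_zero
      intro y _
      rw [if_neg (by omega), mul_zero]
  rw [this]
  simp [LinearMap.sum_apply]

theorem Rp_apply (a : K) (N z w : ℕ) (hz : z < N) (hw' : w < N) (v : V2 K) :
    (Rp a N v) (z, w) = ∑ x ∈ range N, ∑ y ∈ range N, posW a N z w x y * v (x, y) := by
  have : ∀ x y, ((Finsupp.lapply (z, w)) ∘ₗ (Rp a N)) (e2 x y) =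
      if x < N ∧ y < N then posW a N z w x y else 0 := by
    intro x y
    simp only [LinearMap.comp_apply, Rp, lin_e2, map_sum, map_smul, Finsupp.lapply_apply, e2_apply, smul_eq_mul]
    by_cases hc : z + w = x + y ∧ y ≤ z
    · rw [Finset.sum_eq_single_of_mem (z - y) (Finset.mem_range.mpr (by omega))]
      · rw [if_pos (by omega), mul_one]
        by_cases hx : x < N
        · rw [if_pos (by omega)]
          unfold posW rp
          rw [if_pos hc]
          have e1 : hw N x + 2 * ((z - y : ℕ) : ℤ) = hw N w := by unfold hw; omega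
          have e2 : hw N y - 2 * ((z - y : ℕ) : ℤ) = hw N z := by unfold hw; omega
          rw [e1, e2, mul_comm (hw N w)]
          rfl
        · rw [if_neg (by omega)]
          unfold rp pr
          rw [Finset.prod_eq_zero (i := x - N) (Finset.mem_range.mpr (by omega)), mul_zero]
          rw [show (N : ℤ) - x + ((x - N : ℕ) : ℤ) = 0 by omega, br_zero]
      · intro n hn hne
        rw [Finset.mem_range] at hn
        rw [if_neg (by omega), mul_zero]
    · rw [Finset.sum_eq_zero]
      · unfold posW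
        rw [if_neg hc]
        simp
      · intro n hn
        rw [Finset.mem_range] at hn
        rw [if_neg (by omega), mul_zero]
  exact functional_ext N (posW a N z w) this v

theorem Rn_apply (a : K) (N z w : ℕ) (hz : z < N) (hw' : w < N) (v : V2 K) :
    (Rn a N v) (z, w) = ∑ x ∈ range N, ∑ y ∈ range N, negW a N z w x y * v (x, y) := by
  have : ∀ x y, ((Finsupp.lapply (z, w)) ∘ₗ (Rn a N)) (e2 x y) =
      if x < N ∧ y < N then negW a N z w x y else 0 := by
    intro x y
    simp only [LinearMap.comp_apply, Rn, lin_e2, map_sum, map_smul, Finsupp.lapply_apply, e2_apply, smul_eq_mul]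
    by_cases hc : z + w = x + y ∧ z ≤ y
    · rw [Finset.sum_eq_single_of_mem (y - z) (Finset.mem_range.mpr (by omega))]
      · rw [if_pos (by omega), mul_one]
        by_cases hx : y < N
        · rw [if_pos (by omega)]
          unfold negW rn
          rw [if_pos hc]
          rfl
        · rw [if_neg (by omega)]
          unfold rn pr
          rw [Finset.prod_eq_zero (i := y - N) (Finset.mem_range.mpr (by omega)), mul_zero]
          rw [show (N : ℤ) - y + ((y - N : ℕ) : ℤ) = 0 by omega, br_zero]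
      · intro n hn hne
        rw [Finset.mem_range] at hn
        rw [if_neg (by omega), mul_zero]
    · rw [Finset.sum_eq_zero]
      · unfold negW
        rw [if_neg hc]
        simp
      · intro n hn
        rw [Finset.mem_range] at hn
        rw [if_neg (by omega), mul_zero]
  exact functional_ext N (negW a N z w) this v

theorem capW_eq (a : K) (m x y : ℕ) : capW a (m + 1) x y = if x + y = m then (cI a m y)⁻¹ else 0 := by
  unfold capW cI
  by_cases h : x + y = m
  · rw [if_pos (by omega), if_pos h]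
    push_cast
    rw [show (m : ℤ) + 1 - 2 - y = m - 1 - y by ring]
  · rw [if_neg (by omega), if_neg h]

theorem cupW_eq (a : K) (m x y : ℕ) : cupW a (m + 1) x y = if x + y = m then cI a m x else 0 := by
  unfold cupW cI
  by_cases h : x + y = m
  · rw [if_pos (by omega), if_pos h]
    push_cast
    rw [show (m : ℤ) + 1 - 2 - x = m - 1 - x by ring]
  · rw [if_neg (by omega), if_neg h]

theorem capl_apply (a : K) (m : ℕ) (v : V2 K) :
    capl a m v = ∑ x ∈ range (m + 1), ∑ y ∈ range (m + 1), capW a (m + 1) x y * v (x, y) := by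
  apply functional_ext
  intro x y
  rw [capl, lin_e2, capW_eq]
  by_cases h : x + y = m
  · rw [if_pos h, if_pos (by omega)]
  · rw [if_neg h]; simp

/-- a state on four strands is represented by a family of vectors in the tensor cube -/
def Rep (m : ℕ) (ψ : List ℕ → K) (T : ℕ → V3 K) : Prop :=
  ∀ x0 x1 x2 x3, x0 < m + 1 → x1 < m + 1 → x2 < m + 1 → x3 < m + 1 → ψ [x0, x1, x2, x3] = (T x3) (x0, x1, x2)

theorem Rep.pos {m : ℕ} {ψ : List ℕ → K} {T : ℕ → V3 K} (h : Rep m ψ T) :
    Rep m (act a (m + 1) (.pos 1) ψ) (fun x3 => T12 (Rp a (m + 1)) (T x3)) := by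
  intro x0 x1 x2 x3 h0 h1 h2 h3
  rw [← sg_apply, sg_T12, Rp_apply a _ _ _ h1 h2]
  show ∑ x ∈ range (m + 1), ∑ y ∈ range (m + 1), posW a (m + 1) x1 x2 x y * ψ [x0, x, y, x3] = _
  apply Finset.sum_congr rfl
  intro x hx
  apply Finset.sum_congr rfl
  intro y hy
  rw [Finset.mem_range] at hx hy
  rw [h x0 x y x3 h0 hx hy h3, sg_apply]

theorem Rep.neg {m : ℕ} {ψ : List ℕ → K} {T : ℕ → V3 K} (h : Rep m ψ T) :
    Rep m (act a (m + 1) (.neg 0) ψ) (fun x3 => T01 (Rn a (m + 1)) (T x3)) := by
  intro x0 x1 x2 x3 h0 h1 h2 h3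
  rw [← ro_apply, ro_T01, Rn_apply a _ _ _ h0 h1]
  show ∑ x ∈ range (m + 1), ∑ y ∈ range (m + 1), negW a (m + 1) x0 x1 x y * ψ [x, y, x2, x3] = _
  apply Finset.sum_congr rfl
  intro x hx
  apply Finset.sum_congr rfl
  intro y hy
  rw [Finset.mem_range] at hx hy
  rw [h x y x2 x3 hx hy h2 h3, ro_apply]

theorem cupv_apply (a : K) (m x y : ℕ) : (cupv a m) (x, y) = if x + y = m then cI a m x else 0 := by
  unfold cupv
  rw [Finsupp.finset_sum_apply]
  simp only [Finsupp.smul_apply, e2_apply, smul_eq_mul]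
  by_cases h : x + y = m
  · rw [Finset.sum_eq_single_of_mem x (Finset.mem_range.mpr (by omega)), if_pos (by omega), if_pos h, mul_one]
    intro x' _ hne
    rw [if_neg (by tauto), mul_zero]
  · rw [if_neg h]
    apply Finset.sum_eq_zero
    intro x' hx'
    rw [Finset.mem_range] at hx'
    rw [if_neg (by omega), mul_zero]

theorem Rep.init (a : K) (m : ℕ) :
    Rep m (act a (m + 1) (.cup 2) (act a (m + 1) (.cup 0) (fun s => if s = [] then 1 else 0)))
      (fun x3 => cupW a (m + 1) (m - x3) x3 • ka (m - x3) (cupv a m)) := by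
  intro x0 x1 x2 x3 h0 h1 h2 h3
  show cupW a (m + 1) x2 x3 * (cupW a (m + 1) x0 x1 * (if ([] : List ℕ) = [] then 1 else 0)) = _
  rw [Finsupp.smul_apply, ← ro_apply, ro_ka]
  by_cases h : m - x3 = x2
  · rw [if_pos h, h, cupv_apply, ← cupW_eq]
    simp
  · rw [if_neg h, cupW_eq a m x2 x3, if_neg (by omega)]
    simp

theorem bracket_unknot (a : K) (m : ℕ) : bracket a (m + 1) [.cup 0, .cap 0] =
    ∑ x ∈ range (m + 1), ∑ y ∈ range (m + 1), capW a (m + 1) x y * cupW a (m + 1) x y := by
  show ∑ x ∈ range (m + 1), ∑ y ∈ range (m + 1), capW a (m + 1) x y *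
    (cupW a (m + 1) x y * (if ([] : List ℕ) = [] then 1 else 0)) = _
  simp

theorem bracket_D83 (h : Generic a) (m : ℕ) :
    bracket a (m + 1) D83 = zval a m * bracket a (m + 1) [.cup 0, .cap 0] := by
  have hr := ((((((((Rep.init a m).pos (a := a)).pos (a := a)).pos (a := a)).pos (a := a)).neg (a := a)).neg
    (a := a)).neg (a := a)).neg (a := a)
  set ψ := (act a (m + 1) (.neg 0) (act a (m + 1) (.neg 0) (act a (m + 1) (.neg 0) (act a (m + 1) (.neg 0)
    (act a (m + 1) (.pos 1) (act a (m + 1) (.pos 1) (act a (m + 1) (.pos 1) (act a (m + 1) (.pos 1)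
    (act a (m + 1) (.cup 2) (act a (m + 1) (.cup 0) (fun s => if s = [] then 1 else 0)))))))))))
  have e1 : bracket a (m + 1) D83 = ∑ x0 ∈ range (m + 1), ∑ x3 ∈ range (m + 1), capW a (m + 1) x0 x3 *
      ∑ x ∈ range (m + 1), ∑ y ∈ range (m + 1), capW a (m + 1) x y * ψ [x0, x, y, x3] := rfl
  rw [e1, bracket_unknot, Finset.mul_sum]
  apply Finset.sum_congr rfl
  intro x0 hx0
  rw [Finset.mul_sum]
  apply Finset.sum_congr rfl
  intro x3 hx3
  rw [Finset.mem_range] at hx0 hx3
  have e2 : ∑ x ∈ range (m + 1), ∑ y ∈ range (m + 1), capW a (m + 1) x y * ψ [x0, x, y, x3] =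
      capl a m (sg x0 (cupW a (m + 1) (m - x3) x3 • pow4 (T01 (Rn a (m + 1))) (pow4 (T12 (Rp a (m + 1)))
        (ka (m - x3) (cupv a m))))) := by
    rw [capl_apply]
    apply Finset.sum_congr rfl
    intro x hx
    apply Finset.sum_congr rfl
    intro y hy
    rw [Finset.mem_range] at hx hy
    rw [hr x0 x y x3 hx0 hx hy hx3, sg_apply]
    unfold pow4
    simp only [map_smul]
  rw [e2]
  by_cases hc : x0 + x3 = m
  · have : m - x3 = x0 := by omega
    rw [this, map_smul, map_smul, eps_all h m x0 (by omega), smul_eq_mul]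
    ring
  · rw [capW_eq, if_neg hc]
    simp

theorem unknot_ne_zero (h : Generic a) (m : ℕ) : bracket a (m + 1) [.cup 0, .cap 0] ≠ 0 := by
  have ha := h.ne_zero
  rw [bracket_unknot]
  have e1 : ∀ x ∈ range (m + 1), ∑ y ∈ range (m + 1), capW a (m + 1) x y * cupW a (m + 1) x y =
      (-1) ^ m * a ^ (2 * ((m : ℤ) - 2 * x)) := by
    intro x hx
    rw [Finset.mem_range] at hx
    rw [Finset.sum_eq_single_of_mem (m - x) (Finset.mem_range.mpr (by omega))]
    · rw [capW_eq, cupW_eq, if_pos (by omega), if_pos (by omega)]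
      have h1 := cI_ne_zero h m (m - x)
      rw [inv_mul_eq_div, div_eq_iff h1]
      unfold cI
      have e2 : a ^ (2 * (x : ℤ) * ((m : ℤ) - 1 - x)) = a ^ (2 * ((m : ℤ) - 2 * x)) *
          a ^ (2 * ((m - x : ℕ) : ℤ) * ((m : ℤ) - 1 - ((m - x : ℕ) : ℤ))) := by
        rw [← zpow_add₀ ha]
        congr 1
        rw [Nat.cast_sub (by omega : x ≤ m)]
        ring
      have e3 : ((-1) ^ x : K) = (-1) ^ m * (-1) ^ (m - x) := by
        rw [← pow_add, show m + (m - x) = x + 2 * (m - x) by omega, pow_add, pow_mul]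
        simp
      rw [e2, e3]
      ring
    · intro y _ hne
      rw [capW_eq, if_neg (by omega), zero_mul]
  rw [Finset.sum_congr rfl e1, ← Finset.mul_sum]
  refine mul_ne_zero (pow_ne_zero _ (neg_ne_zero.mpr one_ne_zero)) ?_
  intro h0
  have e4 : ∀ n : ℕ, br a 1 * ∑ x ∈ range n, a ^ (2 * ((m : ℤ) - 2 * x)) =
      a ^ (2 * ((m : ℤ) + 1)) - a ^ (2 * ((m : ℤ) + 1 - 2 * n)) := by
    intro n
    induction n with
    | zero => simp
    | succ n ih =>
      rw [Finset.sum_range_succ, mul_add, ih]
      unfold br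
      simp only [sub_mul, ← zpow_add₀ ha]
      push_cast
      ring_nf
  have e5 := e4 (m + 1)
  rw [h0, mul_zero] at e5
  have e6 : br a ((m : ℤ) + 1) = 0 := by
    unfold br
    rw [e5]
    congr 1
    push_cast
    ring_nf
  exact h.br_ne_zero (by omega) e6

/-- **The coloured Jones function of `8_3`.** -/
theorem coloredJones_D83 (h : Generic a) (n : ℕ) (hn : 1 ≤ n) :
    coloredJones a D83 0 n = ∑ k ∈ range n, cyc a n k * (sk a k * sk a⁻¹ k) := by
  obtain ⟨m, rfl⟩ := Nat.exists_eq_add_of_le' hn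
  unfold coloredJones
  rw [neg_zero, zpow_zero, one_mul, bracket_D83 h, mul_div_cancel_right₀ _ (unknot_ne_zero h m), zval_eq h]

end Pool.Agent.CCurve
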