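import Pool.Agent.CCurve.Casimir

/-!
# The tensor cube
-/

namespace Pool.Agent.CCurve

open Finset

variable {K : Type*} [Field K] {a : K}

/-- tensor cube -/
abbrev V3 (K : Type*) [Field K] := (ℕ × ℕ × ℕ) →₀ K

/-- basis vector -/
noncomputable def e3 (x y z : ℕ) : V3 K := Finsupp.single (x, y, z) (1 : K)

/-- linear extension -/
noncomputable def lin3 {M : Type*} [AddCommGroup M] [Module K M] (f : ℕ → ℕ → ℕ → M) : V3 K →ₗ[K] M :=
  Finsupp.linearCombination K (fun p : ℕ × ℕ × ℕ => f p.1 p.2.1 p.2.2)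

@[simp] theorem lin3_e3 {M : Type*} [AddCommGroup M] [Module K M] (f : ℕ → ℕ → ℕ → M) (x y z : ℕ) :
    (lin3 f : V3 K →ₗ[K] M) (e3 x y z) = f x y z := by
  simp [lin3, e3]

theorem ext3 {M : Type*} [AddCommGroup M] [Module K M] {S T : V3 K →ₗ[K] M}
    (h : ∀ x y z, S (e3 x y z) = T (e3 x y z)) : S = T := by
  apply Finsupp.lhom_ext'
  rintro ⟨x, y, z⟩
  apply LinearMap.ext_ring
  exact h x y z

/-- `e_x ⊗ v` -/
noncomputable def io (x : ℕ) : V2 K →ₗ[K] V3 K := lin (fun y z => e3 x y z)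

/-- `v ⊗ e_z` -/
noncomputable def ka (z : ℕ) : V2 K →ₗ[K] V3 K := lin (fun x y => e3 x y z)

/-- slices -/
noncomputable def sg (x : ℕ) : V3 K →ₗ[K] V2 K := lin3 (fun x' y z => if x' = x then e2 y z else 0)

/-- slices -/
noncomputable def ro (z : ℕ) : V3 K →ₗ[K] V2 K := lin3 (fun x y z' => if z' = z then e2 x y else 0)

/-- operator on the last two factors -/
noncomputable def T12 (T : V2 K →ₗ[K] V2 K) : V3 K →ₗ[K] V3 K := lin3 (fun x y z => io x (T (e2 y z)))

/-- operator on the first two factors -/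
noncomputable def T01 (T : V2 K →ₗ[K] V2 K) : V3 K →ₗ[K] V3 K := lin3 (fun x y z => ka z (T (e2 x y)))

theorem T12_io (T : V2 K →ₗ[K] V2 K) (x : ℕ) (v : V2 K) : T12 T (io x v) = io x (T v) := by
  have : (T12 T) ∘ₗ (io x) = (io x) ∘ₗ T := by
    apply ext2
    intro y z
    simp [T12, io]
  exact LinearMap.congr_fun this v

theorem T01_ka (T : V2 K →ₗ[K] V2 K) (z : ℕ) (v : V2 K) : T01 T (ka z v) = ka z (T v) := by
  have : (T01 T) ∘ₗ (ka z) = (ka z) ∘ₗ T := by
    apply ext2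
    intro x y
    simp [T01, ka]
  exact LinearMap.congr_fun this v

theorem sg_io (x x' : ℕ) (v : V2 K) : sg x (io x' v) = if x' = x then v else 0 := by
  have : (sg x) ∘ₗ (io x') = (if x' = x then LinearMap.id else 0 : V2 K →ₗ[K] V2 K) := by
    apply ext2
    intro y z
    simp only [LinearMap.comp_apply, io, sg, lin_e2, lin3_e3]
    split_ifs <;> simp
  have := LinearMap.congr_fun this v
  rw [LinearMap.comp_apply] at this
  rw [this]
  split_ifs <;> simp

theorem ro_ka (z z' : ℕ) (v : V2 K) : ro z (ka z' v) = if z' = z then v else 0 := by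
  have : (ro z) ∘ₗ (ka z') = (if z' = z then LinearMap.id else 0 : V2 K →ₗ[K] V2 K) := by
    apply ext2
    intro y z
    simp only [LinearMap.comp_apply, ka, ro, lin_e2, lin3_e3]
    split_ifs <;> simp
  have := LinearMap.congr_fun this v
  rw [LinearMap.comp_apply] at this
  rw [this]
  split_ifs <;> simp

theorem sg_T12 (T : V2 K →ₗ[K] V2 K) (x : ℕ) (ψ : V3 K) : sg x (T12 T ψ) = T (sg x ψ) := by
  have : (sg x) ∘ₗ (T12 T) = T ∘ₗ (sg x) := by
    apply ext3
    intro x' y z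
    simp only [LinearMap.comp_apply, T12, lin3_e3, sg_io]
    simp only [sg, lin3_e3]
    split_ifs <;> simp
  exact LinearMap.congr_fun this ψ

theorem ro_T01 (T : V2 K →ₗ[K] V2 K) (z : ℕ) (ψ : V3 K) : ro z (T01 T ψ) = T (ro z ψ) := by
  have : (ro z) ∘ₗ (T01 T) = T ∘ₗ (ro z) := by
    apply ext3
    intro x y z'
    simp only [LinearMap.comp_apply, T01, lin3_e3, ro_ka]
    simp only [ro, lin3_e3]
    split_ifs <;> simp
  exact LinearMap.congr_fun this ψ

theorem T12_comp (S T : V2 K →ₗ[K] V2 K) (ψ : V3 K) : T12 S (T12 T ψ) = T12 (S ∘ₗ T) ψ := by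
  have : (T12 S) ∘ₗ (T12 T) = T12 (S ∘ₗ T) := by
    apply ext3
    intro x y z
    have e1 : e3 (K := K) x y z = io x (e2 y z) := by simp [io]
    simp only [LinearMap.comp_apply]
    rw [e1, T12_io, T12_io, T12_io, LinearMap.comp_apply]
  exact LinearMap.congr_fun this ψ

theorem T12_add (S T : V2 K →ₗ[K] V2 K) (ψ : V3 K) : T12 (S + T) ψ = T12 S ψ + T12 T ψ := by
  have : T12 (S + T) = T12 S + T12 T := by
    apply ext3
    intro x y z
    simp [T12]
  rw [this, LinearMap.add_apply]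

theorem sg_apply (x y z : ℕ) (ψ : V3 K) : (sg x ψ) (y, z) = ψ (x, y, z) := by
  have : (Finsupp.lapply (y, z)) ∘ₗ (sg x) = (Finsupp.lapply (x, y, z) : V3 K →ₗ[K] K) := by
    apply ext3
    intro x' y' z'
    simp only [LinearMap.comp_apply, sg, lin3_e3, Finsupp.lapply_apply]
    simp only [e2, e3]
    by_cases h : x' = x
    · subst h
      simp [Finsupp.single_apply]
    · simp [h]
  exact LinearMap.congr_fun this ψ

theorem ro_apply (x y z : ℕ) (ψ : V3 K) : (ro z ψ) (x, y) = ψ (x, y, z) := by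
  have : (Finsupp.lapply (x, y)) ∘ₗ (ro z) = (Finsupp.lapply (x, y, z) : V3 K →ₗ[K] K) := by
    apply ext3
    intro x' y' z'
    simp only [LinearMap.comp_apply, ro, lin3_e3, Finsupp.lapply_apply]
    simp only [e2, e3]
    by_cases h : z' = z
    · subst h
      simp [Finsupp.single_apply]
    · simp [h]
  exact LinearMap.congr_fun this ψ

theorem eq_zero_of_sg {ψ : V3 K} (h : ∀ x, sg x ψ = 0) : ψ = 0 := by
  ext ⟨x, y, z⟩
  rw [← sg_apply, h]
  rfl

theorem eq_zero_of_ro {ψ : V3 K} (h : ∀ z, ro z ψ = 0) : ψ = 0 := by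
  ext ⟨x, y, z⟩
  rw [← ro_apply, h]
  rfl

/-- `{x} {N - x}` -/
noncomputable def Ac (a : K) (N x : ℕ) : K := br a x * br a ((N : ℤ) - x)

@[simp] theorem Ac_zero (a : K) (N : ℕ) : Ac a N 0 = 0 := by simp [Ac]

@[simp] theorem Ac_self (a : K) (N : ℕ) : Ac a N N = 0 := by simp [Ac]

theorem Ac_ne_zero (h : Generic a) {N x : ℕ} (h1 : 0 < x) (h2 : x < N) : Ac a N x ≠ 0 := by
  unfold Ac
  exact mul_ne_zero (h.br_ne_zero (by omega)) (h.br_ne_zero (by omega))

theorem E2_e2 (a : K) (N x y : ℕ) : E2 a N (e2 x y) =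
    (Ac a N x * a ^ (2 * hw N y)) • e2 (x - 1) y + Ac a N y • e2 x (y - 1) := by
  simp [E2, Ac]

/-- threefold coproduct of `{1}² E` -/
noncomputable def E3 (a : K) (N : ℕ) : V3 K →ₗ[K] V3 K :=
  lin3 (fun x y z => (Ac a N x * a ^ (2 * (hw N y + hw N z))) • e3 (x - 1) y z +
    (Ac a N y * a ^ (2 * hw N z)) • e3 x (y - 1) z + Ac a N z • e3 x y (z - 1))

/-- `E ⊗ K ⊗ K` -/
noncomputable def EKK (a : K) (N : ℕ) : V3 K →ₗ[K] V3 K :=
  lin3 (fun x y z => (Ac a N x * a ^ (2 * (hw N y + hw N z))) • e3 (x - 1) y z)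

theorem E3_eq (a : K) (N : ℕ) : E3 a N = EKK a N + T12 (E2 a N) := by
  apply ext3
  intro x y z
  simp only [E3, EKK, T12, LinearMap.add_apply, lin3_e3, E2_e2, map_add, map_smul, io, lin_e2, add_assoc]

/-- `K ⊗ K` -/
noncomputable def K2 (a : K) (N : ℕ) : V2 K →ₗ[K] V2 K := wt2 (fun w => a ^ (2 * w)) N

theorem E3_io (a : K) (N x : ℕ) (v : V2 K) :
    E3 a N (io x v) = Ac a N x • io (x - 1) (K2 a N v) + io x (E2 a N v) := by
  have : (E3 a N) ∘ₗ (io x) = Ac a N x • (io (x - 1)) ∘ₗ (K2 a N) + (io x) ∘ₗ (E2 a N) := by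
    apply ext2
    intro y z
    simp only [LinearMap.comp_apply, LinearMap.add_apply, LinearMap.smul_apply, E3_eq, T12_io,
      K2, wt2, lin_e2, map_smul, smul_smul]
    congr 1
    simp [io, EKK]
  exact LinearMap.congr_fun this v

theorem E3_ka (h : Generic a) (N z : ℕ) (v : V2 K) :
    E3 a N (ka z v) = a ^ (2 * hw N z) • ka z (E2 a N v) + Ac a N z • ka (z - 1) v := by
  have : (E3 a N) ∘ₗ (ka z) = a ^ (2 * hw N z) • (ka z) ∘ₗ (E2 a N) + Ac a N z • (ka (z - 1)) := by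
    apply ext2
    intro x y
    simp only [LinearMap.comp_apply, LinearMap.add_apply, LinearMap.smul_apply, E2_e2, map_add, map_smul,
      smul_add, smul_smul]
    simp only [ka, lin_e2, E3, lin3_e3]
    congr 2
    · congr 1
      rw [mul_add, zpow_add₀ h.ne_zero]
      ring
    · congr 1
      ring
  exact LinearMap.congr_fun this v

theorem sg_E3 (a : K) (N x : ℕ) (ψ : V3 K) :
    sg x (E3 a N ψ) = Ac a N (x + 1) • K2 a N (sg (x + 1) ψ) + E2 a N (sg x ψ) := by
  have : (sg x) ∘ₗ (E3 a N) = Ac a N (x + 1) • (K2 a N) ∘ₗ (sg (x + 1)) + (E2 a N) ∘ₗ (sg x) := by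
    apply ext3
    intro x' y z
    simp only [LinearMap.comp_apply, LinearMap.add_apply, LinearMap.smul_apply, E3_eq, map_add, sg_T12]
    congr 1
    simp only [EKK, lin3_e3, map_smul, sg]
    rcases x' with _ | x'
    · simp
    · by_cases h : x' = x
      · subst h
        simp [K2, wt2, smul_smul]
      · simp [h]
  exact LinearMap.congr_fun this ψ

theorem ro_E3 (h : Generic a) (N z : ℕ) (ψ : V3 K) :
    ro z (E3 a N ψ) = a ^ (2 * hw N z) • E2 a N (ro z ψ) + Ac a N (z + 1) • ro (z + 1) ψ := by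
  have : (ro z) ∘ₗ (E3 a N) = a ^ (2 * hw N z) • (E2 a N) ∘ₗ (ro z) + Ac a N (z + 1) • (ro (z + 1)) := by
    apply ext3
    intro x y z'
    have e1 : e3 (K := K) x y z' = ka z' (e2 x y) := by simp [ka]
    simp only [LinearMap.comp_apply, LinearMap.add_apply, LinearMap.smul_apply]
    rw [e1, E3_ka h, map_add, map_smul, map_smul, ro_ka, ro_ka, ro_ka, ro_ka]
    congr 1
    · by_cases h1 : z' = z
      · subst h1; simp
      · simp [h1]
    · rcases z' with _ | z'
      · simp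
      · by_cases h1 : z' = z
        · subst h1; simp
        · simp [h1]
  exact LinearMap.congr_fun this ψ

theorem E3_T12 (N : ℕ) {T : V2 K →ₗ[K] V2 K} (hE : ∀ v, T (E2 a N v) = E2 a N (T v))
    (hK : ∀ v, K2 a N (T v) = T (K2 a N v)) (ψ : V3 K) : E3 a N (T12 T ψ) = T12 T (E3 a N ψ) := by
  have : (E3 a N) ∘ₗ (T12 T) = (T12 T) ∘ₗ (E3 a N) := by
    apply ext3
    intro x y z
    have e1 : e3 (K := K) x y z = io x (e2 y z) := by simp [io]
    simp only [LinearMap.comp_apply]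
    rw [e1, T12_io, E3_io, E3_io, map_add, map_smul, T12_io, T12_io, hE, hK]
  exact LinearMap.congr_fun this ψ

theorem E3_T01 (h : Generic a) (N : ℕ) {T : V2 K →ₗ[K] V2 K} (hE : ∀ v, T (E2 a N v) = E2 a N (T v))
    (ψ : V3 K) : E3 a N (T01 T ψ) = T01 T (E3 a N ψ) := by
  have : (E3 a N) ∘ₗ (T01 T) = (T01 T) ∘ₗ (E3 a N) := by
    apply ext3
    intro x y z
    have e1 : e3 (K := K) x y z = ka z (e2 x y) := by simp [ka]
    simp only [LinearMap.comp_apply]
    rw [e1, T01_ka, E3_ka h, E3_ka h, map_add, map_smul, map_smul, T01_ka, T01_ka, hE]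
  exact LinearMap.congr_fun this ψ

/-- multiplication by a function of the total weight -/
noncomputable def wt3 (f : ℤ → K) (N : ℕ) : V3 K →ₗ[K] V3 K :=
  lin3 (fun x y z => f (hw N x + hw N y + hw N z) • e3 x y z)

/-- `ψ` has total weight `w` -/
def HasWt3 (N : ℕ) (w : ℤ) (ψ : V3 K) : Prop := ∀ f : ℤ → K, wt3 f N ψ = f w • ψ

theorem wt3_io (f : ℤ → K) (N x : ℕ) (v : V2 K) :
    wt3 f N (io x v) = io x (wt2 (fun w => f (hw N x + w)) N v) := by
  have : (wt3 f N) ∘ₗ (io x) = (io x) ∘ₗ (wt2 (fun w => f (hw N x + w)) N) := by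
    apply ext2
    intro y z
    simp [io, wt3, wt2, add_assoc]
  exact LinearMap.congr_fun this v

theorem wt3_ka (f : ℤ → K) (N z : ℕ) (v : V2 K) :
    wt3 f N (ka z v) = ka z (wt2 (fun w => f (w + hw N z)) N v) := by
  have : (wt3 f N) ∘ₗ (ka z) = (ka z) ∘ₗ (wt2 (fun w => f (w + hw N z)) N) := by
    apply ext2
    intro y z
    simp [ka, wt3, wt2]
  exact LinearMap.congr_fun this v

theorem wt3_T12 (f : ℤ → K) (N : ℕ) {T : V2 K →ₗ[K] V2 K}
    (hT : ∀ (f : ℤ → K) v, wt2 f N (T v) = T (wt2 f N v)) (ψ : V3 K) :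
    wt3 f N (T12 T ψ) = T12 T (wt3 f N ψ) := by
  have : (wt3 f N) ∘ₗ (T12 T) = (T12 T) ∘ₗ (wt3 f N) := by
    apply ext3
    intro x y z
    have e1 : e3 (K := K) x y z = io x (e2 y z) := by simp [io]
    simp only [LinearMap.comp_apply]
    rw [e1, T12_io, wt3_io, wt3_io, hT, T12_io]
  exact LinearMap.congr_fun this ψ

theorem wt3_T01 (f : ℤ → K) (N : ℕ) {T : V2 K →ₗ[K] V2 K}
    (hT : ∀ (f : ℤ → K) v, wt2 f N (T v) = T (wt2 f N v)) (ψ : V3 K) :
    wt3 f N (T01 T ψ) = T01 T (wt3 f N ψ) := by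
  have : (wt3 f N) ∘ₗ (T01 T) = (T01 T) ∘ₗ (wt3 f N) := by
    apply ext3
    intro x y z
    have e1 : e3 (K := K) x y z = ka z (e2 x y) := by simp [ka]
    simp only [LinearMap.comp_apply]
    rw [e1, T01_ka, wt3_ka, wt3_ka, hT, T01_ka]
  exact LinearMap.congr_fun this ψ

theorem hasWt3_T12 {N : ℕ} {w : ℤ} {T : V2 K →ₗ[K] V2 K}
    (hT : ∀ (f : ℤ → K) v, wt2 f N (T v) = T (wt2 f N v)) {ψ : V3 K} (hψ : HasWt3 N w ψ) :
    HasWt3 N w (T12 T ψ) := by
  intro f
  rw [wt3_T12 f N hT, hψ, map_smul]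

theorem hasWt3_T01 {N : ℕ} {w : ℤ} {T : V2 K →ₗ[K] V2 K}
    (hT : ∀ (f : ℤ → K) v, wt2 f N (T v) = T (wt2 f N v)) {ψ : V3 K} (hψ : HasWt3 N w ψ) :
    HasWt3 N w (T01 T ψ) := by
  intro f
  rw [wt3_T01 f N hT, hψ, map_smul]

theorem wt3_apply (f : ℤ → K) (N x y z : ℕ) (ψ : V3 K) :
    (wt3 f N ψ) (x, y, z) = f (hw N x + hw N y + hw N z) * ψ (x, y, z) := by
  have : (Finsupp.lapply (x, y, z)) ∘ₗ (wt3 f N) =
      f (hw N x + hw N y + hw N z) • (Finsupp.lapply (x, y, z) : V3 K →ₗ[K] K) := by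
    apply ext3
    intro x' y' z'
    simp only [LinearMap.comp_apply, wt3, lin3_e3, Finsupp.lapply_apply, LinearMap.smul_apply,
      Finsupp.smul_apply, smul_eq_mul]
    simp only [e3]
    by_cases h : (x', y', z') = (x, y, z)
    · simp only [Prod.mk.injEq] at h
      obtain ⟨rfl, rfl, rfl⟩ := h
      rfl
    · rw [Finsupp.single_apply, if_neg h]; simp
  exact LinearMap.congr_fun this ψ

theorem HasWt3.apply_eq_zero {N : ℕ} {w : ℤ} {ψ : V3 K} (hψ : HasWt3 N w ψ) {x y z : ℕ}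
    (h : hw N x + hw N y + hw N z ≠ w) : ψ (x, y, z) = 0 := by
  have h1 := hψ (fun w' => if w' = w then 1 else 0)
  have h2 := DFunLike.congr_fun h1 (x, y, z)
  rw [wt3_apply] at h2
  simpa [h] using h2.symm

theorem K2_injective (h : Generic a) (N : ℕ) {v : V2 K} (hv : K2 a N v = 0) : v = 0 := by
  have : (wt2 (fun w => a ^ (-(2 * w))) N) ∘ₗ (K2 a N) = LinearMap.id := by
    apply ext2
    intro x y
    simp only [LinearMap.comp_apply, K2, wt2, lin_e2, map_smul, smul_smul, LinearMap.id_apply]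
    rw [← zpow_add₀ h.ne_zero]
    simp
  have h1 := LinearMap.congr_fun this v
  rw [LinearMap.comp_apply, hv, map_zero] at h1
  exact h1.symm

theorem W_sg (h : Generic a) (m : ℕ) {ψ : V3 K} (hE : E3 a (m + 1) ψ = 0) (hw' : HasWt3 (m + 1) m ψ)
    (h0 : sg 0 ψ = 0) : ψ = 0 := by
  apply eq_zero_of_sg
  intro x
  induction x with
  | zero => exact h0
  | succ x ih =>
    by_cases hx : x + 1 ≤ m
    · have h1 := sg_E3 a (m + 1) x ψ
      rw [hE, map_zero, ih, map_zero, add_zero] at h1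
      have h2 := (smul_eq_zero.mp h1.symm).resolve_left (Ac_ne_zero h (by omega) (by omega))
      exact K2_injective h _ h2
    · ext ⟨y, z⟩
      rw [sg_apply]
      apply hw'.apply_eq_zero
      unfold hw
      push_cast
      omega

theorem W_ro (h : Generic a) (m : ℕ) {ψ : V3 K} (hE : E3 a (m + 1) ψ = 0) (hw' : HasWt3 (m + 1) m ψ)
    (h0 : ro 0 ψ = 0) : ψ = 0 := by
  apply eq_zero_of_ro
  intro z
  induction z with
  | zero => exact h0
  | succ z ih =>
    by_cases hx : z + 1 ≤ m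
    · have h1 := ro_E3 h (m + 1) z ψ
      rw [hE, map_zero, ih, map_zero, smul_zero, zero_add] at h1
      exact (smul_eq_zero.mp h1.symm).resolve_left (Ac_ne_zero h (by omega) (by omega))
    · ext ⟨x, y⟩
      rw [ro_apply]
      apply hw'.apply_eq_zero
      unfold hw
      push_cast
      omega

end Pool.Agent.CCurve
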